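import Pool.Agent.Helper5.DR.CHF2
import Pool.Agent.Helper96.AF.E3

/-!
# Project DR (MP_a499ba_nt), block CHF, second part: linear forms of the coordinates, twists, moments
-/

set_option autoImplicit false

namespace Pool.Agent.DR

open Finset MeasureTheory Filter Topology Pool.Agent.Helper5.RM Pool.Agent.Helper96.AF Pool.Agent.Helper66.LW Pool.Agent.IT

/-! ### the twists -/

theorem gt_eq_prod {T1 T2 : Finset ℕ} {n : ℕ} (hn : n ≠ 0) :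
    gt T1 T2 n = n.factorization.prod fun p k => ((sg T1 p : ℂ) * (if p ∈ T2 then Complex.I else 1)) ^ k := by
  unfold gt
  rw [if_neg hn]
  rfl

theorem gt_one (T1 T2 : Finset ℕ) : gt T1 T2 1 = 1 := by
  rw [gt_eq_prod one_ne_zero]
  simp

theorem gt_mul (T1 T2 : Finset ℕ) (m n : ℕ) : gt T1 T2 (m * n) = gt T1 T2 m * gt T1 T2 n := by
  rcases eq_or_ne m 0 with hm | hm
  · simp [gt, hm]
  rcases eq_or_ne n 0 with hn | hn
  · simp [gt, hn]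
  rw [gt_eq_prod (mul_ne_zero hm hn), gt_eq_prod hm, gt_eq_prod hn, Nat.factorization_mul hm hn,
    Finsupp.prod_add_index' (fun p => pow_zero _) (fun p k l => pow_add _ _ _)]

theorem gt_norm (T1 T2 : Finset ℕ) {n : ℕ} (hn : 1 ≤ n) : ‖gt T1 T2 n‖ = 1 := by
  unfold gt
  rw [if_neg (by omega), norm_prod]
  refine prod_eq_one fun p _ => ?_
  rw [norm_pow, norm_mul, Complex.norm_real, Real.norm_eq_abs, abs_sg, one_mul]
  split_ifs <;> simp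

theorem gt_cmu (T1 T2 : Finset ℕ) : CMU (gt T1 T2) := ⟨gt_one T1 T2, gt_mul T1 T2, fun _ hn => gt_norm T1 T2 hn⟩

theorem gt_prime (T1 : Finset ℕ) {p : ℕ} (hp : p.Prime) : gt T1 ∅ p = (sg T1 p : ℂ) := by
  unfold gt
  rw [if_neg hp.ne_zero, hp.primeFactors]
  simp [hp.factorization_self]

theorem CF.twist {Ω : Type} [MeasurableSpace Ω] {P : Measure Ω} {χ : Ω → ℕ → ℂ} {Z : ℕ} (h : CF P χ Z) {g : ℕ → ℂ} (hg : CMU g) :
    CF P (fun ω n => χ ω n * g n) Z where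
  prob := h.prob
  meas := fun n => (h.meas n).mul_const _
  one := fun ω => by rw [h.one, hg.one, mul_one]
  mul := fun ω m n => by rw [h.mul, hg.mul]; ring
  norm := fun ω n h1 h2 => by rw [norm_mul, hg.norm n h1, mul_one]; exact h.norm ω n h1 h2

/-- correlations of the twisted family -/
theorem Fam.corr {Ω : Type} [MeasurableSpace Ω] {P : Measure Ω} {χ : Ω → ℕ → ℂ} {Z : ℕ} {Tw : Set (Finset ℕ)} (h : Fam P χ Z Tw)
    (T1 T2 : Finset ℕ) (hT : T2 ∈ Tw) (m n : ℕ) (hm : 1 ≤ m) (hm2 : m ≤ Z) (hn : 1 ≤ n) (hn2 : n ≤ Z) :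
    ‖(∫ ω, χ ω m * (starRingEnd ℂ) (χ ω n) ∂P) -
      ∫ ω, (χ ω m * gt T1 T2 m) * (starRingEnd ℂ) (χ ω n * gt T1 T2 n) ∂P‖ ≤ 2 / (Z : ℝ) := by
  have e1 : ∫ ω, (χ ω m * gt T1 T2 m) * (starRingEnd ℂ) (χ ω n * gt T1 T2 n) ∂P =
      (∫ ω, χ ω m * (starRingEnd ℂ) (χ ω n) ∂P) * (gt T1 T2 m * (starRingEnd ℂ) (gt T1 T2 n)) := by
    rw [← integral_mul_const]
    refine integral_congr_ae (ae_of_all _ fun ω => ?_)
    beta_reduce
    rw [map_mul]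
    ring
  rw [e1, norm_sub_rev]
  refine le_trans (le_of_eq ?_) (h.tw T1 T2 hT m n hm hm2 hn hn2)
  congr 1
  ring

/-! ### linear forms -/

/-- the coefficients of a linear form -/
noncomputable def AA (r : ℕ) (α ξ : ℕ → ℂ) (m : ℕ) : ℂ :=
  ∑ j ∈ range (NG r), (starRingEnd ℂ) (ξ j) * (α m * (m : ℂ) ^ (-(((1 / 2 + sr r : ℝ) : ℂ) + Complex.I * (tj r j : ℂ))))

theorem LF_eq (r : ℕ) (α ξ g : ℕ → ℂ) : LF r α ξ g = (∑ m ∈ Icc 1 (Y (r + 1)), AA r α ξ m * g m).re := by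
  unfold LF AA PS
  rw [← Complex.re_sum]
  congr 1
  simp_rw [mul_sum, sum_mul]
  rw [sum_comm]
  refine sum_congr rfl fun m _ => sum_congr rfl fun j _ => ?_
  ring

variable {a α : ℕ → ℂ}

theorem al_le_one (hL : LogC a α) (n : ℕ) : ‖α n‖ ≤ 1 := by
  rcases Nat.lt_or_ge n 2 with hn | hn
  · interval_cases n
    · rw [hL.al0]; simp
    · rw [hL.al1]; simp
  · have h1 := (hL.al_le n).trans ArithmeticFunction.vonMangoldt_le_log
    have h2 : 0 < Real.log n := Real.log_pos (by exact_mod_cast (by omega : 1 < n))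
    exact le_of_mul_le_mul_right (by linarith) h2

theorem al_zero (hL : LogC a α) {n : ℕ} (hn : ¬ IsPrimePow n) : α n = 0 := by
  rcases Nat.lt_or_ge n 2 with h2 | h2
  · interval_cases n
    · exact hL.al0
    · exact hL.al1
  · have h1 := hL.al_le n
    rw [ArithmeticFunction.vonMangoldt_eq_zero_iff.2 hn] at h1
    have h3 : 0 < Real.log n := Real.log_pos (by exact_mod_cast (by omega : 1 < n))
    have h4 : ‖α n‖ ≤ 0 := by
      by_contra hc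
      push Not at hc
      nlinarith
    exact norm_le_zero_iff.1 h4

theorem AA_le (hL : LogC a α) {r : ℕ} (hr : 2 ≤ r) {ξ : ℕ → ℂ} (hξ : ∀ j, ‖ξ j‖ ≤ 2 ^ (40 * r)) {m : ℕ} (hm : 1 ≤ m) :
    ‖AA r α ξ m‖ ≤ 2 ^ (60 * r) * (‖α m‖ / Real.sqrt m) := by
  have hm0 : (0 : ℝ) < m := by exact_mod_cast hm
  have hm1 : (1 : ℝ) ≤ m := by exact_mod_cast hm
  have hs := sr_pos hr
  unfold AA
  refine (norm_sum_le _ _).trans ?_
  have h1 : ∀ j ∈ range (NG r), ‖(starRingEnd ℂ) (ξ j) * (α m * (m : ℂ) ^ (-(((1 / 2 + sr r : ℝ) : ℂ) + Complex.I * (tj r j : ℂ))))‖ ≤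
      2 ^ (40 * r) * (‖α m‖ / Real.sqrt m) := by
    intro j _
    rw [norm_mul, norm_mul, RCLike.norm_conj, Complex.norm_natCast_cpow_of_pos (by omega)]
    have h2 : (-(((1 / 2 + sr r : ℝ) : ℂ) + Complex.I * (tj r j : ℂ))).re = -(1 / 2 + sr r) := by
      simp
    rw [h2, div_eq_mul_inv]
    refine mul_le_mul (hξ j) ?_ (by positivity) (by positivity)
    refine mul_le_mul_of_nonneg_left ?_ (norm_nonneg _)
    rw [Real.rpow_neg hm0.le]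
    apply inv_anti₀ (Real.sqrt_pos.2 hm0)
    rw [Real.sqrt_eq_rpow]
    exact Real.rpow_le_rpow_of_exponent_le hm1 (by linarith)
  refine (sum_le_sum h1).trans (le_of_eq ?_)
  rw [sum_const, card_range, nsmul_eq_mul]
  unfold NG
  push_cast
  rw [← mul_assoc, ← pow_add]
  congr 2
  ring

/-- the bound `S0` for the sum of the coefficients -/
theorem AA_sum (hL : LogC a α) {r : ℕ} (hr : 2 ≤ r) {ξ : ℕ → ℂ} (hξ : ∀ j, ‖ξ j‖ ≤ 2 ^ (40 * r)) :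
    ∑ m ∈ Icc 1 (Y (r + 1)), ‖AA r α ξ m‖ ≤ 2 ^ (60 * r) * (Y (r + 1) : ℝ) := by
  have h1 : ∀ m ∈ Icc 1 (Y (r + 1)), ‖AA r α ξ m‖ ≤ 2 ^ (60 * r) := by
    intro m hm
    rw [mem_Icc] at hm
    refine (AA_le hL hr hξ hm.1).trans ?_
    have h2 : ‖α m‖ / Real.sqrt m ≤ 1 := by
      rw [div_le_one (Real.sqrt_pos.2 (by exact_mod_cast hm.1))]
      refine (al_le_one hL m).trans ?_
      rw [Real.one_le_sqrt]
      exact_mod_cast hm.1
    calc 2 ^ (60 * r) * (‖α m‖ / Real.sqrt m) ≤ 2 ^ (60 * r) * 1 := mul_le_mul_of_nonneg_left h2 (by positivity)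
      _ = _ := mul_one _
  refine (sum_le_sum h1).trans (le_of_eq ?_)
  rw [sum_const, Nat.card_Icc, nsmul_eq_mul, Nat.add_sub_cancel]
  ring

/-! ### numbers -/

private theorem two_pow_le {r : ℕ} (hr : 1 ≤ r) :
    (122 * r + 3) + (60 * r + 2 ^ (r + 1)) * 2 ^ (122 * r + 1) + 2 ^ (123 * r) ≤ 2 ^ (150 * r) := by
  have h0 : r < 2 ^ r := Nat.lt_two_pow_self
  have h1 : 122 * r + 3 ≤ 2 ^ (123 * r + 7) := by
    calc 122 * r + 3 ≤ 2 ^ 7 * 2 ^ r := by omega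
      _ = 2 ^ (r + 7) := by rw [← pow_add]; congr 1; ring
      _ ≤ 2 ^ (123 * r + 7) := Nat.pow_le_pow_right (by norm_num) (by omega)
  have h2 : (60 * r + 2 ^ (r + 1)) * 2 ^ (122 * r + 1) ≤ 2 ^ (123 * r + 7) := by
    calc (60 * r + 2 ^ (r + 1)) * 2 ^ (122 * r + 1) ≤ (2 ^ 6 * 2 ^ r) * 2 ^ (122 * r + 1) := by
          apply Nat.mul_le_mul_right
          rw [pow_succ]
          omega
      _ = 2 ^ (123 * r + 7) := by
          rw [← pow_add, ← pow_add]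
          congr 1
          ring
  have h3 : 2 ^ (123 * r) ≤ 2 ^ (123 * r + 7) := Nat.pow_le_pow_right (by norm_num) (by omega)
  have h4 : 4 * 2 ^ (123 * r + 7) ≤ 2 ^ (150 * r) := by
    calc 4 * 2 ^ (123 * r + 7) = 2 ^ (123 * r + 9) := by
          rw [show (4 : ℕ) = 2 ^ 2 by norm_num, ← pow_add]
          congr 1
          ring
      _ ≤ 2 ^ (150 * r) := Nat.pow_le_pow_right (by norm_num) (by omega)
  omega

/-- the numbers: the error from the correlations is tiny -/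
theorem num1 {r : ℕ} (hr : 1 ≤ r) : (2 * (2 : ℝ) ^ (122 * r) + 1) * (2 / (Y (150 * r) : ℝ) * (2 ^ (60 * r) * (Y (r + 1) : ℝ)) ^ (2 * 2 ^ (122 * r))) ≤
    1 / (2 : ℝ) ^ (2 ^ (123 * r)) := by
  have hY : (Y (150 * r) : ℝ) = 2 ^ (2 ^ (150 * r)) := by unfold Y; push_cast; rfl
  have hY2 : (Y (r + 1) : ℝ) = 2 ^ (2 ^ (r + 1)) := by unfold Y; push_cast; rfl
  rw [hY, hY2, ← pow_add, ← pow_mul, le_div_iff₀ (by positivity)]
  have h1 : 2 * (2 : ℝ) ^ (122 * r) + 1 ≤ 2 ^ (122 * r + 2) := by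
    rw [pow_add]
    have : (1 : ℝ) ≤ 2 ^ (122 * r) := one_le_pow₀ (by norm_num)
    linarith
  calc (2 * (2 : ℝ) ^ (122 * r) + 1) * (2 / 2 ^ (2 ^ (150 * r)) * 2 ^ ((60 * r + 2 ^ (r + 1)) * (2 * 2 ^ (122 * r)))) * 2 ^ (2 ^ (123 * r)) ≤
        2 ^ (122 * r + 2) * (2 / 2 ^ (2 ^ (150 * r)) * 2 ^ ((60 * r + 2 ^ (r + 1)) * (2 * 2 ^ (122 * r)))) * 2 ^ (2 ^ (123 * r)) := by
        gcongr
    _ = 2 ^ ((122 * r + 3) + (60 * r + 2 ^ (r + 1)) * 2 ^ (122 * r + 1) + 2 ^ (123 * r)) / 2 ^ (2 ^ (150 * r)) := by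
        rw [show 2 * 2 ^ (122 * r) = 2 ^ (122 * r + 1) by rw [pow_succ]; ring]
        generalize (60 * r + 2 ^ (r + 1)) * 2 ^ (122 * r + 1) = A
        generalize (2 : ℕ) ^ (123 * r) = B
        generalize (2 : ℕ) ^ (150 * r) = C
        rw [show 122 * r + 3 + A + B = (122 * r + 2) + 1 + A + B by ring, pow_add _ _ B, pow_add _ _ A, pow_succ]
        ring
    _ ≤ 1 := by
        rw [div_le_one (by positivity)]
        exact pow_le_pow_right₀ (by norm_num) (two_pow_le hr)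

theorem num2 {r : ℕ} (hr : 1 ≤ r) : 1 / (2 : ℝ) ^ (2 ^ (123 * r)) ≤ 1 / 2 * Real.exp (-(2 : ℝ) ^ (122 * r)) := by
  have h1 : (2 : ℝ) ^ (2 ^ (123 * r)) = Real.exp ((2 : ℝ) ^ (123 * r) * Real.log 2) := by
    rw [← Real.rpow_natCast, Real.rpow_def_of_pos (by norm_num)]
    push_cast
    rw [mul_comm]
  have hlog := Real.log_two_gt_d9
  have h2 : (1 : ℝ) / 2 = Real.exp (-Real.log 2) := by rw [Real.exp_neg, Real.exp_log (by norm_num)]; norm_num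
  rw [h1, one_div, ← Real.exp_neg, h2, ← Real.exp_add]
  apply Real.exp_le_exp.2
  have h3 : (2 : ℝ) ^ (123 * r) = 2 ^ (122 * r) * 2 ^ r := by rw [← pow_add]; congr 1; ring
  have h4 : (2 : ℝ) ≤ 2 ^ r := by
    calc (2 : ℝ) = 2 ^ 1 := by norm_num
      _ ≤ 2 ^ r := pow_le_pow_right₀ (by norm_num) hr
  have h5 : (4 : ℝ) ≤ 2 ^ (122 * r) := by
    calc (4 : ℝ) = 2 ^ 2 := by norm_num
      _ ≤ 2 ^ (122 * r) := pow_le_pow_right₀ (by norm_num) (by omega)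
  have hl2 := Real.log_two_lt_d9
  rw [h3]
  have h6 : (2 : ℝ) ^ (122 * r) * 2 ≤ 2 ^ (122 * r) * 2 ^ r := mul_le_mul_of_nonneg_left h4 (by positivity)
  nlinarith

theorem numY {r : ℕ} (hr : 1 ≤ r) : Y (r + 1) ^ (2 * 2 ^ (122 * r)) ≤ Y (150 * r) := by
  unfold Y
  rw [← pow_mul]
  apply Nat.pow_le_pow_right (by norm_num)
  have := two_pow_le hr
  have h1 : 2 ^ (r + 1) * (2 * 2 ^ (122 * r)) ≤ (60 * r + 2 ^ (r + 1)) * 2 ^ (122 * r + 1) := by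
    rw [show 2 * 2 ^ (122 * r) = 2 ^ (122 * r + 1) by rw [pow_succ]; ring]
    exact Nat.mul_le_mul_right _ (by omega)
  exact h1.trans ((Nat.le_add_left _ _).trans ((Nat.le_add_right _ _).trans this))

/-- two families with close correlations, a moment bound for the second -/
theorem chf2 {Ω : Type} [MeasurableSpace Ω] {P : Measure Ω} {χ : Ω → ℕ → ℂ} {Ω' : Type} [MeasurableSpace Ω'] {P' : Measure Ω'}
    {χ' : Ω' → ℕ → ℂ} (hL : LogC a α) {r : ℕ} (hr : 2 ≤ r) (h : CF P χ (Y (150 * r))) (h' : CF P' χ' (Y (150 * r)))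
    (hc : ∀ m n : ℕ, 1 ≤ m → m ≤ Y (150 * r) → 1 ≤ n → n ≤ Y (150 * r) → ‖(∫ ω, χ ω m * (starRingEnd ℂ) (χ ω n) ∂P) -
      ∫ ω, χ' ω m * (starRingEnd ℂ) (χ' ω n) ∂P'‖ ≤ 2 / (Y (150 * r) : ℝ))
    {ξ : ℕ → ℂ} (hξ : ∀ j, ‖ξ j‖ ≤ 2 ^ (40 * r))
    (hm : ∫ ω, LF r α ξ (χ' ω) ^ (2 * 2 ^ (122 * r)) ∂P' ≤ ((2 * 2 ^ (122 * r)).factorial : ℝ) * Real.exp (-(2 : ℝ) ^ (122 * r))) :
    ‖(∫ ω, Complex.exp (Complex.I * (LF r α ξ (χ ω) : ℂ)) ∂P) - ∫ ω, Complex.exp (Complex.I * (LF r α ξ (χ' ω) : ℂ)) ∂P'‖ ≤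
      Real.exp (-((2 : ℝ) ^ (22 * r))) := by
  have hY1 : 1 ≤ Y (r + 1) := by unfold Y; exact Nat.one_le_two_pow
  have hS1 : (1 : ℝ) ≤ 2 ^ (60 * r) * (Y (r + 1) : ℝ) :=
    one_le_mul_of_one_le_of_one_le (one_le_pow₀ (by norm_num)) (by exact_mod_cast hY1)
  have h1 := chf_gen h h' (e := 2 / (Y (150 * r) : ℝ)) (by positivity) hc (AA r α ξ) hY1 (M := 2 ^ (122 * r)) Nat.one_le_two_pow
    (numY (by omega)) hS1 (AA_sum hL hr hξ)
  have e1 : ∀ g : ℕ → ℂ, (∑ m ∈ Icc 1 (Y (r + 1)), AA r α ξ m * g m).re = LF r α ξ g := fun g => (LF_eq r α ξ g).symm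
  simp only [e1] at h1
  refine h1.trans ?_
  have h2 := num1 (r := r) (by omega)
  have h3 := num2 (r := r) (by omega)
  push_cast at h1 ⊢
  have hf : (0 : ℝ) < ((2 * 2 ^ (122 * r)).factorial : ℝ) := by exact_mod_cast Nat.factorial_pos _
  have h4 : 2 * (∫ ω, LF r α ξ (χ' ω) ^ (2 * 2 ^ (122 * r)) ∂P') / ((2 * 2 ^ (122 * r)).factorial : ℝ) ≤ 2 * Real.exp (-(2 : ℝ) ^ (122 * r)) := by
    rw [div_le_iff₀ hf]
    nlinarith [hm]
  have h5 : Real.exp (-(2 : ℝ) ^ (122 * r)) ≤ 1 / 4 * Real.exp (-((2 : ℝ) ^ (22 * r))) := by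
    have e2 : (1 : ℝ) / 4 = Real.exp (-(2 * Real.log 2)) := by
      rw [Real.exp_neg, show 2 * Real.log 2 = Real.log 2 + Real.log 2 by ring, Real.exp_add, Real.exp_log (by norm_num)]
      norm_num
    rw [e2, ← Real.exp_add]
    apply Real.exp_le_exp.2
    have h6 : (2 : ℝ) ^ (122 * r) = 2 ^ (22 * r) * 2 ^ (100 * r) := by rw [← pow_add]; congr 1; ring
    have h7 : (4 : ℝ) ≤ 2 ^ (100 * r) := by
      calc (4 : ℝ) = 2 ^ 2 := by norm_num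
        _ ≤ 2 ^ (100 * r) := pow_le_pow_right₀ (by norm_num) (by omega)
    have h8 : (1 : ℝ) ≤ 2 ^ (22 * r) := one_le_pow₀ (by norm_num)
    have hl2 := Real.log_two_lt_d9
    rw [h6]
    nlinarith
  have h9 := Real.exp_pos (-((2 : ℝ) ^ (22 * r)))
  linarith

end Pool.Agent.DR
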