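import Pool.Agent.Helper5.DR.CHF

/-!
# Project DR (MP_a499ba_nt), block CHF, third part: the moment bound for families (signs), `StmtCHF`
-/

set_option autoImplicit false

namespace Pool.Agent.DR

open Finset MeasureTheory Filter Topology Pool.Agent.Helper5.RM Pool.Agent.Helper96.AF Pool.Agent.Helper66.LW Pool.Agent.IT

variable {a α : ℕ → ℂ}

theorem harm5 (r : ℕ) : ∑ n ∈ Icc 1 (Y (r + 1)), (1 : ℝ) / n ≤ 1 + 2 ^ (r + 1) := by
  have h1 : (harmonic (Y (r + 1)) : ℝ) ≤ 1 + Real.log (Y (r + 1)) := harmonic_le_one_add_log _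
  have h2 : (harmonic (Y (r + 1)) : ℝ) = ∑ n ∈ Icc 1 (Y (r + 1)), (1 : ℝ) / n := by
    rw [harmonic_eq_sum_Icc]
    push_cast
    exact sum_congr rfl fun n _ => (one_div _).symm
  have h3 : Real.log (Y (r + 1)) ≤ 2 ^ (r + 1) := by
    unfold Y
    push_cast
    rw [← Real.rpow_natCast, Real.log_rpow (by norm_num)]
    have := Real.log_two_lt_d9
    push_cast
    have h4 : (0 : ℝ) < 2 ^ (r + 1) := by positivity
    nlinarith
  linarith

/-- the prime powers which are not primes -/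
theorem np5 (hL : LogC a α) (r : ℕ) : ∑ m ∈ (Icc 1 (Y (r + 1))).filter (fun m => ¬ m.Prime), ‖α m‖ / Real.sqrt m ≤ 2 ^ (2 * r + 3) := by
  classical
  set S := ((Icc 1 (Y (r + 1))).filter fun m => ¬ m.Prime).filter IsPrimePow with hS
  have h1 : ∑ m ∈ (Icc 1 (Y (r + 1))).filter (fun m => ¬ m.Prime), ‖α m‖ / Real.sqrt m = ∑ m ∈ S, ‖α m‖ / Real.sqrt m := by
    rw [hS]
    symm
    apply sum_filter_of_ne
    intro m _ hne
    by_contra hpp
    apply hne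
    rw [al_zero hL hpp, norm_zero, zero_div]
  rw [h1]
  set φ : ℕ → ℕ × ℕ := fun m => (m.minFac, m.factorization m.minFac) with hφ
  have hmem : ∀ m ∈ S, 1 ≤ m ∧ m ≤ Y (r + 1) ∧ m.minFac ^ m.factorization m.minFac = m ∧ 2 ≤ m.minFac ∧ 2 ≤ m.factorization m.minFac := by
    intro m hm
    rw [hS, mem_filter, mem_filter, mem_Icc] at hm
    obtain ⟨⟨⟨h1, h2⟩, h3⟩, h4⟩ := hm
    have h5 := h4.minFac_pow_factorization_eq
    have h6 : m ≠ 1 := h4.ne_one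
    have h7 := Nat.minFac_prime h6
    refine ⟨h1, h2, h5, h7.two_le, ?_⟩
    by_contra hlt
    push Not at hlt
    interval_cases hk : m.factorization m.minFac
    · rw [pow_zero] at h5
      exact h6 h5.symm
    · rw [pow_one] at h5
      rw [← h5] at h3
      exact h3 h7
  have hinj : Set.InjOn φ S := by
    intro m hm n hn h
    rw [hφ, Prod.mk.injEq] at h
    have e := (hmem m hm).2.2.1
    rw [h.2, h.1] at e
    exact e.symm.trans (hmem n hn).2.2.1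
  have hle : ∀ m ∈ S, ‖α m‖ / Real.sqrt m ≤ 1 / ((φ m).1 : ℝ) := by
    intro m hm
    obtain ⟨h1, h2, h3, h4, h5⟩ := hmem m hm
    have h6 : ((m.minFac : ℕ) : ℝ) ≤ Real.sqrt m := by
      apply Real.le_sqrt_of_sq_le
      have h7 : m.minFac ^ 2 ≤ m := by
        calc m.minFac ^ 2 ≤ m.minFac ^ m.factorization m.minFac := Nat.pow_le_pow_right (by omega) h5
          _ = m := h3
      exact_mod_cast h7
    have h8 : (0 : ℝ) < ((m.minFac : ℕ) : ℝ) := by exact_mod_cast (by omega : 0 < m.minFac)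
    exact div_le_div₀ (by norm_num) (al_le_one hL m) h8 h6
  calc ∑ m ∈ S, ‖α m‖ / Real.sqrt m ≤ ∑ m ∈ S, 1 / ((φ m).1 : ℝ) := sum_le_sum hle
    _ = ∑ q ∈ S.image φ, 1 / (q.1 : ℝ) := (sum_image (f := fun q : ℕ × ℕ => 1 / (q.1 : ℝ)) hinj).symm
    _ ≤ ∑ q ∈ Icc 1 (Y (r + 1)) ×ˢ Icc 1 (2 ^ (r + 1)), 1 / (q.1 : ℝ) := by
        apply sum_le_sum_of_subset_of_nonneg
        · intro q hq
          obtain ⟨m, hm, rfl⟩ := mem_image.1 hq
          obtain ⟨h1, h2, h3, h4, h5⟩ := hmem m hm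
          rw [mem_product, mem_Icc, mem_Icc]
          refine ⟨⟨by show 1 ≤ m.minFac; omega, (Nat.minFac_le (by omega)).trans h2⟩, by show 1 ≤ m.factorization m.minFac; omega, ?_⟩
          show m.factorization m.minFac ≤ 2 ^ (r + 1)
          have h6 : 2 ^ m.factorization m.minFac ≤ 2 ^ 2 ^ (r + 1) := by
            calc 2 ^ m.factorization m.minFac ≤ m.minFac ^ m.factorization m.minFac := Nat.pow_le_pow_left h4 _
              _ = m := h3
              _ ≤ 2 ^ 2 ^ (r + 1) := h2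
          exact (Nat.pow_le_pow_iff_right (by norm_num)).1 h6
        · intro q _ _
          positivity
    _ = ∑ n ∈ Icc 1 (Y (r + 1)), ∑ _k ∈ Icc 1 (2 ^ (r + 1)), 1 / (n : ℝ) := by rw [sum_product]
    _ = 2 ^ (r + 1) * ∑ n ∈ Icc 1 (Y (r + 1)), (1 : ℝ) / n := by
        rw [mul_sum]
        refine sum_congr rfl fun n _ => ?_
        rw [sum_const, Nat.card_Icc, Nat.add_sub_cancel, nsmul_eq_mul]
        push_cast
        ring
    _ ≤ 2 ^ (r + 1) * (1 + 2 ^ (r + 1)) := mul_le_mul_of_nonneg_left (harm5 r) (by positivity)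
    _ ≤ 2 ^ (2 * r + 3) := by
        have h1 : (1 : ℝ) ≤ 2 ^ (r + 1) := one_le_pow₀ (by norm_num)
        calc (2 : ℝ) ^ (r + 1) * (1 + 2 ^ (r + 1)) ≤ 2 ^ (r + 1) * (2 * 2 ^ (r + 1)) := by gcongr; linarith
          _ = 2 ^ (2 * r + 3) := by ring

/-- the signs: moments for a fixed completely multiplicative function, averaged over the signs -/
theorem khin (hL : LogC a α) {r : ℕ} (hr : 8 ≤ r) {ξ : ℕ → ℂ} (hξ : ∀ j, ‖ξ j‖ ≤ 2 ^ (40 * r)) {g0 : ℕ → ℂ}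
    (hg : ∀ m, 1 ≤ m → m ≤ Y (r + 1) → ‖g0 m‖ ≤ 1) :
    av (PP (Y (r + 1))) (fun T1 => LF r α ξ (fun n => g0 n * gt T1 ∅ n) ^ (2 * 2 ^ (122 * r))) ≤
      ((2 * 2 ^ (122 * r)).factorial : ℝ) * (1 / 2 * Real.exp (-(2 : ℝ) ^ (122 * r))) := by
  classical
  set M : ℕ := 2 ^ (122 * r) with hM
  set B1 : ℝ := ∑ m ∈ (Icc 1 (Y (r + 1))).filter (fun m => ¬ m.Prime), ‖AA r α ξ m‖ with hB1
  set x : ℕ → ℝ := fun p => (AA r α ξ p * g0 p).re with hx
  have hB1le : B1 ≤ 2 ^ (62 * r + 3) := by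
    calc B1 ≤ ∑ m ∈ (Icc 1 (Y (r + 1))).filter (fun m => ¬ m.Prime), 2 ^ (60 * r) * (‖α m‖ / Real.sqrt m) := by
          refine sum_le_sum fun m hm => AA_le hL (by omega) hξ ?_
          rw [mem_filter, mem_Icc] at hm
          exact hm.1.1
      _ = 2 ^ (60 * r) * ∑ m ∈ (Icc 1 (Y (r + 1))).filter (fun m => ¬ m.Prime), ‖α m‖ / Real.sqrt m := by rw [mul_sum]
      _ ≤ 2 ^ (60 * r) * 2 ^ (2 * r + 3) := mul_le_mul_of_nonneg_left (np5 hL r) (by positivity)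
      _ = 2 ^ (62 * r + 3) := by rw [← pow_add]; congr 1; ring
  have hV : ∑ p ∈ PP (Y (r + 1)), x p ^ 2 ≤ 2 ^ (121 * r + 2) := by
    calc ∑ p ∈ PP (Y (r + 1)), x p ^ 2 ≤ ∑ p ∈ PP (Y (r + 1)), 2 ^ (120 * r) * (1 / (p : ℝ)) := by
          refine sum_le_sum fun p hp => ?_
          obtain ⟨hp1, hp2⟩ := mem_PP.1 hp
          have hp0 : (0 : ℝ) < p := by exact_mod_cast hp1.pos
          have h1 : |x p| ≤ 2 ^ (60 * r) * (1 / Real.sqrt p) := by
            refine (Complex.abs_re_le_norm _).trans ?_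
            rw [norm_mul]
            calc ‖AA r α ξ p‖ * ‖g0 p‖ ≤ ‖AA r α ξ p‖ * 1 := mul_le_mul_of_nonneg_left (hg p hp1.one_le hp2) (norm_nonneg _)
              _ = ‖AA r α ξ p‖ := mul_one _
              _ ≤ 2 ^ (60 * r) * (‖α p‖ / Real.sqrt p) := AA_le hL (by omega) hξ hp1.one_le
              _ ≤ 2 ^ (60 * r) * (1 / Real.sqrt p) := by
                  refine mul_le_mul_of_nonneg_left ?_ (by positivity)
                  exact div_le_div_of_nonneg_right (al_le_one hL p) (Real.sqrt_nonneg _)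
          calc x p ^ 2 = |x p| ^ 2 := (sq_abs _).symm
            _ ≤ (2 ^ (60 * r) * (1 / Real.sqrt p)) ^ 2 := pow_le_pow_left₀ (abs_nonneg _) h1 2
            _ = 2 ^ (120 * r) * (1 / (p : ℝ)) := by
                rw [mul_pow, div_pow, Real.sq_sqrt hp0.le, ← pow_mul]
                congr 2
                ring
                norm_num
      _ = 2 ^ (120 * r) * ∑ p ∈ PP (Y (r + 1)), 1 / (p : ℝ) := by rw [mul_sum]
      _ ≤ 2 ^ (120 * r) * ∑ n ∈ Icc 1 (Y (r + 1)), (1 : ℝ) / n := by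
          refine mul_le_mul_of_nonneg_left ?_ (by positivity)
          apply sum_le_sum_of_subset_of_nonneg
          · unfold PP
            exact filter_subset _ _
          · intro n _ _
            positivity
      _ ≤ 2 ^ (120 * r) * (1 + 2 ^ (r + 1)) := mul_le_mul_of_nonneg_left (harm5 r) (by positivity)
      _ ≤ 2 ^ (121 * r + 2) := by
          have h1 : (1 : ℝ) ≤ 2 ^ (r + 1) := one_le_pow₀ (by norm_num)
          calc (2 : ℝ) ^ (120 * r) * (1 + 2 ^ (r + 1)) ≤ 2 ^ (120 * r) * (2 * 2 ^ (r + 1)) := by gcongr; linarith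
            _ = 2 ^ (121 * r + 2) := by ring
  -- the decomposition
  have hdec : ∀ T1 : Finset ℕ, ∃ y : ℝ, |y| ≤ B1 ∧ LF r α ξ (fun n => g0 n * gt T1 ∅ n) = ∑ p ∈ PP (Y (r + 1)), sg T1 p * x p + y := by
    intro T1
    refine ⟨(∑ m ∈ (Icc 1 (Y (r + 1))).filter (fun m => ¬ m.Prime), AA r α ξ m * (g0 m * gt T1 ∅ m)).re, ?_, ?_⟩
    · refine (Complex.abs_re_le_norm _).trans ((norm_sum_le _ _).trans (sum_le_sum fun m hm => ?_))
      rw [mem_filter, mem_Icc] at hm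
      rw [norm_mul, norm_mul, gt_norm _ _ hm.1.1, mul_one]
      calc ‖AA r α ξ m‖ * ‖g0 m‖ ≤ ‖AA r α ξ m‖ * 1 := mul_le_mul_of_nonneg_left (hg m hm.1.1 hm.1.2) (norm_nonneg _)
        _ = _ := mul_one _
    · rw [LF_eq, ← sum_filter_add_sum_filter_not (Icc 1 (Y (r + 1))) Nat.Prime, Complex.add_re]
      congr 1
      rw [Complex.re_sum]
      refine sum_congr rfl fun p hp => ?_
      have hp1 : p.Prime := (mem_filter.1 hp).2
      rw [gt_prime T1 hp1, hx, ← mul_assoc, mul_comm (AA r α ξ p * g0 p) (sg T1 p : ℂ), Complex.re_ofReal_mul]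
  -- pointwise bound
  have hf0 : (0 : ℝ) < ((2 * M).factorial : ℝ) := by exact_mod_cast Nat.factorial_pos _
  have hpt : ∀ T1 : Finset ℕ, LF r α ξ (fun n => g0 n * gt T1 ∅ n) ^ (2 * M) ≤ ((2 * M).factorial : ℝ) * ((64 : ℝ) ^ M)⁻¹ * Real.exp (8 * B1) *
      (Real.exp (∑ p ∈ PP (Y (r + 1)), sg T1 p * (8 * x p)) + Real.exp (∑ p ∈ PP (Y (r + 1)), sg T1 p * (-8 * x p))) := by
    intro T1
    obtain ⟨y, hy, he⟩ := hdec T1
    set X := LF r α ξ (fun n => g0 n * gt T1 ∅ n) with hX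
    have h1 := Real.pow_div_factorial_le_exp (x := 8 * |X|) (by positivity) (2 * M)
    rw [div_le_iff₀ hf0] at h1
    have h2 : (8 * |X|) ^ (2 * M) = (64 : ℝ) ^ M * X ^ (2 * M) := by
      rw [mul_pow, pow_mul |X|, sq_abs, ← pow_mul X, pow_mul (8 : ℝ)]
      norm_num
    rw [h2] at h1
    have h3 : Real.exp (8 * |X|) ≤ Real.exp (8 * X) + Real.exp (-8 * X) := by
      rcases abs_cases X with ⟨h, _⟩ | ⟨h, _⟩
      · rw [h]
        have := Real.exp_pos (-8 * X)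
        linarith
      · rw [h, show 8 * -X = -8 * X by ring]
        have := Real.exp_pos (8 * X)
        linarith
    rw [abs_le] at hy
    have h4 : Real.exp (8 * X) ≤ Real.exp (8 * B1) * Real.exp (∑ p ∈ PP (Y (r + 1)), sg T1 p * (8 * x p)) := by
      rw [← Real.exp_add]
      apply Real.exp_le_exp.2
      have h5 : ∑ p ∈ PP (Y (r + 1)), sg T1 p * (8 * x p) = 8 * ∑ p ∈ PP (Y (r + 1)), sg T1 p * x p := by
        rw [mul_sum]
        exact sum_congr rfl fun p _ => by ring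
      rw [h5, he]
      linarith [hy.2]
    have h5 : Real.exp (-8 * X) ≤ Real.exp (8 * B1) * Real.exp (∑ p ∈ PP (Y (r + 1)), sg T1 p * (-8 * x p)) := by
      rw [← Real.exp_add]
      apply Real.exp_le_exp.2
      have h5 : ∑ p ∈ PP (Y (r + 1)), sg T1 p * (-8 * x p) = -8 * ∑ p ∈ PP (Y (r + 1)), sg T1 p * x p := by
        rw [mul_sum]
        exact sum_congr rfl fun p _ => by ring
      rw [h5, he]
      linarith [hy.1]
    have h64 : (0 : ℝ) < (64 : ℝ) ^ M := by positivity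
    have h6 : X ^ (2 * M) ≤ ((64 : ℝ) ^ M)⁻¹ * (Real.exp (8 * |X|) * ((2 * M).factorial : ℝ)) := by
      rw [inv_mul_eq_div, le_div_iff₀ h64]
      linarith
    refine h6.trans ?_
    have h7 : Real.exp (8 * |X|) ≤ Real.exp (8 * B1) * (Real.exp (∑ p ∈ PP (Y (r + 1)), sg T1 p * (8 * x p)) +
        Real.exp (∑ p ∈ PP (Y (r + 1)), sg T1 p * (-8 * x p))) := by
      rw [mul_add]
      linarith
    calc ((64 : ℝ) ^ M)⁻¹ * (Real.exp (8 * |X|) * ((2 * M).factorial : ℝ)) ≤ ((64 : ℝ) ^ M)⁻¹ * ((Real.exp (8 * B1) *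
          (Real.exp (∑ p ∈ PP (Y (r + 1)), sg T1 p * (8 * x p)) + Real.exp (∑ p ∈ PP (Y (r + 1)), sg T1 p * (-8 * x p)))) * ((2 * M).factorial : ℝ)) := by
          gcongr
      _ = _ := by ring
  refine (av_mono fun T1 _ => hpt T1).trans ?_
  rw [av_mul_left, av_add]
  have e1 := av_exp (PP (Y (r + 1))) (fun p => 8 * x p)
  have e2 := av_exp (PP (Y (r + 1))) (fun p => -8 * x p)
  have e3 : (∑ p ∈ PP (Y (r + 1)), (8 * x p) ^ 2) / 2 ≤ (2 : ℝ) ^ (121 * r + 7) := by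
    have : ∑ p ∈ PP (Y (r + 1)), (8 * x p) ^ 2 = 64 * ∑ p ∈ PP (Y (r + 1)), x p ^ 2 := by
      rw [mul_sum]
      exact sum_congr rfl fun p _ => by ring
    rw [this]
    calc 64 * (∑ p ∈ PP (Y (r + 1)), x p ^ 2) / 2 ≤ 64 * 2 ^ (121 * r + 2) / 2 := by gcongr
      _ = 2 ^ (121 * r + 7) := by ring
  have e4 : (∑ p ∈ PP (Y (r + 1)), (-8 * x p) ^ 2) / 2 ≤ (2 : ℝ) ^ (121 * r + 7) := by
    refine le_trans (le_of_eq ?_) e3
    congr 1
    exact sum_congr rfl fun p _ => by ring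
  have e5 : Real.exp ((∑ p ∈ PP (Y (r + 1)), (8 * x p) ^ 2) / 2) ≤ Real.exp ((2 : ℝ) ^ (121 * r + 7)) := Real.exp_le_exp.2 e3
  have e6 : Real.exp ((∑ p ∈ PP (Y (r + 1)), (-8 * x p) ^ 2) / 2) ≤ Real.exp ((2 : ℝ) ^ (121 * r + 7)) := Real.exp_le_exp.2 e4
  have hMr : ((M : ℕ) : ℝ) = 2 ^ (122 * r) := by rw [hM]; push_cast; rfl
  have hbig : (256 : ℝ) ≤ 2 ^ r := by
    calc (256 : ℝ) = 2 ^ 8 := by norm_num
      _ ≤ 2 ^ r := pow_le_pow_right₀ (by norm_num) hr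
  have e7 : (2 : ℝ) ^ (121 * r + 7) ≤ 1 / 2 * 2 ^ (122 * r) := by
    calc (2 : ℝ) ^ (121 * r + 7) = 1 / 2 * (2 ^ (121 * r) * 256) := by ring
      _ ≤ 1 / 2 * (2 ^ (121 * r) * 2 ^ r) := by gcongr
      _ = 1 / 2 * 2 ^ (122 * r) := by rw [← pow_add]; congr 2; ring
  have e8 : 8 * B1 ≤ 1 / 2 * 2 ^ (122 * r) := by
    calc 8 * B1 ≤ 8 * 2 ^ (62 * r + 3) := by linarith
      _ = (2 : ℝ) ^ (62 * r + 6) := by ring
      _ ≤ 2 ^ (121 * r + 7) := pow_le_pow_right₀ (by norm_num) (by omega)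
      _ ≤ _ := e7
  have e9 : ((64 : ℝ) ^ M)⁻¹ ≤ Real.exp (-(4 * 2 ^ (122 * r))) := by
    rw [← hMr, ← Real.rpow_natCast, Real.rpow_def_of_pos (by norm_num), ← Real.exp_neg]
    apply Real.exp_le_exp.2
    have h1 : Real.log 64 = 6 * Real.log 2 := by
      rw [show (64 : ℝ) = 2 ^ 6 by norm_num, Real.log_pow]
      push_cast
      ring
    have h2 := Real.log_two_gt_d9
    have h3 : (0 : ℝ) ≤ M := Nat.cast_nonneg _
    rw [h1]
    nlinarith
  have hM4 : (4 : ℝ) ≤ 2 ^ (122 * r) := by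
    calc (4 : ℝ) = 2 ^ 2 := by norm_num
      _ ≤ 2 ^ (122 * r) := pow_le_pow_right₀ (by norm_num) (by omega)
  have e10 : ((64 : ℝ) ^ M)⁻¹ * Real.exp (8 * B1) * (Real.exp ((2 : ℝ) ^ (121 * r + 7)) + Real.exp ((2 : ℝ) ^ (121 * r + 7))) ≤
      1 / 2 * Real.exp (-(2 : ℝ) ^ (122 * r)) := by
    calc ((64 : ℝ) ^ M)⁻¹ * Real.exp (8 * B1) * (Real.exp ((2 : ℝ) ^ (121 * r + 7)) + Real.exp ((2 : ℝ) ^ (121 * r + 7))) ≤
          Real.exp (-(4 * 2 ^ (122 * r))) * Real.exp (1 / 2 * 2 ^ (122 * r)) * (Real.exp (1 / 2 * 2 ^ (122 * r)) + Real.exp (1 / 2 * 2 ^ (122 * r))) := by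
          gcongr
      _ = 2 * Real.exp (-(3 * 2 ^ (122 * r))) := by
          rw [← two_mul, mul_left_comm, ← Real.exp_add, ← Real.exp_add]
          congr 2
          ring
      _ ≤ 1 / 2 * Real.exp (-(2 : ℝ) ^ (122 * r)) := by
          have h1 : Real.exp (-(3 * 2 ^ (122 * r))) = Real.exp (-(2 * 2 ^ (122 * r))) * Real.exp (-(2 : ℝ) ^ (122 * r)) := by
            rw [← Real.exp_add]
            congr 1
            ring
          have h2 : Real.exp (-(2 * 2 ^ (122 * r))) ≤ 1 / 4 := by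
            rw [Real.exp_neg, ← one_div]
            apply one_div_le_one_div_of_le (by norm_num)
            have := Real.add_one_le_exp (2 * (2 : ℝ) ^ (122 * r))
            linarith
          rw [h1]
          have h3 := Real.exp_pos (-(2 : ℝ) ^ (122 * r))
          nlinarith
  have hc0 : 0 ≤ ((2 * M).factorial : ℝ) * ((64 : ℝ) ^ M)⁻¹ * Real.exp (8 * B1) := by positivity
  calc ((2 * M).factorial : ℝ) * ((64 : ℝ) ^ M)⁻¹ * Real.exp (8 * B1) *
        (av (PP (Y (r + 1))) (fun T1 => Real.exp (∑ p ∈ PP (Y (r + 1)), sg T1 p * (8 * x p))) +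
          av (PP (Y (r + 1))) (fun T1 => Real.exp (∑ p ∈ PP (Y (r + 1)), sg T1 p * (-8 * x p)))) ≤
        ((2 * M).factorial : ℝ) * ((64 : ℝ) ^ M)⁻¹ * Real.exp (8 * B1) *
        (Real.exp ((2 : ℝ) ^ (121 * r + 7)) + Real.exp ((2 : ℝ) ^ (121 * r + 7))) :=
        mul_le_mul_of_nonneg_left (add_le_add (e1.trans e5) (e2.trans e6)) hc0
    _ = ((2 * M).factorial : ℝ) * (((64 : ℝ) ^ M)⁻¹ * Real.exp (8 * B1) *
        (Real.exp ((2 : ℝ) ^ (121 * r + 7)) + Real.exp ((2 : ℝ) ^ (121 * r + 7)))) := by ring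
    _ ≤ _ := mul_le_mul_of_nonneg_left e10 hf0.le

/-- averages and integrals -/
theorem av_int5 {Ω : Type} [MeasurableSpace Ω] {P : Measure Ω} (S : Finset ℕ) {G : Finset ℕ → Ω → ℝ} (hG : ∀ T, Integrable (G T) P) :
    av S (fun T => ∫ ω, G T ω ∂P) = ∫ ω, av S (fun T => G T ω) ∂P := by
  unfold av
  rw [integral_div, integral_finsetSum _ fun T _ => hG T]

/-- the moment bound for a family -/
theorem Fam.mom {Ω : Type} [MeasurableSpace Ω] {P : Measure Ω} {χ : Ω → ℕ → ℂ} {Tw : Set (Finset ℕ)} (hL : LogC a α) {r : ℕ} (hr : 8 ≤ r)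
    (h : Fam P χ (Y (150 * r)) Tw) {ξ : ℕ → ℂ} (hξ : ∀ j, ‖ξ j‖ ≤ 2 ^ (40 * r)) :
    ∫ ω, LF r α ξ (χ ω) ^ (2 * 2 ^ (122 * r)) ∂P ≤ ((2 * 2 ^ (122 * r)).factorial : ℝ) * Real.exp (-(2 : ℝ) ^ (122 * r)) := by
  have hp := h.prob
  have hY1 : 1 ≤ Y (r + 1) := by unfold Y; exact Nat.one_le_two_pow
  have hYZ : Y (r + 1) ≤ Y (150 * r) := Y_mono (by omega)
  have hi : ∀ T1 : Finset ℕ, Integrable (fun ω => LF r α ξ (fun n => χ ω n * gt T1 ∅ n) ^ (2 * 2 ^ (122 * r))) P := by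
    intro T1
    have := (h.cf.twist (gt_cmu T1 ∅)).int_pow (AA r α ξ) hYZ (2 * 2 ^ (122 * r))
    simp only [LF_eq]
    exact this
  have hd : ∀ T1 : Finset ℕ, ∫ ω, LF r α ξ (χ ω) ^ (2 * 2 ^ (122 * r)) ∂P ≤
      (∫ ω, LF r α ξ (fun n => χ ω n * gt T1 ∅ n) ^ (2 * 2 ^ (122 * r)) ∂P) + 1 / 2 * Real.exp (-(2 : ℝ) ^ (122 * r)) := by
    intro T1
    have h1 := mom_diff h.cf (h.cf.twist (gt_cmu T1 ∅)) (e := 2 / (Y (150 * r) : ℝ)) (by positivity)
      (fun m n hm hm2 hn hn2 => h.corr T1 ∅ h.emp m n hm hm2 hn hn2) (AA r α ξ) hY1 (2 * 2 ^ (122 * r)) (numY (by omega))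
    have h2 := (abs_le.1 h1).2
    have e1 : ∀ g : ℕ → ℂ, (∑ m ∈ Icc 1 (Y (r + 1)), AA r α ξ m * g m).re = LF r α ξ g := fun g => (LF_eq r α ξ g).symm
    simp only [e1] at h2
    have h3 : 2 / (Y (150 * r) : ℝ) * (∑ m ∈ Icc 1 (Y (r + 1)), ‖AA r α ξ m‖) ^ (2 * 2 ^ (122 * r)) ≤ 1 / 2 * Real.exp (-(2 : ℝ) ^ (122 * r)) := by
      refine le_trans ?_ (num2 (by omega))
      refine le_trans ?_ (num1 (by omega))
      have h4 : 2 / (Y (150 * r) : ℝ) * (∑ m ∈ Icc 1 (Y (r + 1)), ‖AA r α ξ m‖) ^ (2 * 2 ^ (122 * r)) ≤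
          2 / (Y (150 * r) : ℝ) * (2 ^ (60 * r) * (Y (r + 1) : ℝ)) ^ (2 * 2 ^ (122 * r)) := by
        refine mul_le_mul_of_nonneg_left ?_ (by positivity)
        exact pow_le_pow_left₀ (sum_nonneg fun _ _ => norm_nonneg _) (AA_sum hL (by omega) hξ) _
      refine h4.trans ?_
      have h5 : (1 : ℝ) ≤ 2 * (2 : ℝ) ^ (122 * r) + 1 := by
        have : (0 : ℝ) ≤ 2 * (2 : ℝ) ^ (122 * r) := by positivity
        linarith
      exact le_mul_of_one_le_left (by positivity) h5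
    linarith
  have hav : ∫ ω, LF r α ξ (χ ω) ^ (2 * 2 ^ (122 * r)) ∂P ≤
      av (PP (Y (r + 1))) (fun T1 => ∫ ω, LF r α ξ (fun n => χ ω n * gt T1 ∅ n) ^ (2 * 2 ^ (122 * r)) ∂P) + 1 / 2 * Real.exp (-(2 : ℝ) ^ (122 * r)) := by
    have := av_mono (S := PP (Y (r + 1))) (F := fun _ => ∫ ω, LF r α ξ (χ ω) ^ (2 * 2 ^ (122 * r)) ∂P)
      (G := fun T1 => (∫ ω, LF r α ξ (fun n => χ ω n * gt T1 ∅ n) ^ (2 * 2 ^ (122 * r)) ∂P) + 1 / 2 * Real.exp (-(2 : ℝ) ^ (122 * r)))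
      (fun T1 _ => hd T1)
    rwa [av_const, av_add, av_const] at this
  rw [av_int5 _ hi] at hav
  have hb : ∫ ω, av (PP (Y (r + 1))) (fun T1 => LF r α ξ (fun n => χ ω n * gt T1 ∅ n) ^ (2 * 2 ^ (122 * r))) ∂P ≤
      ((2 * 2 ^ (122 * r)).factorial : ℝ) * (1 / 2 * Real.exp (-(2 : ℝ) ^ (122 * r))) := by
    have h1 : ∫ ω, av (PP (Y (r + 1))) (fun T1 => LF r α ξ (fun n => χ ω n * gt T1 ∅ n) ^ (2 * 2 ^ (122 * r))) ∂P ≤
        ∫ _ω, ((2 * 2 ^ (122 * r)).factorial : ℝ) * (1 / 2 * Real.exp (-(2 : ℝ) ^ (122 * r))) ∂P := by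
      refine integral_mono_of_nonneg (ae_of_all _ fun ω => ?_) (integrable_const _) (ae_of_all _ fun ω => ?_)
      · exact av_nonneg fun T1 _ => by rw [pow_mul]; positivity
      · exact khin hL hr hξ fun m hm hm2 => (h.norm ω m hm (hm2.trans hYZ)).le
    rwa [integral_const, smul_eq_mul, probReal_univ, one_mul] at h1
  have hf1 : (1 : ℝ) ≤ ((2 * 2 ^ (122 * r)).factorial : ℝ) := by
    exact_mod_cast Nat.one_le_iff_ne_zero.2 (Nat.factorial_ne_zero _)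
  have he := Real.exp_pos (-(2 : ℝ) ^ (122 * r))
  nlinarith

/-- block CHF -/
theorem cHF (a α : ℕ → ℂ) : StmtCHF a α := by
  intro hL
  refine ⟨8, fun r hr Ω _ P χ Tw h T1 T2 hT ξ hξ => ?_⟩
  rw [norm_sub_rev]
  refine chf2 hL (by omega) (h.cf.twist (gt_cmu T1 T2)) h.cf (fun m n hm hm2 hn hn2 => ?_) hξ (h.mom hL hr hξ)
  rw [norm_sub_rev]
  exact h.corr T1 T2 hT m n hm hm2 hn hn2

end Pool.Agent.DR
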