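import Pool.Agent.Helper5.DR.CHF3
import Pool.Agent.Helper66.AF.ZM

/-!
# Project DR (MP_a499ba_nt), block SUB: the coordinates are at most `20 r` outside a small set
-/

set_option autoImplicit false

namespace Pool.Agent.DR

open Finset MeasureTheory Filter Topology Pool.Agent.Helper5.RM Pool.Agent.Helper96.AF Pool.Agent.Helper66.LW Pool.Agent.IT

variable {a α : ℕ → ℂ}

/-- Mertens -/
theorem mer5 : ∃ C : ℝ, 0 ≤ C ∧ ∀ r : ℕ, 1 ≤ r → ∑ p ∈ PP (Y (r + 1)), (1 : ℝ) / p ≤ (r + 1) * Real.log 2 + C := by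
  obtain ⟨C, hC, h⟩ := Pool.Agent.Helper66.AF.mertens_upper
  refine ⟨C, hC, fun r hr => ?_⟩
  have h3 : 3 ≤ Y (r + 1) := by
    unfold Y
    calc 3 ≤ 2 ^ 2 ^ 1 := by norm_num
      _ ≤ 2 ^ 2 ^ (r + 1) := Nat.pow_le_pow_right (by norm_num) (Nat.pow_le_pow_right (by norm_num) (by omega))
  refine (h _ h3).trans ?_
  have h4 : Real.log (Y (r + 1)) = 2 ^ (r + 1) * Real.log 2 := by
    unfold Y
    push_cast
    rw [Real.log_pow]
    push_cast
    rfl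
  have h5 : Real.log (Real.log (Y (r + 1))) ≤ (r + 1) * Real.log 2 := by
    have h7 := Real.log_two_gt_d9
    have h8 := Real.log_two_lt_d9
    rw [h4, Real.log_mul (by positivity) (by positivity), Real.log_pow]
    have h6 : Real.log (Real.log 2) ≤ 0 := Real.log_nonpos (by linarith) (by linarith)
    push_cast
    linarith
  linarith

theorem geo5 {p : ℕ} (hp : 2 ≤ p) (K : ℕ) : ∑ k ∈ range K, (1 / Real.sqrt p) ^ k ≤ 7 / 2 := by
  have hp2 : (2 : ℝ) ≤ p := by exact_mod_cast hp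
  have h1 : (7 / 5 : ℝ) ≤ Real.sqrt p := by
    apply Real.le_sqrt_of_sq_le
    norm_num
    linarith
  have h2 : 1 / Real.sqrt p ≤ 5 / 7 := by
    rw [div_le_div_iff₀ (by linarith) (by norm_num)]
    linarith
  have h0 : 0 ≤ 1 / Real.sqrt p := by positivity
  have h3 := mul_neg_geom_sum (1 / Real.sqrt p) K
  have h4 : 0 ≤ (1 / Real.sqrt p) ^ K := by positivity
  have h5 : 0 ≤ ∑ k ∈ range K, (1 / Real.sqrt p) ^ k := sum_nonneg fun _ _ => by positivity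
  nlinarith

/-- the prime powers which are not primes -/
theorem np6 (hL : LogC a α) (r : ℕ) : ∑ m ∈ (Icc 1 (Y (r + 1))).filter (fun m => ¬ m.Prime), ‖α m‖ / Real.sqrt m ≤
    7 / 4 * ∑ p ∈ PP (Y (r + 1)), (1 : ℝ) / p := by
  classical
  set S := ((Icc 1 (Y (r + 1))).filter fun m => ¬ m.Prime).filter IsPrimePow with hS
  have h1 : ∑ m ∈ (Icc 1 (Y (r + 1))).filter (fun m => ¬ m.Prime), ‖α m‖ / Real.sqrt m = ∑ m ∈ S, ‖α m‖ / Real.sqrt m := by
    rw [hS]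
    symm
    apply sum_filter_of_ne
    intro m _ hne
    by_contra hpp
    apply hne
    rw [al_zero hL hpp, norm_zero, zero_div]
  rw [h1]
  set φ : ℕ → ℕ × ℕ := fun m => (m.minFac, m.factorization m.minFac - 2) with hφ
  have hmem : ∀ m ∈ S, 1 ≤ m ∧ m ≤ Y (r + 1) ∧ m.minFac ^ m.factorization m.minFac = m ∧ m.minFac.Prime ∧ 2 ≤ m.factorization m.minFac := by
    intro m hm
    rw [hS, mem_filter, mem_filter, mem_Icc] at hm
    obtain ⟨⟨⟨h1, h2⟩, h3⟩, h4⟩ := hm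
    have h5 := h4.minFac_pow_factorization_eq
    have h6 : m ≠ 1 := h4.ne_one
    have h7 := Nat.minFac_prime h6
    refine ⟨h1, h2, h5, h7, ?_⟩
    by_contra hlt
    push Not at hlt
    interval_cases hk : m.factorization m.minFac
    · rw [pow_zero] at h5
      exact h6 h5.symm
    · rw [pow_one] at h5
      rw [← h5] at h3
      exact h3 h7
  have hinj : Set.InjOn φ S := by
    intro m hm n hn h
    rw [hφ, Prod.mk.injEq] at h
    have hm5 := (hmem m hm).2.2.2.2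
    have hn5 := (hmem n hn).2.2.2.2
    have h2 : m.factorization m.minFac = n.factorization n.minFac := by
      have := h.2
      omega
    have e := (hmem m hm).2.2.1
    rw [h2, h.1] at e
    exact e.symm.trans (hmem n hn).2.2.1
  have hle : ∀ m ∈ S, ‖α m‖ / Real.sqrt m ≤ 1 / 2 * (1 / ((φ m).1 : ℝ)) * (1 / Real.sqrt ((φ m).1 : ℕ)) ^ (φ m).2 := by
    intro m hm
    obtain ⟨h1, h2, h3, h4, h5⟩ := hmem m hm
    show ‖α m‖ / Real.sqrt m ≤ 1 / 2 * (1 / ((m.minFac : ℕ) : ℝ)) * (1 / Real.sqrt ((m.minFac : ℕ) : ℝ)) ^ (m.factorization m.minFac - 2)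
    generalize m.factorization m.minFac = k at h3 h5 ⊢
    generalize m.minFac = p at h3 h4 ⊢
    subst h3
    have hp0 : (0 : ℝ) < p := by exact_mod_cast h4.pos
    have hlog : 0 < Real.log p := Real.log_pos (by exact_mod_cast h4.one_lt)
    have hk2 : (2 : ℝ) ≤ k := by exact_mod_cast h5
    have hal : ‖α (p ^ k)‖ ≤ 1 / 2 := by
      have h6 := hL.al_le (p ^ k)
      rw [ArithmeticFunction.vonMangoldt_apply_pow (by omega), ArithmeticFunction.vonMangoldt_apply_prime h4] at h6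
      push_cast at h6
      rw [Real.log_pow, ← mul_assoc] at h6
      have h7 : ‖α (p ^ k)‖ * k ≤ 1 := le_of_mul_le_mul_right (by linarith) hlog
      have h8 : ‖α (p ^ k)‖ * 2 ≤ ‖α (p ^ k)‖ * k := mul_le_mul_of_nonneg_left hk2 (norm_nonneg _)
      linarith
    have hsq : Real.sqrt ((p ^ k : ℕ) : ℝ) = Real.sqrt p ^ k := by
      push_cast
      have h0 : 0 ≤ Real.sqrt p ^ k := by positivity
      rw [← Real.sqrt_sq h0, ← pow_mul, mul_comm k 2, pow_mul, Real.sq_sqrt hp0.le]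
    have hs0 : 0 < Real.sqrt p := Real.sqrt_pos.2 hp0
    have hx2 : (1 / Real.sqrt p) ^ 2 = 1 / (p : ℝ) := by
      rw [div_pow, one_pow, Real.sq_sqrt hp0.le]
    calc ‖α (p ^ k)‖ / Real.sqrt ((p ^ k : ℕ) : ℝ) ≤ 1 / 2 / Real.sqrt ((p ^ k : ℕ) : ℝ) := div_le_div_of_nonneg_right hal (Real.sqrt_nonneg _)
      _ = 1 / 2 * (1 / Real.sqrt p) ^ k := by rw [hsq, div_pow, one_pow]; ring
      _ = 1 / 2 * (1 / Real.sqrt p) ^ (2 + (k - 2)) := by rw [show 2 + (k - 2) = k by omega]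
      _ = 1 / 2 * (1 / (p : ℝ)) * (1 / Real.sqrt p) ^ (k - 2) := by rw [pow_add, hx2]; ring
  calc ∑ m ∈ S, ‖α m‖ / Real.sqrt m ≤ ∑ m ∈ S, 1 / 2 * (1 / ((φ m).1 : ℝ)) * (1 / Real.sqrt ((φ m).1 : ℕ)) ^ (φ m).2 := sum_le_sum hle
    _ = ∑ q ∈ S.image φ, 1 / 2 * (1 / (q.1 : ℝ)) * (1 / Real.sqrt (q.1 : ℕ)) ^ q.2 :=
        (sum_image (f := fun q : ℕ × ℕ => 1 / 2 * (1 / (q.1 : ℝ)) * (1 / Real.sqrt (q.1 : ℕ)) ^ q.2) hinj).symm
    _ ≤ ∑ q ∈ PP (Y (r + 1)) ×ˢ range (2 ^ (r + 1)), 1 / 2 * (1 / (q.1 : ℝ)) * (1 / Real.sqrt (q.1 : ℕ)) ^ q.2 := by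
        apply sum_le_sum_of_subset_of_nonneg
        · intro q hq
          obtain ⟨m, hm, rfl⟩ := mem_image.1 hq
          obtain ⟨h1, h2, h3, h4, h5⟩ := hmem m hm
          rw [mem_product, mem_PP, mem_range]
          refine ⟨⟨h4, (Nat.minFac_le (by omega)).trans h2⟩, ?_⟩
          show m.factorization m.minFac - 2 < 2 ^ (r + 1)
          have h6 : 2 ^ m.factorization m.minFac ≤ 2 ^ 2 ^ (r + 1) := by
            calc 2 ^ m.factorization m.minFac ≤ m.minFac ^ m.factorization m.minFac := Nat.pow_le_pow_left h4.two_le _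
              _ = m := h3
              _ ≤ 2 ^ 2 ^ (r + 1) := h2
          have h7 := (Nat.pow_le_pow_iff_right (by norm_num)).1 h6
          omega
        · intro q _ _
          positivity
    _ = ∑ p ∈ PP (Y (r + 1)), 1 / 2 * (1 / (p : ℝ)) * ∑ k ∈ range (2 ^ (r + 1)), (1 / Real.sqrt p) ^ k := by
        rw [sum_product]
        exact sum_congr rfl fun p _ => by rw [mul_sum]
    _ ≤ ∑ p ∈ PP (Y (r + 1)), 1 / 2 * (1 / (p : ℝ)) * (7 / 2) := by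
        refine sum_le_sum fun p hp => ?_
        exact mul_le_mul_of_nonneg_left (geo5 (mem_PP.1 hp).1.two_le _) (by positivity)
    _ = 7 / 4 * ∑ p ∈ PP (Y (r + 1)), (1 : ℝ) / p := by
        rw [mul_sum]
        exact sum_congr rfl fun p _ => by ring

/-- moments under the signs -/
theorem khin6 {r : ℕ} (hα : ∀ m, ‖α m‖ ≤ 1) {A : ℕ → ℂ} (hA : ∀ m, 1 ≤ m → ‖A m‖ ≤ ‖α m‖ / Real.sqrt m) {g0 : ℕ → ℂ}
    (hg : ∀ m, 1 ≤ m → m ≤ Y (r + 1) → ‖g0 m‖ ≤ 1) {V : ℝ} (hV : ∑ p ∈ PP (Y (r + 1)), (1 : ℝ) / p ≤ V)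
    (hB : ∑ m ∈ (Icc 1 (Y (r + 1))).filter (fun m => ¬ m.Prime), ‖α m‖ / Real.sqrt m ≤ 7 / 4 * V) (k : ℕ) :
    av (PP (Y (r + 1))) (fun T1 => (∑ m ∈ Icc 1 (Y (r + 1)), A m * (g0 m * gt T1 ∅ m)).re ^ (2 * k)) ≤
      ((2 * k).factorial : ℝ) * ((36 : ℝ) ^ k)⁻¹ * (2 * Real.exp (29 * V)) := by
  classical
  set B1 : ℝ := 7 / 4 * V with hB1
  set x : ℕ → ℝ := fun p => (A p * g0 p).re with hx
  have hV0 : 0 ≤ V := le_trans (sum_nonneg fun p _ => by positivity) hV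
  have hVx : ∑ p ∈ PP (Y (r + 1)), x p ^ 2 ≤ V := by
    refine le_trans (sum_le_sum fun p hp => ?_) hV
    obtain ⟨hp1, hp2⟩ := mem_PP.1 hp
    have hp0 : (0 : ℝ) < p := by exact_mod_cast hp1.pos
    have h1 : |x p| ≤ 1 / Real.sqrt p := by
      refine (Complex.abs_re_le_norm _).trans ?_
      rw [norm_mul]
      calc ‖A p‖ * ‖g0 p‖ ≤ ‖A p‖ * 1 := mul_le_mul_of_nonneg_left (hg p hp1.one_le hp2) (norm_nonneg _)
        _ = ‖A p‖ := mul_one _
        _ ≤ ‖α p‖ / Real.sqrt p := hA p hp1.one_le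
        _ ≤ 1 / Real.sqrt p := div_le_div_of_nonneg_right (hα p) (Real.sqrt_nonneg _)
    calc x p ^ 2 = |x p| ^ 2 := (sq_abs _).symm
      _ ≤ (1 / Real.sqrt p) ^ 2 := pow_le_pow_left₀ (abs_nonneg _) h1 2
      _ = 1 / (p : ℝ) := by rw [div_pow, Real.sq_sqrt hp0.le, one_pow]
  have hdec : ∀ T1 : Finset ℕ, ∃ y : ℝ, |y| ≤ B1 ∧ (∑ m ∈ Icc 1 (Y (r + 1)), A m * (g0 m * gt T1 ∅ m)).re = ∑ p ∈ PP (Y (r + 1)), sg T1 p * x p + y := by
    intro T1
    refine ⟨(∑ m ∈ (Icc 1 (Y (r + 1))).filter (fun m => ¬ m.Prime), A m * (g0 m * gt T1 ∅ m)).re, ?_, ?_⟩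
    · refine (Complex.abs_re_le_norm _).trans ((norm_sum_le _ _).trans (le_trans (sum_le_sum fun m hm => ?_) hB))
      rw [mem_filter, mem_Icc] at hm
      rw [norm_mul, norm_mul, gt_norm _ _ hm.1.1, mul_one]
      calc ‖A m‖ * ‖g0 m‖ ≤ ‖A m‖ * 1 := mul_le_mul_of_nonneg_left (hg m hm.1.1 hm.1.2) (norm_nonneg _)
        _ = ‖A m‖ := mul_one _
        _ ≤ _ := hA m hm.1.1
    · rw [← sum_filter_add_sum_filter_not (Icc 1 (Y (r + 1))) Nat.Prime, Complex.add_re]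
      congr 1
      rw [Complex.re_sum]
      refine sum_congr rfl fun p hp => ?_
      have hp1 : p.Prime := (mem_filter.1 hp).2
      rw [gt_prime T1 hp1, hx, ← mul_assoc, mul_comm (A p * g0 p) (sg T1 p : ℂ), Complex.re_ofReal_mul]
  have hf0 : (0 : ℝ) < ((2 * k).factorial : ℝ) := by exact_mod_cast Nat.factorial_pos _
  have hpt : ∀ T1 : Finset ℕ, (∑ m ∈ Icc 1 (Y (r + 1)), A m * (g0 m * gt T1 ∅ m)).re ^ (2 * k) ≤ ((2 * k).factorial : ℝ) * ((36 : ℝ) ^ k)⁻¹ * Real.exp (6 * B1) *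
      (Real.exp (∑ p ∈ PP (Y (r + 1)), sg T1 p * (6 * x p)) + Real.exp (∑ p ∈ PP (Y (r + 1)), sg T1 p * (-6 * x p))) := by
    intro T1
    obtain ⟨y, hy, he⟩ := hdec T1
    set X := (∑ m ∈ Icc 1 (Y (r + 1)), A m * (g0 m * gt T1 ∅ m)).re with hX
    have h1 := Real.pow_div_factorial_le_exp (x := 6 * |X|) (by positivity) (2 * k)
    rw [div_le_iff₀ hf0] at h1
    have h2 : (6 * |X|) ^ (2 * k) = (36 : ℝ) ^ k * X ^ (2 * k) := by
      rw [mul_pow, pow_mul |X|, sq_abs, ← pow_mul X, pow_mul (6 : ℝ)]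
      norm_num
    rw [h2] at h1
    have h3 : Real.exp (6 * |X|) ≤ Real.exp (6 * X) + Real.exp (-6 * X) := by
      rcases abs_cases X with ⟨h, _⟩ | ⟨h, _⟩
      · rw [h]
        have := Real.exp_pos (-6 * X)
        linarith
      · rw [h, show 6 * -X = -6 * X by ring]
        have := Real.exp_pos (6 * X)
        linarith
    rw [abs_le] at hy
    have h4 : Real.exp (6 * X) ≤ Real.exp (6 * B1) * Real.exp (∑ p ∈ PP (Y (r + 1)), sg T1 p * (6 * x p)) := by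
      rw [← Real.exp_add]
      apply Real.exp_le_exp.2
      have h5 : ∑ p ∈ PP (Y (r + 1)), sg T1 p * (6 * x p) = 6 * ∑ p ∈ PP (Y (r + 1)), sg T1 p * x p := by
        rw [mul_sum]
        exact sum_congr rfl fun p _ => by ring
      rw [h5, he]
      linarith [hy.2]
    have h5 : Real.exp (-6 * X) ≤ Real.exp (6 * B1) * Real.exp (∑ p ∈ PP (Y (r + 1)), sg T1 p * (-6 * x p)) := by
      rw [← Real.exp_add]
      apply Real.exp_le_exp.2
      have h5 : ∑ p ∈ PP (Y (r + 1)), sg T1 p * (-6 * x p) = -6 * ∑ p ∈ PP (Y (r + 1)), sg T1 p * x p := by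
        rw [mul_sum]
        exact sum_congr rfl fun p _ => by ring
      rw [h5, he]
      linarith [hy.1]
    have h64 : (0 : ℝ) < (36 : ℝ) ^ k := by positivity
    have h6 : X ^ (2 * k) ≤ ((36 : ℝ) ^ k)⁻¹ * (Real.exp (6 * |X|) * ((2 * k).factorial : ℝ)) := by
      rw [inv_mul_eq_div, le_div_iff₀ h64]
      linarith
    refine h6.trans ?_
    have h7 : Real.exp (6 * |X|) ≤ Real.exp (6 * B1) * (Real.exp (∑ p ∈ PP (Y (r + 1)), sg T1 p * (6 * x p)) +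
        Real.exp (∑ p ∈ PP (Y (r + 1)), sg T1 p * (-6 * x p))) := by
      rw [mul_add]
      linarith
    calc ((36 : ℝ) ^ k)⁻¹ * (Real.exp (6 * |X|) * ((2 * k).factorial : ℝ)) ≤ ((36 : ℝ) ^ k)⁻¹ * ((Real.exp (6 * B1) *
          (Real.exp (∑ p ∈ PP (Y (r + 1)), sg T1 p * (6 * x p)) + Real.exp (∑ p ∈ PP (Y (r + 1)), sg T1 p * (-6 * x p)))) * ((2 * k).factorial : ℝ)) := by
          gcongr
      _ = _ := by ring
  refine (av_mono fun T1 _ => hpt T1).trans ?_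
  rw [av_mul_left, av_add]
  have e1 := av_exp (PP (Y (r + 1))) (fun p => 6 * x p)
  have e2 := av_exp (PP (Y (r + 1))) (fun p => -6 * x p)
  have e3 : (∑ p ∈ PP (Y (r + 1)), (6 * x p) ^ 2) / 2 ≤ 18 * V := by
    have : ∑ p ∈ PP (Y (r + 1)), (6 * x p) ^ 2 = 36 * ∑ p ∈ PP (Y (r + 1)), x p ^ 2 := by
      rw [mul_sum]
      exact sum_congr rfl fun p _ => by ring
    rw [this]
    linarith
  have e4 : (∑ p ∈ PP (Y (r + 1)), (-6 * x p) ^ 2) / 2 ≤ 18 * V := by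
    refine le_trans (le_of_eq ?_) e3
    congr 1
    exact sum_congr rfl fun p _ => by ring
  have e5 : Real.exp ((∑ p ∈ PP (Y (r + 1)), (6 * x p) ^ 2) / 2) ≤ Real.exp (18 * V) := Real.exp_le_exp.2 e3
  have e6 : Real.exp ((∑ p ∈ PP (Y (r + 1)), (-6 * x p) ^ 2) / 2) ≤ Real.exp (18 * V) := Real.exp_le_exp.2 e4
  have hc0 : 0 ≤ ((2 * k).factorial : ℝ) * ((36 : ℝ) ^ k)⁻¹ * Real.exp (6 * B1) := by positivity
  have e7 : Real.exp (6 * B1) * Real.exp (18 * V) ≤ Real.exp (29 * V) := by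
    rw [← Real.exp_add]
    apply Real.exp_le_exp.2
    rw [hB1]
    linarith
  calc ((2 * k).factorial : ℝ) * ((36 : ℝ) ^ k)⁻¹ * Real.exp (6 * B1) *
        (av (PP (Y (r + 1))) (fun T1 => Real.exp (∑ p ∈ PP (Y (r + 1)), sg T1 p * (6 * x p))) +
          av (PP (Y (r + 1))) (fun T1 => Real.exp (∑ p ∈ PP (Y (r + 1)), sg T1 p * (-6 * x p)))) ≤
        ((2 * k).factorial : ℝ) * ((36 : ℝ) ^ k)⁻¹ * Real.exp (6 * B1) * (Real.exp (18 * V) + Real.exp (18 * V)) :=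
        mul_le_mul_of_nonneg_left (add_le_add (e1.trans e5) (e2.trans e6)) hc0
    _ = ((2 * k).factorial : ℝ) * ((36 : ℝ) ^ k)⁻¹ * (2 * (Real.exp (6 * B1) * Real.exp (18 * V))) := by ring
    _ ≤ _ := by gcongr

/-! ### numbers -/

theorem nuk {r : ℕ} (hr : 1 ≤ r) : 60 * r + 1 + 2 ^ (r + 1) * (2 * (20 * r)) ≤ 2 ^ (150 * r) := by
  have h0 : r < 2 ^ r := Nat.lt_two_pow_self
  have h1 : 60 * r + 1 ≤ 2 ^ (2 * r + 7) := by
    calc 60 * r + 1 ≤ 2 ^ 7 * 2 ^ r := by omega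
      _ = 2 ^ (r + 7) := by rw [← pow_add]; congr 1; ring
      _ ≤ 2 ^ (2 * r + 7) := Nat.pow_le_pow_right (by norm_num) (by omega)
  have h2 : 2 ^ (r + 1) * (2 * (20 * r)) ≤ 2 ^ (2 * r + 7) := by
    calc 2 ^ (r + 1) * (2 * (20 * r)) ≤ 2 ^ (r + 1) * (2 ^ 6 * 2 ^ r) := Nat.mul_le_mul_left _ (by omega)
      _ = 2 ^ (2 * r + 7) := by rw [← pow_add, ← pow_add]; congr 1; ring
  have h3 : 2 * 2 ^ (2 * r + 7) ≤ 2 ^ (150 * r) := by
    calc 2 * 2 ^ (2 * r + 7) = 2 ^ (2 * r + 8) := by rw [pow_succ 2 (2 * r + 7)]; ring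
      _ ≤ 2 ^ (150 * r) := Nat.pow_le_pow_right (by norm_num) (by omega)
  omega

/-- the tail of the real part of a Dirichlet polynomial -/
theorem Fam.tail {Ω : Type} [MeasurableSpace Ω] {P : Measure Ω} {χ : Ω → ℕ → ℂ} {Tw : Set (Finset ℕ)} (hL : LogC a α) {C : ℝ} (hC0 : 0 ≤ C)
    (hC : ∀ r : ℕ, 1 ≤ r → ∑ p ∈ PP (Y (r + 1)), (1 : ℝ) / p ≤ (r + 1) * Real.log 2 + C) {r : ℕ} (hr : 8 ≤ r)
    (h : Fam P χ (Y (150 * r)) Tw) {A : ℕ → ℂ} (hA : ∀ m, 1 ≤ m → ‖A m‖ ≤ ‖α m‖ / Real.sqrt m) :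
    P.real {ω | 14 * (r : ℝ) < |(∑ m ∈ Icc 1 (Y (r + 1)), A m * χ ω m).re|} ≤ (2 ^ 30 * Real.exp (29 * C) + 1) / 2 ^ (31 * r) := by
  have hp := h.prob
  set k : ℕ := 20 * r with hk
  have hr1 : (1 : ℝ) ≤ r := by exact_mod_cast (by omega : 1 ≤ r)
  have hr0 : (0 : ℝ) < r := by linarith
  have hY1 : 1 ≤ Y (r + 1) := by unfold Y; exact Nat.one_le_two_pow
  have hYZ : Y (r + 1) ≤ Y (150 * r) := Y_mono (by omega)
  have hkY : Y (r + 1) ^ (2 * k) ≤ Y (150 * r) := by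
    unfold Y
    rw [← pow_mul]
    apply Nat.pow_le_pow_right (by norm_num)
    have := nuk (r := r) (by omega)
    rw [hk]
    omega
  set V : ℝ := (r + 1) * Real.log 2 + C with hVd
  have hV := hC r (by omega)
  have hal := al_le_one hL
  have hB := (np6 hL r).trans (mul_le_mul_of_nonneg_left hV (by norm_num : (0 : ℝ) ≤ 7 / 4))
  have hSA : ∑ m ∈ Icc 1 (Y (r + 1)), ‖A m‖ ≤ (Y (r + 1) : ℝ) := by
    calc ∑ m ∈ Icc 1 (Y (r + 1)), ‖A m‖ ≤ ∑ _m ∈ Icc 1 (Y (r + 1)), (1 : ℝ) := by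
          refine sum_le_sum fun m hm => ?_
          rw [mem_Icc] at hm
          refine (hA m hm.1).trans ?_
          rw [div_le_one (Real.sqrt_pos.2 (by exact_mod_cast hm.1))]
          refine (hal m).trans ?_
          rw [Real.one_le_sqrt]
          exact_mod_cast hm.1
      _ = (Y (r + 1) : ℝ) := by simp
  set E1 : ℝ := 2 / (Y (150 * r) : ℝ) * (Y (r + 1) : ℝ) ^ (2 * k) with hE1
  set E2 : ℝ := ((2 * k).factorial : ℝ) * ((36 : ℝ) ^ k)⁻¹ * (2 * Real.exp (29 * V)) with hE2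
  -- the moment
  have hi : ∀ T1 : Finset ℕ, Integrable (fun ω => (∑ m ∈ Icc 1 (Y (r + 1)), A m * (χ ω m * gt T1 ∅ m)).re ^ (2 * k)) P := fun T1 =>
    (h.cf.twist (gt_cmu T1 ∅)).int_pow A hYZ (2 * k)
  have hd : ∀ T1 : Finset ℕ, ∫ ω, (∑ m ∈ Icc 1 (Y (r + 1)), A m * χ ω m).re ^ (2 * k) ∂P ≤
      (∫ ω, (∑ m ∈ Icc 1 (Y (r + 1)), A m * (χ ω m * gt T1 ∅ m)).re ^ (2 * k) ∂P) + E1 := by
    intro T1
    have h1 := mom_diff h.cf (h.cf.twist (gt_cmu T1 ∅)) (e := 2 / (Y (150 * r) : ℝ)) (by positivity)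
      (fun m n hm hm2 hn hn2 => h.corr T1 ∅ h.emp m n hm hm2 hn hn2) A hY1 (2 * k) hkY
    have h2 := (abs_le.1 h1).2
    have h3 : 2 / (Y (150 * r) : ℝ) * (∑ m ∈ Icc 1 (Y (r + 1)), ‖A m‖) ^ (2 * k) ≤ E1 := by
      rw [hE1]
      refine mul_le_mul_of_nonneg_left ?_ (by positivity)
      exact pow_le_pow_left₀ (sum_nonneg fun _ _ => norm_nonneg _) hSA _
    linarith
  have hav : ∫ ω, (∑ m ∈ Icc 1 (Y (r + 1)), A m * χ ω m).re ^ (2 * k) ∂P ≤
      av (PP (Y (r + 1))) (fun T1 => ∫ ω, (∑ m ∈ Icc 1 (Y (r + 1)), A m * (χ ω m * gt T1 ∅ m)).re ^ (2 * k) ∂P) + E1 := by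
    have := av_mono (S := PP (Y (r + 1))) (F := fun _ => ∫ ω, (∑ m ∈ Icc 1 (Y (r + 1)), A m * χ ω m).re ^ (2 * k) ∂P)
      (G := fun T1 => (∫ ω, (∑ m ∈ Icc 1 (Y (r + 1)), A m * (χ ω m * gt T1 ∅ m)).re ^ (2 * k) ∂P) + E1)
      (fun T1 _ => hd T1)
    rwa [av_const, av_add, av_const] at this
  rw [av_int5 _ hi] at hav
  have hb : ∫ ω, av (PP (Y (r + 1))) (fun T1 => (∑ m ∈ Icc 1 (Y (r + 1)), A m * (χ ω m * gt T1 ∅ m)).re ^ (2 * k)) ∂P ≤ E2 := by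
    have h1 : ∫ ω, av (PP (Y (r + 1))) (fun T1 => (∑ m ∈ Icc 1 (Y (r + 1)), A m * (χ ω m * gt T1 ∅ m)).re ^ (2 * k)) ∂P ≤
        ∫ _ω, E2 ∂P := by
      refine integral_mono_of_nonneg (ae_of_all _ fun ω => ?_) (integrable_const _) (ae_of_all _ fun ω => ?_)
      · exact av_nonneg fun T1 _ => by rw [pow_mul]; positivity
      · exact khin6 hal hA (fun m hm hm2 => (h.norm ω m hm (hm2.trans hYZ)).le) hV hB k
    rwa [integral_const, smul_eq_mul, probReal_univ, one_mul] at h1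
  have hmom : ∫ ω, (∑ m ∈ Icc 1 (Y (r + 1)), A m * χ ω m).re ^ (2 * k) ∂P ≤ E2 + E1 := by linarith
  -- Markov
  set D : ℝ := (14 * (r : ℝ)) ^ (2 * k) with hD
  have hD0 : 0 < D := by positivity
  have hD1 : 1 ≤ D := one_le_pow₀ (by linarith)
  have hmk := mul_meas_ge_le_integral_of_nonneg (μ := P) (f := fun ω => (∑ m ∈ Icc 1 (Y (r + 1)), A m * χ ω m).re ^ (2 * k))
    (ae_of_all _ fun ω => by beta_reduce; rw [pow_mul]; positivity) (h.cf.int_pow A hYZ (2 * k)) D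
  have hsub : P.real {ω | 14 * (r : ℝ) < |(∑ m ∈ Icc 1 (Y (r + 1)), A m * χ ω m).re|} ≤
      P.real {ω | D ≤ (∑ m ∈ Icc 1 (Y (r + 1)), A m * χ ω m).re ^ (2 * k)} := by
    refine measureReal_mono (fun ω hω => ?_) (measure_ne_top _ _)
    rw [Set.mem_ofPred_eq] at hω ⊢
    have h1 : (∑ m ∈ Icc 1 (Y (r + 1)), A m * χ ω m).re ^ (2 * k) = |(∑ m ∈ Icc 1 (Y (r + 1)), A m * χ ω m).re| ^ (2 * k) :=
      ((even_two_mul k).pow_abs _).symm
    rw [h1, hD]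
    exact pow_le_pow_left₀ (by positivity) hω.le _
  have hfin : D * P.real {ω | 14 * (r : ℝ) < |(∑ m ∈ Icc 1 (Y (r + 1)), A m * χ ω m).re|} ≤ E2 + E1 :=
    (mul_le_mul_of_nonneg_left hsub hD0.le).trans (hmk.trans hmom)
  -- numbers
  have n1 : ((2 * k).factorial : ℝ) * ((36 : ℝ) ^ k)⁻¹ ≤ D / 2 ^ (60 * r) := by
    have h1 : ((2 * k).factorial : ℝ) ≤ (2 * k : ℝ) ^ k * (k : ℝ) ^ k := by
      have := (Nat.factorial_two_mul_le k).trans (Nat.mul_le_mul_left _ (Nat.factorial_le_pow k))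
      exact_mod_cast this
    rw [← div_eq_mul_inv, div_le_div_iff₀ (by positivity) (by positivity)]
    have h2 : (2 : ℝ) ^ (60 * r) = 8 ^ k := by
      rw [hk, show 60 * r = 3 * (20 * r) by ring, pow_mul]
      norm_num
    have h3 : D = (196 * (r : ℝ) ^ 2) ^ k := by
      rw [hD, pow_mul]
      congr 1
      ring
    have h4 : (k : ℝ) = 20 * r := by rw [hk]; push_cast; rfl
    rw [h2, h3]
    calc ((2 * k).factorial : ℝ) * 8 ^ k ≤ (2 * k : ℝ) ^ k * (k : ℝ) ^ k * 8 ^ k := mul_le_mul_of_nonneg_right h1 (by positivity)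
      _ = (2 * (20 * r) * (20 * r) * 8 : ℝ) ^ k := by rw [← mul_pow, ← mul_pow, h4]
      _ ≤ (196 * (r : ℝ) ^ 2 * 36) ^ k := by
          apply pow_le_pow_left₀ (by positivity)
          nlinarith [sq_nonneg (r : ℝ)]
      _ = (196 * (r : ℝ) ^ 2) ^ k * 36 ^ k := by rw [mul_pow]
  have n2 : Real.exp (29 * V) = 2 ^ (29 * r) * (2 ^ 29 * Real.exp (29 * C)) := by
    have h1 : Real.exp (29 * V) = Real.exp ((29 * r + 29 : ℕ) * Real.log 2) * Real.exp (29 * C) := by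
      rw [← Real.exp_add, hVd]
      congr 1
      push_cast
      ring
    rw [h1, mul_comm ((29 * r + 29 : ℕ) : ℝ), Real.exp_mul, Real.exp_log (by norm_num), Real.rpow_natCast, pow_add]
    ring
  have n3 : E1 ≤ 1 / 2 ^ (60 * r) := by
    have hY : (Y (150 * r) : ℝ) = 2 ^ (2 ^ (150 * r)) := by unfold Y; push_cast; rfl
    have hY2 : (Y (r + 1) : ℝ) = 2 ^ (2 ^ (r + 1)) := by unfold Y; push_cast; rfl
    rw [hE1, hY, hY2, ← pow_mul, div_mul_eq_mul_div, div_le_div_iff₀ (by positivity) (by positivity), one_mul]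
    calc 2 * (2 : ℝ) ^ (2 ^ (r + 1) * (2 * k)) * 2 ^ (60 * r) = 2 ^ (60 * r + 1 + 2 ^ (r + 1) * (2 * k)) := by
          rw [pow_add _ (60 * r + 1), pow_succ]
          ring
      _ ≤ 2 ^ (2 ^ (150 * r)) := pow_le_pow_right₀ (by norm_num) (nuk (by omega))
  have n4 : E2 + E1 ≤ D * ((2 ^ 30 * Real.exp (29 * C) + 1) / 2 ^ (31 * r)) := by
    have h1 : E2 ≤ D * (2 ^ 30 * Real.exp (29 * C) / 2 ^ (31 * r)) := by
      calc E2 ≤ D / 2 ^ (60 * r) * (2 * Real.exp (29 * V)) := mul_le_mul_of_nonneg_right n1 (by positivity)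
        _ = D * (2 ^ 30 * Real.exp (29 * C) / 2 ^ (31 * r)) := by
            rw [n2, show 60 * r = 29 * r + 31 * r by ring, pow_add]
            field_simp
    have h2 : E1 ≤ D * (1 / 2 ^ (31 * r)) := by
      calc E1 ≤ 1 / 2 ^ (60 * r) := n3
        _ ≤ 1 / 2 ^ (31 * r) := by
            apply one_div_le_one_div_of_le (by positivity)
            exact pow_le_pow_right₀ (by norm_num) (by omega)
        _ ≤ D * (1 / 2 ^ (31 * r)) := le_mul_of_one_le_left (by positivity) hD1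
    calc E2 + E1 ≤ D * (2 ^ 30 * Real.exp (29 * C) / 2 ^ (31 * r)) + D * (1 / 2 ^ (31 * r)) := add_le_add h1 h2
      _ = _ := by ring
  exact le_of_mul_le_mul_left (hfin.trans n4) hD0

/-- block SUB -/
theorem sUB (a α : ℕ → ℂ) : StmtSUB a α := by
  intro hL η hη
  obtain ⟨C, hC0, hC⟩ := mer5
  set D : ℝ := 2 ^ 30 * Real.exp (29 * C) + 1 with hD
  have hD0 : 0 < D := by positivity
  obtain ⟨r1, hr1⟩ := exists_nat_gt (2 * D / η)
  refine ⟨max 8 r1, fun r hr Ω _ P χ Tw h => ?_⟩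
  have hr8 : 8 ≤ r := (le_max_left _ _).trans hr
  have hrr1 : (r1 : ℝ) ≤ r := by exact_mod_cast (le_max_right _ _).trans hr
  have hp := h.prob
  have hs := sr_pos (r := r) (by omega)
  set B : ℕ → ℕ → ℂ := fun j m => α m * (m : ℂ) ^ (-(((1 / 2 + sr r : ℝ) : ℂ) + Complex.I * (tj r j : ℂ))) with hB
  have hBn : ∀ j m, 1 ≤ m → ‖B j m‖ ≤ ‖α m‖ / Real.sqrt m := by
    intro j m hm
    have hm0 : (0 : ℝ) < m := by exact_mod_cast hm
    have hm1 : (1 : ℝ) ≤ m := by exact_mod_cast hm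
    rw [hB]
    beta_reduce
    rw [norm_mul, Complex.norm_natCast_cpow_of_pos (by omega)]
    have h2 : (-(((1 / 2 + sr r : ℝ) : ℂ) + Complex.I * (tj r j : ℂ))).re = -(1 / 2 + sr r) := by
      simp
    rw [h2, div_eq_mul_inv]
    refine mul_le_mul_of_nonneg_left ?_ (norm_nonneg _)
    rw [Real.rpow_neg hm0.le]
    apply inv_anti₀ (Real.sqrt_pos.2 hm0)
    rw [Real.sqrt_eq_rpow]
    exact Real.rpow_le_rpow_of_exponent_le hm1 (by linarith)
  have hPS : ∀ ω j, PS r α (χ ω) (tj r j) = ∑ m ∈ Icc 1 (Y (r + 1)), B j m * χ ω m := by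
    intro ω j
    unfold PS
    exact sum_congr rfl fun m _ => by rw [hB]; ring
  have hone : ∀ j, P.real {ω | 20 * (r : ℝ) < ‖PS r α (χ ω) (tj r j)‖} ≤ 2 * (D / 2 ^ (31 * r)) := by
    intro j
    have t1 := h.tail hL hC0 hC hr8 (A := B j) (hBn j)
    have t2 := h.tail hL hC0 hC hr8 (A := fun m => -Complex.I * B j m) (fun m hm => by
      rw [norm_mul, norm_neg, Complex.norm_I, one_mul]
      exact hBn j m hm)
    have hsub : {ω | 20 * (r : ℝ) < ‖PS r α (χ ω) (tj r j)‖} ⊆ {ω | 14 * (r : ℝ) < |(∑ m ∈ Icc 1 (Y (r + 1)), B j m * χ ω m).re|} ∪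
        {ω | 14 * (r : ℝ) < |(∑ m ∈ Icc 1 (Y (r + 1)), -Complex.I * B j m * χ ω m).re|} := by
      intro ω hω
      rw [Set.mem_ofPred_eq, hPS] at hω
      rw [Set.mem_union, Set.mem_ofPred_eq, Set.mem_ofPred_eq]
      set z := ∑ m ∈ Icc 1 (Y (r + 1)), B j m * χ ω m with hz
      have h1 : ∑ m ∈ Icc 1 (Y (r + 1)), -Complex.I * B j m * χ ω m = -Complex.I * z := by
        rw [hz, mul_sum]
        exact sum_congr rfl fun m _ => by ring
      have h2 : (-Complex.I * z).re = z.im := by simp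
      rw [h1, h2]
      by_contra hc
      push Not at hc
      have h3 : ‖z‖ ^ 2 = z.re ^ 2 + z.im ^ 2 := by
        rw [← Complex.normSq_eq_norm_sq, Complex.normSq_apply]
        ring
      have hr0 : (0 : ℝ) ≤ r := Nat.cast_nonneg _
      have h4 : z.re ^ 2 ≤ (14 * (r : ℝ)) ^ 2 := by
        rw [← sq_abs]
        exact pow_le_pow_left₀ (abs_nonneg _) hc.1 2
      have h5 : z.im ^ 2 ≤ (14 * (r : ℝ)) ^ 2 := by
        rw [← sq_abs]
        exact pow_le_pow_left₀ (abs_nonneg _) hc.2 2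
      have h6 : (20 * (r : ℝ)) ^ 2 < ‖z‖ ^ 2 := pow_lt_pow_left₀ hω (by positivity) (by norm_num)
      nlinarith [sq_nonneg (r : ℝ)]
    calc P.real {ω | 20 * (r : ℝ) < ‖PS r α (χ ω) (tj r j)‖} ≤ _ := measureReal_mono hsub (measure_ne_top _ _)
      _ ≤ _ := measureReal_union_le _ _
      _ ≤ D / 2 ^ (31 * r) + D / 2 ^ (31 * r) := add_le_add t1 t2
      _ = _ := by ring
  have hun : {ω | ∃ j : ℕ, j < NG r ∧ 20 * (r : ℝ) < ‖PS r α (χ ω) (tj r j)‖} ⊆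
      ⋃ j ∈ range (NG r), {ω | 20 * (r : ℝ) < ‖PS r α (χ ω) (tj r j)‖} := by
    rintro ω ⟨j, hj, hω⟩
    rw [Set.mem_iUnion₂]
    exact ⟨j, mem_range.2 hj, hω⟩
  calc P.real {ω | ∃ j : ℕ, j < NG r ∧ 20 * (r : ℝ) < ‖PS r α (χ ω) (tj r j)‖} ≤
        P.real (⋃ j ∈ range (NG r), {ω | 20 * (r : ℝ) < ‖PS r α (χ ω) (tj r j)‖}) := measureReal_mono hun (measure_ne_top _ _)
    _ ≤ ∑ j ∈ range (NG r), P.real {ω | 20 * (r : ℝ) < ‖PS r α (χ ω) (tj r j)‖} := measureReal_biUnion_finset_le _ _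
    _ ≤ ∑ _j ∈ range (NG r), 2 * (D / 2 ^ (31 * r)) := sum_le_sum fun j _ => hone j
    _ = 2 * D / 2 ^ (11 * r) := by
        rw [sum_const, card_range, nsmul_eq_mul]
        unfold NG
        push_cast
        rw [show 31 * r = 20 * r + 11 * r by ring, pow_add]
        field_simp
    _ ≤ η := by
        rw [div_le_iff₀ (by positivity)]
        rw [div_lt_iff₀ hη] at hr1
        have h1 : (r : ℝ) ≤ 2 ^ (11 * r) := by
          have : r < 2 ^ r := Nat.lt_two_pow_self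
          have h2 : 2 ^ r ≤ 2 ^ (11 * r) := Nat.pow_le_pow_right (by norm_num) (by omega)
          exact_mod_cast (this.le.trans h2)
        nlinarith

end Pool.Agent.DR
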