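import Mathlib

/-!
# Project DR (MP_a499ba_nt): Taylor's formula for `e^{ix}`
-/

set_option autoImplicit false

namespace Pool.Agent.DR

open Finset

private theorem hd5 (n : ℕ) (x : ℝ) : HasDerivAt (fun x : ℝ => ∑ k ∈ range (n + 1), (Complex.I * (x : ℂ)) ^ k / (k.factorial : ℂ))
    (Complex.I * ∑ k ∈ range n, (Complex.I * (x : ℂ)) ^ k / (k.factorial : ℂ)) x := by
  induction n with
  | zero =>
    simp only [zero_add, sum_range_one, pow_zero, Nat.factorial_zero, Nat.cast_one, div_one, range_zero, sum_empty, mul_zero]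
    exact hasDerivAt_const x (1 : ℂ)
  | succ n ih =>
    have h0 : HasDerivAt (fun x : ℝ => Complex.I * (x : ℂ)) Complex.I x := by
      have := (Complex.ofRealCLM.hasDerivAt (x := x)).const_mul Complex.I
      simpa using this
    have h1 : HasDerivAt (fun x : ℝ => (Complex.I * (x : ℂ)) ^ (n + 1) / ((n + 1).factorial : ℂ))
        ((((n + 1 : ℕ) : ℂ) * (Complex.I * (x : ℂ)) ^ n * Complex.I) / ((n + 1).factorial : ℂ)) x := by
      have := (h0.pow (n + 1)).div_const ((n + 1).factorial : ℂ)
      simpa using this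
    have h2 := ih.add h1
    have e1 : (fun x : ℝ => ∑ k ∈ range (n + 1 + 1), (Complex.I * (x : ℂ)) ^ k / (k.factorial : ℂ)) =
        (fun x : ℝ => ∑ k ∈ range (n + 1), (Complex.I * (x : ℂ)) ^ k / (k.factorial : ℂ)) +
        fun x : ℝ => (Complex.I * (x : ℂ)) ^ (n + 1) / ((n + 1).factorial : ℂ) := by
      funext y
      rw [sum_range_succ]
      rfl
    rw [e1]
    refine h2.congr_deriv ?_
    rw [sum_range_succ, mul_add]
    congr 1
    have h3 : ((n.factorial : ℕ) : ℂ) ≠ 0 := by exact_mod_cast n.factorial_ne_zero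
    have h4 : ((n : ℂ) + 1) ≠ 0 := by exact_mod_cast n.succ_ne_zero
    rw [Nat.factorial_succ]
    push_cast
    field_simp

private theorem pos5 (n : ℕ) : ∀ x : ℝ, 0 ≤ x → ‖Complex.exp (Complex.I * (x : ℂ)) - ∑ k ∈ range n, (Complex.I * (x : ℂ)) ^ k / (k.factorial : ℂ)‖ ≤
    x ^ n / n.factorial := by
  induction n with
  | zero =>
    intro x _
    simp only [range_zero, sum_empty, sub_zero, pow_zero, Nat.factorial_zero, Nat.cast_one, div_one]
    rw [Complex.norm_exp_I_mul_ofReal]
  | succ n ih =>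
    intro x hx
    have hexp : ∀ y : ℝ, HasDerivAt (fun y : ℝ => Complex.exp (Complex.I * (y : ℂ))) (Complex.I * Complex.exp (Complex.I * (y : ℂ))) y := by
      intro y
      have h0 : HasDerivAt (fun x : ℝ => Complex.I * (x : ℂ)) Complex.I y := by
        have := (Complex.ofRealCLM.hasDerivAt (x := y)).const_mul Complex.I
        simpa using this
      have := h0.cexp
      rwa [mul_comm] at this
    have hd : ∀ y : ℝ, HasDerivAt (fun y : ℝ => Complex.exp (Complex.I * (y : ℂ)) - ∑ k ∈ range (n + 1), (Complex.I * (y : ℂ)) ^ k / (k.factorial : ℂ))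
        (Complex.I * (Complex.exp (Complex.I * (y : ℂ)) - ∑ k ∈ range n, (Complex.I * (y : ℂ)) ^ k / (k.factorial : ℂ))) y := by
      intro y
      have := (hexp y).sub (hd5 n y)
      rw [mul_sub]
      exact this
    have hB : ∀ y : ℝ, HasDerivAt (fun y : ℝ => y ^ (n + 1) / ((n + 1).factorial : ℝ)) (y ^ n / (n.factorial : ℝ)) y := by
      intro y
      have h1 := (hasDerivAt_pow (n + 1) y).div_const ((n + 1).factorial : ℝ)
      refine h1.congr_deriv ?_
      rw [Nat.factorial_succ, Nat.add_sub_cancel]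
      have h3 : ((n.factorial : ℕ) : ℝ) ≠ 0 := by exact_mod_cast n.factorial_ne_zero
      push_cast
      field_simp
    refine image_norm_le_of_norm_deriv_right_le_deriv_boundary (a := 0) (b := x)
      (f := fun y : ℝ => Complex.exp (Complex.I * (y : ℂ)) - ∑ k ∈ range (n + 1), (Complex.I * (y : ℂ)) ^ k / (k.factorial : ℂ))
      (f' := fun y : ℝ => Complex.I * (Complex.exp (Complex.I * (y : ℂ)) - ∑ k ∈ range n, (Complex.I * (y : ℂ)) ^ k / (k.factorial : ℂ)))
      (B := fun y : ℝ => y ^ (n + 1) / ((n + 1).factorial : ℝ)) (B' := fun y : ℝ => y ^ n / (n.factorial : ℝ))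
      (fun y _ => (hd y).continuousAt.continuousWithinAt) (fun y _ => (hd y).hasDerivWithinAt) ?_ (fun y => (hB y)) ?_
      (Set.right_mem_Icc.2 hx)
    · simp [sum_range_succ']
    · intro y hy
      rw [norm_mul, Complex.norm_I, one_mul]
      exact ih y hy.1

/-- Taylor's formula for `e^{ix}`, with the remainder `|x|^n / n!` -/
theorem tay (n : ℕ) (x : ℝ) : ‖Complex.exp (Complex.I * (x : ℂ)) - ∑ k ∈ range n, (Complex.I * (x : ℂ)) ^ k / (k.factorial : ℂ)‖ ≤
    |x| ^ n / n.factorial := by
  rcases le_total 0 x with hx | hx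
  · rw [abs_of_nonneg hx]
    exact pos5 n x hx
  · have h1 := pos5 n (-x) (by linarith)
    rw [abs_of_nonpos hx]
    refine le_trans (le_of_eq ?_) h1
    rw [← RCLike.norm_conj]
    congr 1
    rw [map_sub, ← Complex.exp_conj, map_sum]
    congr 1
    · congr 1
      simp
    · refine sum_congr rfl fun k _ => ?_
      rw [map_div₀, map_pow, map_mul, Complex.conj_I, Complex.conj_ofReal, map_natCast]
      congr 2
      push_cast
      ring

end Pool.Agent.DR
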