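import Pool.Agent.Helper5.DR.Defs
import Pool.Agent.Helper5.DR.Tay

/-!
# Project DR (MP_a499ba_nt), block CHF: closeness of characteristic functions from closeness of correlations
-/

set_option autoImplicit false

namespace Pool.Agent.DR

open Finset MeasureTheory Filter Topology Pool.Agent.Helper5.RM Pool.Agent.Helper96.AF Pool.Agent.Helper66.LW Pool.Agent.IT

/-- a measurable family of completely multiplicative functions, at most one in absolute value up to `Z` -/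
structure CF {Ω : Type} [MeasurableSpace Ω] (P : Measure Ω) (χ : Ω → ℕ → ℂ) (Z : ℕ) : Prop where
  prob : IsProbabilityMeasure P
  meas : ∀ n, Measurable fun ω => χ ω n
  one : ∀ ω, χ ω 1 = 1
  mul : ∀ ω m n, χ ω (m * n) = χ ω m * χ ω n
  norm : ∀ ω n, 1 ≤ n → n ≤ Z → ‖χ ω n‖ ≤ 1

theorem Fam.cf {Ω : Type} [MeasurableSpace Ω] {P : Measure Ω} {χ : Ω → ℕ → ℂ} {Z : ℕ} {Tw : Set (Finset ℕ)} (h : Fam P χ Z Tw) :
    CF P χ Z := ⟨h.prob, h.meas, h.one, h.mul, fun ω n h1 h2 => (h.norm ω n h1 h2).le⟩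

/-- powers of a Dirichlet polynomial -/
theorem pow_poly (A : ℕ → ℂ) (N : ℕ) (l : ℕ) : ∃ b : ℕ → ℂ, (∀ g : ℕ → ℂ, g 1 = 1 → (∀ m n, g (m * n) = g m * g n) →
    (∑ m ∈ Icc 1 N, A m * g m) ^ l = ∑ n ∈ Icc 1 (N ^ l), b n * g n) ∧
    ∑ n ∈ Icc 1 (N ^ l), ‖b n‖ ≤ (∑ m ∈ Icc 1 N, ‖A m‖) ^ l := by
  classical
  induction l with
  | zero => exact ⟨fun _ => 1, fun g h1 _ => by simp [h1], by simp⟩
  | succ l ih =>
    obtain ⟨b, h1, h2⟩ := ih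
    set Q : Finset (ℕ × ℕ) := Icc 1 (N ^ l) ×ˢ Icc 1 N with hQ
    have hmap : ∀ q ∈ Q, q.1 * q.2 ∈ Icc 1 (N ^ (l + 1)) := by
      intro q hq
      rw [hQ, mem_product, mem_Icc, mem_Icc] at hq
      rw [mem_Icc, pow_succ]
      exact ⟨Nat.one_le_iff_ne_zero.2 (Nat.mul_ne_zero (by omega) (by omega)), Nat.mul_le_mul hq.1.2 hq.2.2⟩
    refine ⟨fun k => ∑ q ∈ Q with q.1 * q.2 = k, b q.1 * A q.2, fun g hg1 hg2 => ?_, ?_⟩
    · rw [pow_succ, h1 g hg1 hg2, sum_mul_sum, ← sum_product']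
      have e1 : ∀ k ∈ Icc 1 (N ^ (l + 1)), (∑ q ∈ Q with q.1 * q.2 = k, b q.1 * A q.2) * g k =
          ∑ q ∈ Q with q.1 * q.2 = k, b q.1 * g q.1 * (A q.2 * g q.2) := by
        intro k _
        rw [sum_mul]
        refine sum_congr rfl fun q hq => ?_
        rw [← (mem_filter.1 hq).2, hg2]
        ring
      rw [sum_congr rfl e1, sum_fiberwise_of_maps_to hmap]
    · have e2 : ∀ k ∈ Icc 1 (N ^ (l + 1)), ‖∑ q ∈ Q with q.1 * q.2 = k, b q.1 * A q.2‖ ≤ ∑ q ∈ Q with q.1 * q.2 = k, ‖b q.1‖ * ‖A q.2‖ := by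
        intro k _
        refine (norm_sum_le _ _).trans (le_of_eq ?_)
        exact sum_congr rfl fun q _ => norm_mul _ _
      refine (sum_le_sum e2).trans ?_
      rw [sum_fiberwise_of_maps_to hmap, hQ, sum_product]
      show ∑ x ∈ Icc 1 (N ^ l), ∑ y ∈ Icc 1 N, ‖b x‖ * ‖A y‖ ≤ _
      rw [← sum_mul_sum, pow_succ]
      exact mul_le_mul_of_nonneg_right h2 (sum_nonneg fun _ _ => norm_nonneg _)

section

variable {Ω : Type} [MeasurableSpace Ω] {P : Measure Ω} {χ : Ω → ℕ → ℂ} {Z : ℕ}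
variable {Ω' : Type} [MeasurableSpace Ω'] {P' : Measure Ω'} {χ' : Ω' → ℕ → ℂ}

theorem CF.int_one (h : CF P χ Z) {m n : ℕ} (hm : 1 ≤ m) (hm2 : m ≤ Z) (hn : 1 ≤ n) (hn2 : n ≤ Z) :
    Integrable (fun ω => χ ω m * (starRingEnd ℂ) (χ ω n)) P := by
  have := h.prob
  refine Integrable.of_bound ?_ 1 (ae_of_all _ fun ω => ?_)
  · exact ((h.meas m).mul (Complex.continuous_conj.measurable.comp (h.meas n))).aestronglyMeasurable
  · rw [norm_mul, RCLike.norm_conj]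
    calc ‖χ ω m‖ * ‖χ ω n‖ ≤ 1 * 1 := mul_le_mul (h.norm ω m hm hm2) (h.norm ω n hn hn2) (norm_nonneg _) (by norm_num)
      _ = 1 := one_mul 1

theorem CF.int_eq (h : CF P χ Z) (b b' : ℕ → ℂ) {N N' : ℕ} (hN : N ≤ Z) (hN' : N' ≤ Z) :
    ∫ ω, (∑ m ∈ Icc 1 N, b m * χ ω m) * (starRingEnd ℂ) (∑ n ∈ Icc 1 N', b' n * χ ω n) ∂P =
      ∑ m ∈ Icc 1 N, ∑ n ∈ Icc 1 N', b m * (starRingEnd ℂ) (b' n) * ∫ ω, χ ω m * (starRingEnd ℂ) (χ ω n) ∂P := by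
  have e1 : ∀ ω, (∑ m ∈ Icc 1 N, b m * χ ω m) * (starRingEnd ℂ) (∑ n ∈ Icc 1 N', b' n * χ ω n) =
      ∑ m ∈ Icc 1 N, ∑ n ∈ Icc 1 N', b m * (starRingEnd ℂ) (b' n) * (χ ω m * (starRingEnd ℂ) (χ ω n)) := by
    intro ω
    rw [map_sum, sum_mul_sum]
    refine sum_congr rfl fun m _ => sum_congr rfl fun n _ => ?_
    rw [map_mul]
    ring
  have hi : ∀ m ∈ Icc 1 N, ∀ n ∈ Icc 1 N', Integrable (fun ω => b m * (starRingEnd ℂ) (b' n) * (χ ω m * (starRingEnd ℂ) (χ ω n))) P := by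
    intro m hm n hn
    rw [mem_Icc] at hm hn
    exact (h.int_one hm.1 (hm.2.trans hN) hn.1 (hn.2.trans hN')).const_mul _
  rw [integral_congr_ae (ae_of_all _ e1), integral_finsetSum _ fun m hm => integrable_finsetSum _ fun n hn => hi m hm n hn]
  refine sum_congr rfl fun m hm => ?_
  rw [integral_finsetSum _ fun n hn => hi m hm n hn]
  refine sum_congr rfl fun n _ => ?_
  rw [integral_const_mul]

theorem corr_diff (h : CF P χ Z) (h' : CF P' χ' Z) {e : ℝ}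
    (hc : ∀ m n : ℕ, 1 ≤ m → m ≤ Z → 1 ≤ n → n ≤ Z → ‖(∫ ω, χ ω m * (starRingEnd ℂ) (χ ω n) ∂P) -
      ∫ ω, χ' ω m * (starRingEnd ℂ) (χ' ω n) ∂P'‖ ≤ e)
    (b b' : ℕ → ℂ) {N N' : ℕ} (hN : N ≤ Z) (hN' : N' ≤ Z) :
    ‖(∫ ω, (∑ m ∈ Icc 1 N, b m * χ ω m) * (starRingEnd ℂ) (∑ n ∈ Icc 1 N', b' n * χ ω n) ∂P) -
      ∫ ω, (∑ m ∈ Icc 1 N, b m * χ' ω m) * (starRingEnd ℂ) (∑ n ∈ Icc 1 N', b' n * χ' ω n) ∂P'‖ ≤
      e * (∑ m ∈ Icc 1 N, ‖b m‖) * ∑ n ∈ Icc 1 N', ‖b' n‖ := by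
  have e0 : e * (∑ m ∈ Icc 1 N, ‖b m‖) * ∑ n ∈ Icc 1 N', ‖b' n‖ = ∑ m ∈ Icc 1 N, ∑ n ∈ Icc 1 N', e * ‖b m‖ * ‖b' n‖ := by
    rw [mul_assoc, sum_mul_sum, mul_sum]
    refine sum_congr rfl fun m _ => ?_
    rw [mul_sum]
    exact sum_congr rfl fun n _ => (mul_assoc _ _ _).symm
  rw [h.int_eq b b' hN hN', h'.int_eq b b' hN hN', ← sum_sub_distrib, e0]
  refine (norm_sum_le _ _).trans ?_
  refine sum_le_sum fun m hm => ?_
  rw [← sum_sub_distrib]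
  refine (norm_sum_le _ _).trans ?_
  refine sum_le_sum fun n hn => ?_
  rw [mem_Icc] at hm hn
  rw [← mul_sub, norm_mul, norm_mul, RCLike.norm_conj]
  calc ‖b m‖ * ‖b' n‖ * _ ≤ ‖b m‖ * ‖b' n‖ * e :=
        mul_le_mul_of_nonneg_left (hc m n hm.1 (hm.2.trans hN) hn.1 (hn.2.trans hN')) (by positivity)
    _ = e * ‖b m‖ * ‖b' n‖ := by ring

/-- the norm of a Dirichlet polynomial -/
theorem CF.norm_le (h : CF P χ Z) (A : ℕ → ℂ) {N : ℕ} (hN : N ≤ Z) (ω : Ω) : ‖∑ m ∈ Icc 1 N, A m * χ ω m‖ ≤ ∑ m ∈ Icc 1 N, ‖A m‖ := by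
  refine (norm_sum_le _ _).trans (sum_le_sum fun m hm => ?_)
  rw [mem_Icc] at hm
  rw [norm_mul]
  calc ‖A m‖ * ‖χ ω m‖ ≤ ‖A m‖ * 1 := mul_le_mul_of_nonneg_left (h.norm ω m hm.1 (hm.2.trans hN)) (norm_nonneg _)
    _ = ‖A m‖ := mul_one _

theorem CF.meas_poly (h : CF P χ Z) (A : ℕ → ℂ) (N : ℕ) : Measurable fun ω => ∑ m ∈ Icc 1 N, A m * χ ω m :=
  Finset.measurable_fun_sum _ fun m _ => (h.meas m).const_mul _

theorem CF.int_pow (h : CF P χ Z) (A : ℕ → ℂ) {N : ℕ} (hN : N ≤ Z) (k : ℕ) :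
    Integrable (fun ω => (∑ m ∈ Icc 1 N, A m * χ ω m).re ^ k) P := by
  have := h.prob
  refine Integrable.of_bound ?_ ((∑ m ∈ Icc 1 N, ‖A m‖) ^ k) (ae_of_all _ fun ω => ?_)
  · exact ((Complex.measurable_re.comp (h.meas_poly A N)).pow_const k).aestronglyMeasurable
  · rw [norm_pow]
    refine pow_le_pow_left₀ (norm_nonneg _) ?_ k
    rw [Real.norm_eq_abs]
    exact (Complex.abs_re_le_norm _).trans (h.norm_le A hN ω)

/-- the moments of the real part -/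
theorem CF.mom_eq (h : CF P χ Z) (A : ℕ → ℂ) {N : ℕ} (hN1 : 1 ≤ N) (k : ℕ) (hk : N ^ k ≤ Z) (b : ℕ → ℕ → ℂ)
    (hb : ∀ l, ∀ g : ℕ → ℂ, g 1 = 1 → (∀ m n, g (m * n) = g m * g n) →
      (∑ m ∈ Icc 1 N, A m * g m) ^ l = ∑ n ∈ Icc 1 (N ^ l), b l n * g n) :
    ((∫ ω, (∑ m ∈ Icc 1 N, A m * χ ω m).re ^ k ∂P : ℝ) : ℂ) = (1 / 2) ^ k * ∑ l ∈ range (k + 1), (k.choose l : ℂ) *
      ∫ ω, (∑ m ∈ Icc 1 (N ^ l), b l m * χ ω m) * (starRingEnd ℂ) (∑ n ∈ Icc 1 (N ^ (k - l)), b (k - l) n * χ ω n) ∂P := by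
  have := h.prob
  have hNl : ∀ l ≤ k, N ^ l ≤ Z := fun l hl => (Nat.pow_le_pow_right hN1 hl).trans hk
  rw [← integral_complex_ofReal]
  have e1 : ∀ ω, ((((∑ m ∈ Icc 1 N, A m * χ ω m).re ^ k : ℝ)) : ℂ) = (1 / 2) ^ k * ∑ l ∈ range (k + 1), (k.choose l : ℂ) *
      ((∑ m ∈ Icc 1 (N ^ l), b l m * χ ω m) * (starRingEnd ℂ) (∑ n ∈ Icc 1 (N ^ (k - l)), b (k - l) n * χ ω n)) := by
    intro ω
    have e2 : (((∑ m ∈ Icc 1 N, A m * χ ω m).re : ℝ) : ℂ) = 1 / 2 * ((∑ m ∈ Icc 1 N, A m * χ ω m) +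
        (starRingEnd ℂ) (∑ m ∈ Icc 1 N, A m * χ ω m)) := by
      rw [Complex.add_conj]
      push_cast
      ring
    rw [Complex.ofReal_pow, e2, mul_pow, add_pow]
    congr 1
    refine sum_congr rfl fun l _ => ?_
    rw [← hb l _ (h.one ω) (h.mul ω), ← hb (k - l) _ (h.one ω) (h.mul ω), map_pow]
    ring
  rw [integral_congr_ae (ae_of_all _ e1), integral_const_mul]
  congr 1
  have hi : ∀ l ∈ range (k + 1), Integrable (fun ω => (k.choose l : ℂ) *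
      ((∑ m ∈ Icc 1 (N ^ l), b l m * χ ω m) * (starRingEnd ℂ) (∑ n ∈ Icc 1 (N ^ (k - l)), b (k - l) n * χ ω n))) P := by
    intro l hl
    rw [mem_range] at hl
    refine Integrable.const_mul ?_ _
    refine Integrable.of_bound ?_ ((∑ m ∈ Icc 1 (N ^ l), ‖b l m‖) * ∑ n ∈ Icc 1 (N ^ (k - l)), ‖b (k - l) n‖) (ae_of_all _ fun ω => ?_)
    · exact ((h.meas_poly _ _).mul (Complex.continuous_conj.measurable.comp (h.meas_poly _ _))).aestronglyMeasurable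
    · rw [norm_mul, RCLike.norm_conj]
      exact mul_le_mul (h.norm_le _ (hNl l (by omega)) ω) (h.norm_le _ (hNl (k - l) (by omega)) ω) (norm_nonneg _)
        (sum_nonneg fun _ _ => norm_nonneg _)
  rw [integral_finsetSum _ hi]
  refine sum_congr rfl fun l _ => ?_
  rw [integral_const_mul]

theorem mom_diff (h : CF P χ Z) (h' : CF P' χ' Z) {e : ℝ} (he : 0 ≤ e)
    (hc : ∀ m n : ℕ, 1 ≤ m → m ≤ Z → 1 ≤ n → n ≤ Z → ‖(∫ ω, χ ω m * (starRingEnd ℂ) (χ ω n) ∂P) -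
      ∫ ω, χ' ω m * (starRingEnd ℂ) (χ' ω n) ∂P'‖ ≤ e)
    (A : ℕ → ℂ) {N : ℕ} (hN1 : 1 ≤ N) (k : ℕ) (hk : N ^ k ≤ Z) :
    |(∫ ω, (∑ m ∈ Icc 1 N, A m * χ ω m).re ^ k ∂P) - ∫ ω, (∑ m ∈ Icc 1 N, A m * χ' ω m).re ^ k ∂P'| ≤
      e * (∑ m ∈ Icc 1 N, ‖A m‖) ^ k := by
  choose b hb1 hb2 using pow_poly A N
  have hNl : ∀ l ≤ k, N ^ l ≤ Z := fun l hl => (Nat.pow_le_pow_right hN1 hl).trans hk
  set S := ∑ m ∈ Icc 1 N, ‖A m‖ with hS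
  have hS0 : 0 ≤ S := sum_nonneg fun _ _ => norm_nonneg _
  have e1 : |(∫ ω, (∑ m ∈ Icc 1 N, A m * χ ω m).re ^ k ∂P) - ∫ ω, (∑ m ∈ Icc 1 N, A m * χ' ω m).re ^ k ∂P'| =
      ‖((∫ ω, (∑ m ∈ Icc 1 N, A m * χ ω m).re ^ k ∂P : ℝ) : ℂ) - ((∫ ω, (∑ m ∈ Icc 1 N, A m * χ' ω m).re ^ k ∂P' : ℝ) : ℂ)‖ := by
    rw [← Complex.ofReal_sub, Complex.norm_real, Real.norm_eq_abs]
  rw [e1, h.mom_eq A hN1 k hk b hb1, h'.mom_eq A hN1 k hk b hb1, ← mul_sub, norm_mul, norm_pow, ← sum_sub_distrib]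
  have e2 : ‖∑ l ∈ range (k + 1), ((k.choose l : ℂ) *
      (∫ ω, (∑ m ∈ Icc 1 (N ^ l), b l m * χ ω m) * (starRingEnd ℂ) (∑ n ∈ Icc 1 (N ^ (k - l)), b (k - l) n * χ ω n) ∂P) -
      (k.choose l : ℂ) *
      ∫ ω, (∑ m ∈ Icc 1 (N ^ l), b l m * χ' ω m) * (starRingEnd ℂ) (∑ n ∈ Icc 1 (N ^ (k - l)), b (k - l) n * χ' ω n) ∂P')‖ ≤
      ∑ l ∈ range (k + 1), (k.choose l : ℝ) * (e * S ^ k) := by
    refine (norm_sum_le _ _).trans (sum_le_sum fun l hl => ?_)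
    rw [mem_range] at hl
    rw [← mul_sub, norm_mul, Complex.norm_natCast]
    refine mul_le_mul_of_nonneg_left ?_ (Nat.cast_nonneg _)
    refine (corr_diff h h' hc (b l) (b (k - l)) (hNl l (by omega)) (hNl (k - l) (by omega))).trans ?_
    calc e * (∑ m ∈ Icc 1 (N ^ l), ‖b l m‖) * ∑ n ∈ Icc 1 (N ^ (k - l)), ‖b (k - l) n‖ ≤ e * S ^ l * S ^ (k - l) := by
          refine mul_le_mul ?_ (hb2 (k - l)) (sum_nonneg fun _ _ => norm_nonneg _) (by positivity)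
          exact mul_le_mul_of_nonneg_left (hb2 l) he
      _ = e * S ^ k := by
          rw [mul_assoc, ← pow_add]
          congr 2
          omega
  have e3 : ∑ l ∈ range (k + 1), (k.choose l : ℝ) * (e * S ^ k) = 2 ^ k * (e * S ^ k) := by
    rw [← sum_mul]
    congr 1
    have := Nat.sum_range_choose k
    exact_mod_cast this
  rw [e3] at e2
  have e4 : ‖(1 / 2 : ℂ)‖ = 1 / 2 := by norm_num
  rw [e4]
  calc (1 / 2 : ℝ) ^ k * _ ≤ (1 / 2 : ℝ) ^ k * (2 ^ k * (e * S ^ k)) := mul_le_mul_of_nonneg_left e2 (by positivity)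
    _ = e * S ^ k := by
        rw [← mul_assoc, ← mul_pow]
        norm_num

/-- the characteristic functions of the real parts -/
theorem chf_gen (h : CF P χ Z) (h' : CF P' χ' Z) {e : ℝ} (he : 0 ≤ e)
    (hc : ∀ m n : ℕ, 1 ≤ m → m ≤ Z → 1 ≤ n → n ≤ Z → ‖(∫ ω, χ ω m * (starRingEnd ℂ) (χ ω n) ∂P) -
      ∫ ω, χ' ω m * (starRingEnd ℂ) (χ' ω n) ∂P'‖ ≤ e)
    (A : ℕ → ℂ) {N M : ℕ} (hN1 : 1 ≤ N) (hM : 1 ≤ M) (hk : N ^ (2 * M) ≤ Z) {S0 : ℝ} (hS1 : 1 ≤ S0) (hS : ∑ m ∈ Icc 1 N, ‖A m‖ ≤ S0) :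
    ‖(∫ ω, Complex.exp (Complex.I * ((∑ m ∈ Icc 1 N, A m * χ ω m).re : ℂ)) ∂P) -
      ∫ ω, Complex.exp (Complex.I * ((∑ m ∈ Icc 1 N, A m * χ' ω m).re : ℂ)) ∂P'‖ ≤
      (2 * M + 1) * (e * S0 ^ (2 * M)) + 2 * (∫ ω, (∑ m ∈ Icc 1 N, A m * χ' ω m).re ^ (2 * M) ∂P') / (2 * M).factorial := by
  have hp := h.prob
  have hp' := h'.prob
  have hNl : ∀ l ≤ 2 * M, N ^ l ≤ Z := fun l hl => (Nat.pow_le_pow_right hN1 hl).trans hk
  have hNZ : N ≤ Z := by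
    have := hNl 1 (by omega)
    rwa [pow_one] at this
  set X : Ω → ℝ := fun ω => (∑ m ∈ Icc 1 N, A m * χ ω m).re with hX
  set X' : Ω' → ℝ := fun ω => (∑ m ∈ Icc 1 N, A m * χ' ω m).re with hX'
  have hXi : ∀ k, Integrable (fun ω => X ω ^ k) P := fun k => h.int_pow A hNZ k
  have hXi' : ∀ k, Integrable (fun ω => X' ω ^ k) P' := fun k => h'.int_pow A hNZ k
  have hXm : Measurable X := Complex.measurable_re.comp (h.meas_poly A N)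
  have hXm' : Measurable X' := Complex.measurable_re.comp (h'.meas_poly A N)
  have hdiff : ∀ k ≤ 2 * M, |(∫ ω, X ω ^ k ∂P) - ∫ ω, X' ω ^ k ∂P'| ≤ e * S0 ^ (2 * M) := by
    intro k hk2
    refine (mom_diff h h' he hc A hN1 k (hNl k hk2)).trans (mul_le_mul_of_nonneg_left ?_ he)
    calc (∑ m ∈ Icc 1 N, ‖A m‖) ^ k ≤ S0 ^ k := pow_le_pow_left₀ (sum_nonneg fun _ _ => norm_nonneg _) hS k
      _ ≤ S0 ^ (2 * M) := pow_le_pow_right₀ hS1 hk2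
  have hexp : ∀ {Ω1 : Type} [MeasurableSpace Ω1] {P1 : Measure Ω1} [IsProbabilityMeasure P1] {W : Ω1 → ℝ}, Measurable W →
      Integrable (fun ω => Complex.exp (Complex.I * (W ω : ℂ))) P1 := by
    intro Ω1 _ P1 _ W hW
    refine Integrable.of_bound ?_ 1 (ae_of_all _ fun ω => ?_)
    · exact (Complex.measurable_exp.comp ((Complex.measurable_ofReal.comp hW).const_mul _)).aestronglyMeasurable
    · rw [Complex.norm_exp_I_mul_ofReal]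
  have hT : ∀ {Ω1 : Type} [MeasurableSpace Ω1] {P1 : Measure Ω1} [IsProbabilityMeasure P1] {W : Ω1 → ℝ}, Measurable W →
      (∀ k, Integrable (fun ω => W ω ^ k) P1) →
      Integrable (fun ω => ∑ k ∈ range (2 * M), (Complex.I * (W ω : ℂ)) ^ k / (k.factorial : ℂ)) P1 ∧
      ‖(∫ ω, Complex.exp (Complex.I * (W ω : ℂ)) ∂P1) - ∫ ω, ∑ k ∈ range (2 * M), (Complex.I * (W ω : ℂ)) ^ k / (k.factorial : ℂ) ∂P1‖ ≤
      (∫ ω, W ω ^ (2 * M) ∂P1) / (2 * M).factorial ∧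
      ∫ ω, ∑ k ∈ range (2 * M), (Complex.I * (W ω : ℂ)) ^ k / (k.factorial : ℂ) ∂P1 =
        ∑ k ∈ range (2 * M), Complex.I ^ k / (k.factorial : ℂ) * ((∫ ω, W ω ^ k ∂P1 : ℝ) : ℂ) := by
    intro Ω1 _ P1 _ W hW hWi
    have e1 : ∀ (k : ℕ) (ω : Ω1), (Complex.I * (W ω : ℂ)) ^ k / (k.factorial : ℂ) = Complex.I ^ k / (k.factorial : ℂ) * ((W ω ^ k : ℝ) : ℂ) := by
      intro k ω
      rw [mul_pow]
      push_cast
      ring
    have i1 : ∀ k ∈ range (2 * M), Integrable (fun ω => (Complex.I * (W ω : ℂ)) ^ k / (k.factorial : ℂ)) P1 := by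
      intro k _
      refine (((hWi k).ofReal (𝕜 := ℂ)).const_mul (Complex.I ^ k / (k.factorial : ℂ))).congr (ae_of_all _ fun ω => ?_)
      exact (e1 k ω).symm
    have i2 : Integrable (fun ω => ∑ k ∈ range (2 * M), (Complex.I * (W ω : ℂ)) ^ k / (k.factorial : ℂ)) P1 := integrable_finsetSum _ i1
    refine ⟨i2, ?_, ?_⟩
    · rw [← integral_sub (hexp hW) i2, ← integral_div]
      refine norm_integral_le_of_norm_le ((hWi (2 * M)).div_const _) (ae_of_all _ fun ω => ?_)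
      refine (tay (2 * M) (W ω)).trans (le_of_eq ?_)
      rw [pow_mul, sq_abs, ← pow_mul]
    · rw [integral_finsetSum _ i1]
      refine sum_congr rfl fun k _ => ?_
      rw [integral_congr_ae (ae_of_all _ (e1 k)), integral_const_mul, integral_complex_ofReal]
  obtain ⟨t1, t2, t3⟩ := hT hXm hXi
  obtain ⟨t1', t2', t3'⟩ := hT hXm' hXi'
  have hmid : ‖(∫ ω, ∑ k ∈ range (2 * M), (Complex.I * (X ω : ℂ)) ^ k / (k.factorial : ℂ) ∂P) -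
      ∫ ω, ∑ k ∈ range (2 * M), (Complex.I * (X' ω : ℂ)) ^ k / (k.factorial : ℂ) ∂P'‖ ≤ 2 * M * (e * S0 ^ (2 * M)) := by
    rw [t3, t3', ← sum_sub_distrib]
    refine (norm_sum_le _ _).trans ?_
    have e1 : ∀ k ∈ range (2 * M), ‖Complex.I ^ k / (k.factorial : ℂ) * ((∫ ω, X ω ^ k ∂P : ℝ) : ℂ) -
        Complex.I ^ k / (k.factorial : ℂ) * ((∫ ω, X' ω ^ k ∂P' : ℝ) : ℂ)‖ ≤ e * S0 ^ (2 * M) := by
      intro k hk2
      rw [mem_range] at hk2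
      rw [← mul_sub, ← Complex.ofReal_sub, norm_mul, norm_div, norm_pow, Complex.norm_I, one_pow, Complex.norm_natCast,
        Complex.norm_real, Real.norm_eq_abs]
      have h1 : (1 : ℝ) ≤ (k.factorial : ℝ) := by exact_mod_cast Nat.one_le_iff_ne_zero.2 k.factorial_ne_zero
      have h2 : 1 / (k.factorial : ℝ) ≤ 1 := by
        rw [div_le_one (by linarith)]
        exact h1
      calc 1 / (k.factorial : ℝ) * |(∫ ω, X ω ^ k ∂P) - ∫ ω, X' ω ^ k ∂P'| ≤ 1 * (e * S0 ^ (2 * M)) :=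
            mul_le_mul h2 (hdiff k hk2.le) (abs_nonneg _) (by norm_num)
        _ = _ := one_mul _
    refine (sum_le_sum e1).trans (le_of_eq ?_)
    rw [sum_const, card_range, nsmul_eq_mul]
    push_cast
    ring
  have hf1 : (1 : ℝ) ≤ ((2 * M).factorial : ℝ) := by exact_mod_cast Nat.one_le_iff_ne_zero.2 (2 * M).factorial_ne_zero
  have hf0 : (0 : ℝ) < ((2 * M).factorial : ℝ) := by linarith
  have hb0 : 0 ≤ e * S0 ^ (2 * M) := by positivity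
  have hlast := (abs_le.1 (hdiff (2 * M) le_rfl)).2
  have h3 : (∫ ω, X ω ^ (2 * M) ∂P) / (2 * M).factorial ≤ (∫ ω, X' ω ^ (2 * M) ∂P') / (2 * M).factorial + e * S0 ^ (2 * M) := by
    have : (∫ ω, X ω ^ (2 * M) ∂P) / (2 * M).factorial ≤ ((∫ ω, X' ω ^ (2 * M) ∂P') + e * S0 ^ (2 * M)) / (2 * M).factorial :=
      div_le_div_of_nonneg_right (by linarith) hf0.le
    rw [add_div] at this
    have h4 : e * S0 ^ (2 * M) / ((2 * M).factorial : ℝ) ≤ e * S0 ^ (2 * M) := div_le_self hb0 hf1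
    linarith
  have h5 : (∫ ω, Complex.exp (Complex.I * (X ω : ℂ)) ∂P) - ∫ ω, Complex.exp (Complex.I * (X' ω : ℂ)) ∂P' =
      ((∫ ω, Complex.exp (Complex.I * (X ω : ℂ)) ∂P) - ∫ ω, ∑ k ∈ range (2 * M), (Complex.I * (X ω : ℂ)) ^ k / (k.factorial : ℂ) ∂P) +
      ((∫ ω, ∑ k ∈ range (2 * M), (Complex.I * (X ω : ℂ)) ^ k / (k.factorial : ℂ) ∂P) -
        ∫ ω, ∑ k ∈ range (2 * M), (Complex.I * (X' ω : ℂ)) ^ k / (k.factorial : ℂ) ∂P') +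
      ((∫ ω, ∑ k ∈ range (2 * M), (Complex.I * (X' ω : ℂ)) ^ k / (k.factorial : ℂ) ∂P') -
        ∫ ω, Complex.exp (Complex.I * (X' ω : ℂ)) ∂P') := by ring
  have h6 : ‖(∫ ω, ∑ k ∈ range (2 * M), (Complex.I * (X' ω : ℂ)) ^ k / (k.factorial : ℂ) ∂P') -
        ∫ ω, Complex.exp (Complex.I * (X' ω : ℂ)) ∂P'‖ ≤ (∫ ω, X' ω ^ (2 * M) ∂P') / (2 * M).factorial := by
    rw [norm_sub_rev]
    exact t2'
  rw [h5]
  refine (norm_add_le _ _).trans ?_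
  refine (add_le_add (norm_add_le _ _) h6).trans ?_
  have e7 : 2 * (∫ ω, X' ω ^ (2 * M) ∂P') / ((2 * M).factorial : ℝ) = (∫ ω, X' ω ^ (2 * M) ∂P') / (2 * M).factorial +
      (∫ ω, X' ω ^ (2 * M) ∂P') / (2 * M).factorial := by ring
  have e8 : (2 * (M : ℝ) + 1) * (e * S0 ^ (2 * M)) = 2 * M * (e * S0 ^ (2 * M)) + e * S0 ^ (2 * M) := by ring
  rw [e7, e8]
  linarith

end

end Pool.Agent.DR
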