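import Pool.Agent.Helper56.IT.K1
import Pool.Agent.Helper56.IT.Stmts

/-!
# Project DR (MP_a499ba_nt): full derandomisation, `log log` instead of `log log log`

A family of completely multiplicative unimodular functions `χ_ω` whose correlations up to `Z = Y (150 r)` (`log Z` is a large power
of `log Y (r+1)`) do not see the twists by signs (and quarter turns) behaves like the random model with respect to the smoothed sums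
at scale `[Y r, Y (r+1)]`.
-/

set_option autoImplicit false

namespace Pool.Agent.DR

open Finset MeasureTheory Filter Topology Pool.Agent.Helper5.RM Pool.Agent.Helper96.AF Pool.Agent.Helper66.LW Pool.Agent.IT

/-! ### families -/

/-- the twists: signs at the primes of `T1`, quarter turns at the primes of `T2` -/
noncomputable def gt (T1 T2 : Finset ℕ) (n : ℕ) : ℂ :=
  if n = 0 then 0 else ∏ p ∈ n.primeFactors, ((sg T1 p : ℂ) * (if p ∈ T2 then Complex.I else 1)) ^ n.factorization p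

/-- a family of completely multiplicative functions, unimodular up to `Z`; `tw`: the correlations do not see the twists `gt T1 T2`,
`T2 ∈ Tw`; `ms`: mean square bound -/
structure Fam {Ω : Type} [MeasurableSpace Ω] (P : Measure Ω) (χ : Ω → ℕ → ℂ) (Z : ℕ) (Tw : Set (Finset ℕ)) : Prop where
  prob : IsProbabilityMeasure P
  meas : ∀ n, Measurable fun ω => χ ω n
  one : ∀ ω, χ ω 1 = 1
  mul : ∀ ω m n, χ ω (m * n) = χ ω m * χ ω n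
  norm : ∀ ω n, 1 ≤ n → n ≤ Z → ‖χ ω n‖ = 1
  emp : ∅ ∈ Tw
  tw : ∀ (T1 T2 : Finset ℕ), T2 ∈ Tw → ∀ m n : ℕ, 1 ≤ m → m ≤ Z → 1 ≤ n → n ≤ Z →
    ‖(∫ ω, χ ω m * (starRingEnd ℂ) (χ ω n) ∂P) * (gt T1 T2 m * (starRingEnd ℂ) (gt T1 T2 n) - 1)‖ ≤ 2 / (Z : ℝ)
  ms : ∀ (γ : ℕ → ℂ) (c : ℝ), 0 ≤ c → (∀ n : ℕ, 1 ≤ n → ‖γ n‖ ≤ c / Real.sqrt n) → ∀ N : ℕ, 1 ≤ N → N ^ 3 ≤ Z →
    ∫ ω, ‖∑ n ∈ Finset.Icc 1 N, γ n * χ ω n‖ ^ 2 ∂P ≤ c ^ 2 * (2 + Real.log N) ^ 4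

/-- completely multiplicative and unimodular -/
structure CMU (g : ℕ → ℂ) : Prop where
  one : g 1 = 1
  mul : ∀ m n, g (m * n) = g m * g n
  norm : ∀ n, 1 ≤ n → ‖g n‖ = 1

/-- `a` has the logarithm `α`: `a log = a * (α log)` (Dirichlet convolution) and `|α(n)| log n ≤ Λ(n)` -/
structure LogC (a α : ℕ → ℂ) : Prop where
  one : a 1 = 1
  norm_le : ∀ n, ‖a n‖ ≤ 1
  al0 : α 0 = 0
  al1 : α 1 = 0
  al_le : ∀ n, ‖α n‖ * Real.log n ≤ ArithmeticFunction.vonMangoldt n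
  conv : ∀ n : ℕ, 1 ≤ n → a n * (Real.log n : ℂ) = ∑ d ∈ n.divisors, a (n / d) * (α d * (Real.log d : ℂ))

/-! ### the coordinates and the functionals -/

/-- the smoothed sums of `f` around `Ur r + i`, over the range `[Y r, Y (r+1)]` -/
noncomputable def SS (K : Ker) (r : ℕ) (f : ℕ → ℂ) (i : ℕ) : ℂ :=
  ∫ v in (Vr r)..(2 * Vr r), Ac f v * (kf K r (Ur r + i) v : ℂ)

/-- the coordinates `∑_{m ≤ Y (r+1)} α(m) g(m) m^{-(1/2 + sr r + iτ)}` -/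
noncomputable def PS (r : ℕ) (α g : ℕ → ℂ) (τ : ℝ) : ℂ :=
  ∑ m ∈ Finset.Icc 1 (Y (r + 1)), α m * g m * (m : ℂ) ^ (-(((1 / 2 + sr r : ℝ) : ℂ) + Complex.I * (τ : ℂ)))

/-- the truncated exponential -/
noncomputable def TE (r : ℕ) (z : ℂ) : ℂ := ∑ k ∈ Finset.range (2 ^ (r + 1) + 1), z ^ k / (k.factorial : ℂ)

/-- number of grid points -/
def NG (r : ℕ) : ℕ := 2 ^ (20 * r)

/-- grid points in `[-1/4, 1/4)` -/
noncomputable def tj (r j : ℕ) : ℝ := -1 / 4 + j / (2 * NG r)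

/-- the coefficients of the functional -/
noncomputable def cij (K : Ker) (r i j : ℕ) : ℂ :=
  ((Real.exp (sr r * Ur r) * K.ρ (tj r j) / (2 * NG r) : ℝ) : ℂ) * Complex.exp (Complex.I * ((tj r j * (Ur r + i) : ℝ) : ℂ)) /
    (((1 / 2 + sr r : ℝ) : ℂ) + Complex.I * (tj r j : ℂ))

/-- the smoothed sums as functions of the coordinates -/
noncomputable def PH (K : Ker) (r : ℕ) (z : ℕ → ℂ) (i : ℕ) : ℂ := ∑ j ∈ Finset.range (NG r), cij K r i j * TE r (z j)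

/-! ### the blocks -/

/-- block BD: a bound for the sums gives a bound for the smoothed sums -/
def StmtBD : Prop := ∀ K : Ker, ∃ C : ℝ, 0 < C ∧ ∃ r0 : ℕ, ∀ r : ℕ, r0 ≤ r → ∀ (f : ℕ → ℂ) (lam : ℝ), 0 ≤ lam →
  (∀ n : ℕ, 1 ≤ n → n ≤ Y (r + 1) → (Hc f n).re ≤ lam * Real.sqrt n) → ∀ i : ℕ, (i : ℝ) ≤ 1 / sr r → (SS K r f i).re ≤ C * lam

/-- block GS: the model at the level of the smoothed sums (from `stmtD_of`, `stmtG_of` without the step `StmtZ`) -/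
def StmtGS (f : (ℕ → ℝ) → Finset ℕ → ℕ → ℂ) : Prop := ∀ (K : Ker) (δ η C0 : ℝ), 0 < δ → 0 < η → 0 < C0 → ∃ r0 : ℕ, ∀ r : ℕ, r0 ≤ r →
  ∀ ph : ℕ → ℝ, av (PP (Y (r + 1))) (fun T2 => pr (PP (Y (r + 1))) (fun T1 => ∀ i : ℕ, (i : ℝ) ≤ 1 / sr r →
    (SS K r (f (tt ph T2) T1) i).re ≤ C0 * (r : ℝ) ^ (1 / 4 - δ))) ≤ η

/-- block SER: the smoothed sums and the functionals of the coordinates differ by a short Dirichlet polynomial with tiny coefficients -/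
def StmtSER (a α : ℕ → ℂ) : Prop := ∀ K : Ker, ∃ r0 : ℕ, ∀ r : ℕ, r0 ≤ r → ∀ i : ℕ, (i : ℝ) ≤ 1 / sr r → ∃ γ : ℕ → ℂ,
  (∀ n : ℕ, 1 ≤ n → ‖γ n‖ ≤ 1 / (Vr r ^ 8 * Real.sqrt n)) ∧
  ∀ g : ℕ → ℂ, g 1 = 1 → (∀ m n, g (m * n) = g m * g n) →
    SS K r (fun n => a n * g n) i - PH K r (fun j => PS r α g (tj r j)) i = ∑ n ∈ Finset.Icc 1 (Y (2 * r + 2)), γ n * g n

/-- block APX: the smoothed sums are functionals of the coordinates outside a small set, for every twist -/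
def StmtAPX (a α : ℕ → ℂ) : Prop := ∀ (K : Ker) (η : ℝ), 0 < η → ∃ r0 : ℕ, ∀ r : ℕ, r0 ≤ r → ∀ (Ω : Type) [MeasurableSpace Ω]
  (P : Measure Ω) (χ : Ω → ℕ → ℂ) (Tw : Set (Finset ℕ)), Fam P χ (Y (150 * r)) Tw → ∀ g : ℕ → ℂ, CMU g →
    P.real {ω | ∃ i : ℕ, (i : ℝ) ≤ 1 / sr r ∧ 1 < ‖SS K r (fun n => a n * (χ ω n * g n)) i -
      PH K r (fun j => PS r α (fun n => χ ω n * g n) (tj r j)) i‖} ≤ η

/-- block SUB: the coordinates are at most `20 r` outside a small set -/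
def StmtSUB (a α : ℕ → ℂ) : Prop := LogC a α → ∀ η : ℝ, 0 < η → ∃ r0 : ℕ, ∀ r : ℕ, r0 ≤ r → ∀ (Ω : Type) [MeasurableSpace Ω]
  (P : Measure Ω) (χ : Ω → ℕ → ℂ) (Tw : Set (Finset ℕ)), Fam P χ (Y (150 * r)) Tw →
    P.real {ω | ∃ j : ℕ, j < NG r ∧ 20 * (r : ℝ) < ‖PS r α (χ ω) (tj r j)‖} ≤ η

/-- a real linear form of the coordinates -/
noncomputable def LF (r : ℕ) (α : ℕ → ℂ) (ξ : ℕ → ℂ) (g : ℕ → ℂ) : ℝ := ∑ j ∈ Finset.range (NG r), ((starRingEnd ℂ) (ξ j) * PS r α g (tj r j)).re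

/-- block CHF: the characteristic functions with and without twist are close -/
def StmtCHF (a α : ℕ → ℂ) : Prop := LogC a α → ∃ r0 : ℕ, ∀ r : ℕ, r0 ≤ r → ∀ (Ω : Type) [MeasurableSpace Ω]
  (P : Measure Ω) (χ : Ω → ℕ → ℂ) (Tw : Set (Finset ℕ)), Fam P χ (Y (150 * r)) Tw → ∀ (T1 T2 : Finset ℕ), T2 ∈ Tw →
  ∀ ξ : ℕ → ℂ, (∀ j, ‖ξ j‖ ≤ 2 ^ (40 * r)) →
    ‖(∫ ω, Complex.exp (Complex.I * (LF r α ξ (χ ω) : ℂ)) ∂P) -
      ∫ ω, Complex.exp (Complex.I * (LF r α ξ (fun n => χ ω n * gt T1 T2 n) : ℂ)) ∂P‖ ≤ Real.exp (-((2 : ℝ) ^ (22 * r)))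

/-- block SMO: closeness of the characteristic functions on a box gives closeness of the laws up to small neighbourhoods -/
def StmtSMO : Prop := ∀ K : Ker, ∃ C : ℝ, 0 < C ∧ ∀ (N : ℕ) (R h L ε : ℝ), 0 < R → 0 < h → h ≤ 1 → 1 ≤ L → 0 ≤ ε →
  ∀ (μ ν : Measure (Fin N → ℝ)), IsProbabilityMeasure μ → IsProbabilityMeasure ν →
  (∀ ξ : Fin N → ℝ, (∀ k, |ξ k| ≤ R) → ‖(∫ y, Complex.exp (Complex.I * ((∑ k, ξ k * y k : ℝ) : ℂ)) ∂μ) -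
    ∫ y, Complex.exp (Complex.I * ((∑ k, ξ k * y k : ℝ) : ℂ)) ∂ν‖ ≤ ε) →
  ∀ A B : Set (Fin N → ℝ), MeasurableSet A → MeasurableSet B → (∀ y ∈ A, ∀ k, |y k| ≤ L) →
    (∀ y ∈ A, ∀ y' : Fin N → ℝ, (∀ k, |y' k - y k| ≤ 2 * h) → y' ∈ B) →
    μ.real A ≤ ν.real B + C * N / (R * h) ^ 10 + (C * R * L) ^ N * ε

/-- block T0: the transfer, one-sided, for one twist -/
def StmtT0 (a α : ℕ → ℂ) : Prop := ∀ (K : Ker) (η : ℝ), 0 < η → ∃ C : ℝ, 0 < C ∧ ∃ r0 : ℕ, ∀ r : ℕ, r0 ≤ r →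
  ∀ (Ω : Type) [MeasurableSpace Ω] (P : Measure Ω) (χ : Ω → ℕ → ℂ) (Tw : Set (Finset ℕ)), Fam P χ (Y (150 * r)) Tw →
  ∀ (T1 T2 : Finset ℕ), T2 ∈ Tw → ∀ c : ℂ, ‖c‖ = 1 → ∀ lam : ℝ, 0 ≤ lam →
    P.real {ω | ∀ n : ℕ, 1 ≤ n → n ≤ Y (r + 1) → (c * Hc (fun n => a n * χ ω n) n).re ≤ lam * Real.sqrt n} ≤
    P.real {ω | ∀ i : ℕ, (i : ℝ) ≤ 1 / sr r → (c * SS K r (fun n => a n * (χ ω n * gt T1 T2 n)) i).re ≤ C * lam + 3} + η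

/-- block MOD: the model belongs to the coefficients, `f = a χ g` for the base point given by `-χ(p)` -/
def StmtMOD (f : (ℕ → ℝ) → Finset ℕ → ℕ → ℂ) (a : ℕ → ℂ) : Prop := ∀ (χ : ℕ → ℂ) (N : ℕ), χ 1 = 1 → (∀ m n, χ (m * n) = χ m * χ n) →
  (∀ n, 1 ≤ n → n ≤ N → ‖χ n‖ = 1) → ∃ ph : ℕ → ℝ, ∀ (T1 T2 : Finset ℕ) (n : ℕ), 1 ≤ n → n ≤ N → f (tt ph T2) T1 n = a n * (χ n * gt T1 T2 n)

/-- the main theorem of the transfer (complex families) -/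
def StmtTR (a : ℕ → ℂ) : Prop := ∀ (δ η : ℝ), 0 < δ → 0 < η → ∃ r0 : ℕ, ∀ r : ℕ, r0 ≤ r → ∀ (Ω : Type) [MeasurableSpace Ω]
  (P : Measure Ω) (χ : Ω → ℕ → ℂ), Fam P χ (Y (150 * r)) Set.univ →
    P.real {ω | ∀ n : ℕ, 1 ≤ n → n ≤ Y (r + 1) → (Hc (fun n => a n * χ ω n) n).re ≤ (r : ℝ) ^ (1 / 4 - δ) * Real.sqrt n} ≤ η

/-- imaginary twists: `(log log H)^{1/4-δ}`, from `StmtTR` -/
def StmtKLL (a : ℕ → ℂ) : Prop := ∀ (δ η : ℝ), 0 < δ → 0 < η → ∃ H0 : ℝ, ∀ H : ℝ, H0 ≤ H → ∀ U : ℝ,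
  volume {t : ℝ | U ≤ t ∧ t ≤ U + H ∧ ∀ n : ℕ, 1 ≤ n → (n : ℝ) ≤ Real.sqrt H →
    ‖Sw a t n‖ ≤ Real.log (Real.log H) ^ (1 / 4 - δ) * Real.sqrt n} ≤ ENNReal.ofReal (η * H)

end Pool.Agent.DR
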