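import Pool.Agent.Helper5.DR.Defs

/-!
# Project DR (MP_a499ba_nt), block SMO: smoothing in many dimensions
-/

set_option autoImplicit false

namespace Pool.Agent.DR

open MeasureTheory Filter Topology Pool.Agent.Helper66.LW

theorem w_int5 (K : Ker) : Integrable K.w := by
  obtain ⟨C, hC, hw⟩ := K.w_dec
  refine Integrable.mono' ((integrable_inv_one_add_sq).const_mul C) K.w_cont.aestronglyMeasurable (ae_of_all _ fun x => ?_)
  rw [Real.norm_eq_abs, abs_of_nonneg (K.w_nonneg x)]
  refine (hw x).trans ?_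
  rw [div_eq_mul_inv]
  refine mul_le_mul_of_nonneg_left ?_ hC.le
  apply inv_anti₀ (by positivity)
  have h0 : 0 ≤ |x| := abs_nonneg x
  calc 1 + x ^ 2 = 1 + |x| ^ 2 := by rw [sq_abs]
    _ ≤ (1 + |x|) ^ 2 := by nlinarith
    _ ≤ (1 + |x|) ^ 12 := pow_le_pow_right₀ (by linarith) (by norm_num)

theorem rho_int5 (K : Ker) : Integrable K.ρ := by
  have hc : HasCompactSupport K.ρ := by
    refine HasCompactSupport.intro (isCompact_Icc (a := -(1 / 4 : ℝ)) (b := 1 / 4)) fun x hx => K.ρ_supp x ?_
    by_contra h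
    push Not at h
    exact hx ⟨by linarith [(abs_lt.1 h).1], by linarith [(abs_lt.1 h).2]⟩
  exact K.ρ_smooth.continuous.integrable_of_hasCompactSupport hc

theorem rho_pos5 (K : Ker) : 0 < ∫ t, K.ρ t := by
  rw [integral_pos_iff_support_of_nonneg K.ρ_nonneg (rho_int5 K)]
  refine IsOpen.measure_pos _ (K.ρ_smooth.continuous.isOpen_support) ?_
  obtain ⟨c, hc, h⟩ := K.ρ_pos
  exact ⟨0, by
    rw [Function.mem_support]
    have := h 0 (by norm_num)
    linarith⟩

theorem w_zero5 (K : Ker) : K.w 0 = ∫ t, K.ρ t := by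
  have h := K.w_eq 0
  simp only [mul_zero, Complex.ofReal_zero, Complex.exp_zero, mul_one] at h
  rw [integral_complex_ofReal] at h
  exact_mod_cast h

theorem w_pos5 (K : Ker) : 0 < ∫ t, K.w t := by
  rw [integral_pos_iff_support_of_nonneg K.w_nonneg (w_int5 K)]
  refine IsOpen.measure_pos _ (K.w_cont.isOpen_support) ⟨0, ?_⟩
  rw [Function.mem_support, w_zero5]
  exact (rho_pos5 K).ne'

/-- the scaled kernel of mass one, with frequencies at most `R` -/
noncomputable def kap (K : Ker) (R x : ℝ) : ℝ := 4 * R / (∫ y, K.w y) * K.w (4 * R * x)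

theorem kap_nonneg (K : Ker) {R : ℝ} (hR : 0 < R) (x : ℝ) : 0 ≤ kap K R x :=
  mul_nonneg (div_nonneg (by positivity) (w_pos5 K).le) (K.w_nonneg _)

theorem kap_cont (K : Ker) (R : ℝ) : Continuous (kap K R) := by
  unfold kap
  have := K.w_cont
  fun_prop

theorem kap_int (K : Ker) {R : ℝ} (hR : 0 < R) : Integrable (kap K R) := by
  unfold kap
  exact ((w_int5 K).comp_mul_left' (by positivity : (4 * R : ℝ) ≠ 0)).const_mul _

theorem kap_one (K : Ker) {R : ℝ} (hR : 0 < R) : ∫ x, kap K R x = 1 := by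
  unfold kap
  rw [integral_const_mul, Measure.integral_comp_mul_left (fun x => K.w x) (4 * R), abs_of_pos (by positivity), smul_eq_mul]
  have := (w_pos5 K).ne'
  field_simp

theorem kap_tail (K : Ker) : ∃ C : ℝ, 0 < C ∧ ∀ (R h : ℝ), 0 < R → 0 < h →
    ∫ x, Set.indicator {x | h ≤ |x|} (kap K R) x ≤ C / (R * h) ^ 10 := by
  obtain ⟨C, hC, hw⟩ := K.w_dec
  have hI := w_pos5 K
  refine ⟨C * Real.pi / (∫ y, K.w y), by positivity, fun R h hR hh => ?_⟩
  have h4 : (0 : ℝ) < 4 * R := by positivity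
  have hg : Integrable fun x : ℝ => (C / ((∫ y, K.w y) * (4 * R * h) ^ 10)) * ((4 * R) * (1 + (4 * R * x) ^ 2)⁻¹) := by
    refine Integrable.const_mul (Integrable.const_mul ?_ _) _
    exact integrable_inv_one_add_sq.comp_mul_left' h4.ne'
  refine (integral_mono_of_nonneg (ae_of_all _ fun x => Set.indicator_nonneg (fun x _ => kap_nonneg K hR x) x) hg
    (ae_of_all _ fun x => ?_)).trans ?_
  · by_cases hx : h ≤ |x|
    · simp only [Set.indicator, Set.mem_ofPred_eq, hx, if_true]
      unfold kap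
      have h1 : K.w (4 * R * x) ≤ C / ((4 * R * h) ^ 10 * (1 + (4 * R * x) ^ 2)) := by
        refine (hw _).trans (div_le_div_of_nonneg_left hC.le (by positivity) ?_)
        rw [abs_mul, abs_of_pos h4]
        have h2 : (4 * R * x) ^ 2 = (4 * R * |x|) ^ 2 := by rw [mul_pow, mul_pow _ |x|, sq_abs]
        rw [h2]
        have h3 : 0 ≤ 4 * R * |x| := by positivity
        have h5 : 4 * R * h ≤ 1 + 4 * R * |x| := by nlinarith
        calc (4 * R * h) ^ 10 * (1 + (4 * R * |x|) ^ 2) ≤ (1 + 4 * R * |x|) ^ 10 * (1 + 4 * R * |x|) ^ 2 := by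
              apply mul_le_mul
              · exact pow_le_pow_left₀ (by positivity) h5 10
              · nlinarith
              · positivity
              · positivity
          _ = (1 + 4 * R * |x|) ^ 12 := by ring
      calc 4 * R / (∫ y, K.w y) * K.w (4 * R * x) ≤ 4 * R / (∫ y, K.w y) * (C / ((4 * R * h) ^ 10 * (1 + (4 * R * x) ^ 2))) :=
            mul_le_mul_of_nonneg_left h1 (by positivity)
        _ = _ := by
            field_simp
    · simp only [Set.indicator, Set.mem_ofPred_eq, hx, if_false]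
      positivity
  · rw [integral_const_mul, integral_const_mul, Measure.integral_comp_mul_left (fun x : ℝ => (1 + x ^ 2)⁻¹) (4 * R),
      integral_univ_inv_one_add_sq, abs_of_pos (by positivity), smul_eq_mul]
    have h5 : C / ((∫ y, K.w y) * (4 * R * h) ^ 10) * (4 * R * ((4 * R)⁻¹ * Real.pi)) =
        C * Real.pi / (∫ y, K.w y) / (4 * R * h) ^ 10 := by
      field_simp
    rw [h5]
    apply div_le_div_of_nonneg_left (by positivity) (by positivity)
    apply pow_le_pow_left₀ (by positivity)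
    nlinarith [mul_pos hR hh]

theorem kap_eq (K : Ker) (R x : ℝ) : (kap K R x : ℂ) = ((4 * R / (∫ y, K.w y) : ℝ) : ℂ) *
    ∫ t : ℝ, (K.ρ t : ℂ) * Complex.exp (Complex.I * (t * (4 * R * x))) := by
  unfold kap
  rw [Complex.ofReal_mul, K.w_eq (4 * R * x)]
  push_cast
  rfl

/-- the product kernel -/
noncomputable def kapN (K : Ker) (R : ℝ) {N : ℕ} (y : Fin N → ℝ) : ℝ := ∏ k, kap K R (y k)

theorem kapN_nonneg (K : Ker) {R : ℝ} (hR : 0 < R) {N : ℕ} (y : Fin N → ℝ) : 0 ≤ kapN K R y :=
  Finset.prod_nonneg fun _ _ => kap_nonneg K hR _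

theorem kapN_cont (K : Ker) (R : ℝ) (N : ℕ) : Continuous (kapN K R (N := N)) := by
  unfold kapN
  exact continuous_finsetProd _ fun k _ => (kap_cont K R).comp (continuous_apply k)

theorem kapN_int (K : Ker) {R : ℝ} (hR : 0 < R) (N : ℕ) : Integrable (kapN K R (N := N)) := by
  unfold kapN
  exact Integrable.fintype_prod fun _ => kap_int K hR

theorem kapN_one (K : Ker) {R : ℝ} (hR : 0 < R) (N : ℕ) : ∫ y : Fin N → ℝ, kapN K R y = 1 := by
  unfold kapN
  rw [integral_fintype_prod_volume_eq_prod (fun _ => kap K R)]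
  simp [kap_one K hR]

/-- the mass of the product kernel off the cube -/
theorem kapN_tail (K : Ker) {R h τ : ℝ} (hR : 0 < R) (hτ : ∫ x, Set.indicator {x | h ≤ |x|} (kap K R) x ≤ τ) (N : ℕ) :
    ∫ y : Fin N → ℝ, Set.indicator {y | ∃ k, h ≤ |y k|} (kapN K R) y ≤ N * τ := by
  classical
  have hm : MeasurableSet {x : ℝ | h ≤ |x|} := measurableSet_le measurable_const measurable_id.abs
  have e1 : ∀ (k : Fin N) (y : Fin N → ℝ), (∏ j, (if j = k then Set.indicator {x | h ≤ |x|} (kap K R) (y j) else kap K R (y j))) =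
      if h ≤ |y k| then kapN K R y else 0 := by
    intro k y
    by_cases hk : h ≤ |y k|
    · rw [if_pos hk]
      unfold kapN
      refine Finset.prod_congr rfl fun j _ => ?_
      split_ifs with hj
      · rw [hj, Set.indicator_of_mem (show y k ∈ {x : ℝ | h ≤ |x|} from hk)]
      · rfl
    · rw [if_neg hk]
      apply Finset.prod_eq_zero (Finset.mem_univ k)
      rw [if_pos rfl, Set.indicator_of_notMem (show y k ∉ {x : ℝ | h ≤ |x|} from hk)]
  have i1 : ∀ k : Fin N, Integrable fun y : Fin N → ℝ => if h ≤ |y k| then kapN K R y else 0 := by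
    intro k
    have := Integrable.fintype_prod_dep (𝕜 := ℝ) (μ := fun _ : Fin N => (volume : Measure ℝ))
      (f := fun j : Fin N => if j = k then Set.indicator {x | h ≤ |x|} (kap K R) else kap K R) (fun j => by
        split_ifs
        · exact (kap_int K hR).indicator hm
        · exact kap_int K hR)
    refine this.congr (ae_of_all _ fun y => ?_)
    beta_reduce
    rw [← e1 k y]
    refine Finset.prod_congr rfl fun j _ => ?_
    split_ifs <;> rfl
  have e2 : ∀ k : Fin N, ∫ y : Fin N → ℝ, (if h ≤ |y k| then kapN K R y else 0) ≤ τ := by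
    intro k
    have h1 : ∫ y : Fin N → ℝ, (if h ≤ |y k| then kapN K R y else 0) =
        ∫ y : Fin N → ℝ, ∏ j, (if j = k then Set.indicator {x | h ≤ |x|} (kap K R) else kap K R) (y j) := by
      refine integral_congr_ae (ae_of_all _ fun y => ?_)
      beta_reduce
      rw [← e1 k y]
      refine Finset.prod_congr rfl fun j _ => ?_
      split_ifs <;> rfl
    rw [h1, integral_fintype_prod_volume_eq_prod (fun j : Fin N => if j = k then Set.indicator {x | h ≤ |x|} (kap K R) else kap K R)]
    rw [Finset.prod_eq_single k]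
    · rw [if_pos rfl]
      exact hτ
    · intro j _ hj
      rw [if_neg hj, kap_one K hR]
    · intro hk
      exact absurd (Finset.mem_univ k) hk
  calc ∫ y : Fin N → ℝ, Set.indicator {y | ∃ k, h ≤ |y k|} (kapN K R) y ≤
        ∫ y : Fin N → ℝ, ∑ k, (if h ≤ |y k| then kapN K R y else 0) := by
        refine integral_mono_of_nonneg (ae_of_all _ fun y => Set.indicator_nonneg (fun y _ => kapN_nonneg K hR y) y)
          (integrable_finsetSum _ fun k _ => i1 k) (ae_of_all _ fun y => ?_)
        beta_reduce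
        have h0 : ∀ k : Fin N, 0 ≤ (if h ≤ |y k| then kapN K R y else 0) := by
          intro k
          split_ifs
          · exact kapN_nonneg K hR y
          · exact le_rfl
        by_cases hy : ∃ k, h ≤ |y k|
        · obtain ⟨k, hk⟩ := hy
          rw [Set.indicator_of_mem (show y ∈ {y : Fin N → ℝ | ∃ k, h ≤ |y k|} from ⟨k, hk⟩)]
          refine le_trans ?_ (Finset.single_le_sum (fun k _ => h0 k) (Finset.mem_univ k))
          rw [if_pos hk]
        · rw [Set.indicator_of_notMem (show y ∉ {y : Fin N → ℝ | ∃ k, h ≤ |y k|} from hy)]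
          exact Finset.sum_nonneg fun k _ => h0 k
    _ = ∑ k, ∫ y : Fin N → ℝ, (if h ≤ |y k| then kapN K R y else 0) := integral_finsetSum _ fun k _ => i1 k
    _ ≤ ∑ _k : Fin N, τ := Finset.sum_le_sum fun k _ => e2 k
    _ = N * τ := by simp

/-- the Fourier side: the smoothed densities of two laws with close characteristic functions are close -/
theorem kapN_close (K : Ker) {R ε : ℝ} (hR : 0 < R) {N : ℕ} {μ ν : Measure (Fin N → ℝ)} [IsProbabilityMeasure μ] [IsProbabilityMeasure ν]
    (hε : ∀ ξ : Fin N → ℝ, (∀ k, |ξ k| ≤ R) → ‖(∫ y, Complex.exp (Complex.I * ((∑ k, ξ k * y k : ℝ) : ℂ)) ∂μ) -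
      ∫ y, Complex.exp (Complex.I * ((∑ k, ξ k * y k : ℝ) : ℂ)) ∂ν‖ ≤ ε) (y : Fin N → ℝ) :
    |(∫ z, kapN K R (y - z) ∂μ) - ∫ z, kapN K R (y - z) ∂ν| ≤ (4 * R * (∫ t, K.ρ t) / (∫ t, K.w t)) ^ N * ε := by
  have hI := w_pos5 K
  set c : ℝ := 4 * R / (∫ y, K.w y) with hc
  have hc0 : 0 < c := by positivity
  set F : (Fin N → ℝ) → ℂ := fun t => ∏ k, ((K.ρ (t k) : ℂ) * Complex.exp (Complex.I * (t k * (4 * R * y k)))) with hF
  have hFi : Integrable F := by
    refine Integrable.fintype_prod_dep (𝕜 := ℂ) (f := fun (k : Fin N) (s : ℝ) => (K.ρ s : ℂ) * Complex.exp (Complex.I * (s * (4 * R * y k))))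
      (fun k => ?_)
    refine ((rho_int5 K).ofReal (𝕜 := ℂ)).mono ?_ (ae_of_all _ fun s => ?_)
    · have := K.ρ_smooth.continuous
      exact (by fun_prop : Continuous fun s : ℝ => (K.ρ s : ℂ) * Complex.exp (Complex.I * (s * (4 * R * y k)))).aestronglyMeasurable
    · rw [norm_mul, show Complex.I * ((s : ℂ) * (4 * R * (y k : ℂ))) = Complex.I * ((s * (4 * R * y k) : ℝ) : ℂ) by push_cast; ring,
        mul_comm Complex.I, Complex.norm_exp_ofReal_mul_I, mul_one]
      rfl
  have hrho : Integrable fun t : Fin N → ℝ => ∏ k, K.ρ (t k) := Integrable.fintype_prod fun _ => rho_int5 K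
  -- the formula for the kernel
  have e1 : ∀ z : Fin N → ℝ, (kapN K R (y - z) : ℂ) = (c : ℂ) ^ N *
      ∫ t : Fin N → ℝ, F t * Complex.exp (Complex.I * ((∑ k, (-(4 * R * t k)) * z k : ℝ) : ℂ)) := by
    intro z
    unfold kapN
    rw [Complex.ofReal_prod]
    have h1 : ∀ k : Fin N, (kap K R ((y - z) k) : ℂ) = (c : ℂ) * ∫ t : ℝ, (K.ρ t : ℂ) * Complex.exp (Complex.I * (t * (4 * R * (y k - z k : ℝ)))) := by
      intro k
      rw [kap_eq]
      simp only [Pi.sub_apply]
      rfl
    rw [Finset.prod_congr rfl fun k _ => h1 k, Finset.prod_mul_distrib, Finset.prod_const, Finset.card_univ, Fintype.card_fin,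
      ← integral_fintype_prod_volume_eq_prod (fun (k : Fin N) (s : ℝ) => (K.ρ s : ℂ) * Complex.exp (Complex.I * (s * (4 * R * (y k - z k : ℝ)))))]
    congr 1
    refine integral_congr_ae (ae_of_all _ fun t => ?_)
    beta_reduce
    rw [hF]
    simp only
    rw [Complex.ofReal_sum, Finset.mul_sum, Complex.exp_sum, ← Finset.prod_mul_distrib]
    refine Finset.prod_congr rfl fun k _ => ?_
    rw [mul_assoc (K.ρ (t k) : ℂ), ← Complex.exp_add]
    congr 2
    push_cast
    ring
  have e2 : ∀ (m : Measure (Fin N → ℝ)) [IsProbabilityMeasure m], ((∫ z, kapN K R (y - z) ∂m : ℝ) : ℂ) = (c : ℂ) ^ N *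
      ∫ t : Fin N → ℝ, F t * ∫ z, Complex.exp (Complex.I * ((∑ k, (-(4 * R * t k)) * z k : ℝ) : ℂ)) ∂m := by
    intro m _
    rw [← integral_complex_ofReal, integral_congr_ae (ae_of_all _ e1), integral_const_mul]
    congr 1
    rw [integral_integral_swap]
    · refine integral_congr_ae (ae_of_all _ fun t => ?_)
      beta_reduce
      rw [integral_const_mul]
    · refine (hFi.norm.comp_snd m).mono ?_ (ae_of_all _ fun p => ?_)
      · refine AEStronglyMeasurable.mul (hFi.aestronglyMeasurable.comp_snd) ?_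
        refine Continuous.aestronglyMeasurable ?_
        fun_prop
      · simp only [Function.uncurry]
        rw [norm_mul, mul_comm Complex.I, Complex.norm_exp_ofReal_mul_I, mul_one, norm_norm]
  have e3 : (((∫ z, kapN K R (y - z) ∂μ) - ∫ z, kapN K R (y - z) ∂ν : ℝ) : ℂ) = (c : ℂ) ^ N *
      ∫ t : Fin N → ℝ, F t * ((∫ z, Complex.exp (Complex.I * ((∑ k, (-(4 * R * t k)) * z k : ℝ) : ℂ)) ∂μ) -
        ∫ z, Complex.exp (Complex.I * ((∑ k, (-(4 * R * t k)) * z k : ℝ) : ℂ)) ∂ν) := by
    rw [Complex.ofReal_sub, e2 μ, e2 ν, ← mul_sub]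
    congr 1
    have hi : ∀ (m : Measure (Fin N → ℝ)) [IsProbabilityMeasure m],
        Integrable fun t : Fin N → ℝ => F t * ∫ z, Complex.exp (Complex.I * ((∑ k, (-(4 * R * t k)) * z k : ℝ) : ℂ)) ∂m := by
      intro m _
      refine hFi.mono ?_ (ae_of_all _ fun t => ?_)
      · refine hFi.aestronglyMeasurable.mul ?_
        have h2 : StronglyMeasurable (Function.uncurry fun (t z : Fin N → ℝ) =>
            Complex.exp (Complex.I * ((∑ k, (-(4 * R * t k)) * z k : ℝ) : ℂ))) := by
          refine Continuous.stronglyMeasurable ?_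
          unfold Function.uncurry
          fun_prop
        exact (h2.integral_prod_right' (ν := m)).aestronglyMeasurable
      · rw [norm_mul]
        have h3 : ‖∫ z, Complex.exp (Complex.I * ((∑ k, (-(4 * R * t k)) * z k : ℝ) : ℂ)) ∂m‖ ≤ 1 := by
          refine (norm_integral_le_of_norm_le_const (C := 1) (ae_of_all _ fun z => ?_)).trans (by simp)
          rw [mul_comm Complex.I, Complex.norm_exp_ofReal_mul_I]
        calc ‖F t‖ * _ ≤ ‖F t‖ * 1 := mul_le_mul_of_nonneg_left h3 (norm_nonneg _)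
          _ = ‖F t‖ := mul_one _
    rw [← integral_sub (hi μ) (hi ν)]
    refine integral_congr_ae (ae_of_all _ fun t => ?_)
    beta_reduce
    ring
  have e4 : |(∫ z, kapN K R (y - z) ∂μ) - ∫ z, kapN K R (y - z) ∂ν| =
      ‖(((∫ z, kapN K R (y - z) ∂μ) - ∫ z, kapN K R (y - z) ∂ν : ℝ) : ℂ)‖ := (Complex.norm_real _).symm
  rw [e4, e3, norm_mul, norm_pow, Complex.norm_real, Real.norm_eq_abs, abs_of_pos hc0]
  have e5 : ‖∫ t : Fin N → ℝ, F t * ((∫ z, Complex.exp (Complex.I * ((∑ k, (-(4 * R * t k)) * z k : ℝ) : ℂ)) ∂μ) -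
        ∫ z, Complex.exp (Complex.I * ((∑ k, (-(4 * R * t k)) * z k : ℝ) : ℂ)) ∂ν)‖ ≤ ∫ t : Fin N → ℝ, (∏ k, K.ρ (t k)) * ε := by
    refine norm_integral_le_of_norm_le (hrho.mul_const ε) (ae_of_all _ fun t => ?_)
    rw [norm_mul]
    have h1 : ‖F t‖ = ∏ k, K.ρ (t k) := by
      rw [hF]
      simp only
      rw [norm_prod]
      refine Finset.prod_congr rfl fun k _ => ?_
      rw [norm_mul, show Complex.I * ((t k : ℂ) * (4 * R * (y k : ℂ))) = Complex.I * ((t k * (4 * R * y k) : ℝ) : ℂ) by push_cast; ring,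
        mul_comm Complex.I, Complex.norm_exp_ofReal_mul_I, mul_one, Complex.norm_real, Real.norm_eq_abs, abs_of_nonneg (K.ρ_nonneg _)]
    rw [h1]
    by_cases hz : ∃ k, 1 / 4 ≤ |t k|
    · obtain ⟨k, hk⟩ := hz
      rw [Finset.prod_eq_zero (Finset.mem_univ k) (K.ρ_supp _ hk), zero_mul, zero_mul]
    · push Not at hz
      refine mul_le_mul_of_nonneg_left (hε _ fun k => ?_) (Finset.prod_nonneg fun k _ => K.ρ_nonneg _)
      rw [abs_neg, abs_mul, abs_of_pos (by positivity : (0 : ℝ) < 4 * R)]
      nlinarith [hz k]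
  refine (mul_le_mul_of_nonneg_left e5 (by positivity)).trans (le_of_eq ?_)
  rw [integral_mul_const, integral_fintype_prod_volume_eq_prod (fun _ : Fin N => K.ρ)]
  simp only [Finset.prod_const, Finset.card_univ, Fintype.card_fin]
  rw [← mul_assoc, ← mul_pow, hc]
  congr 2
  ring

/-- block SMO -/
theorem sMO : StmtSMO := by
  intro K
  obtain ⟨C1, hC1, htail⟩ := kap_tail K
  have hI := w_pos5 K
  have hr := rho_pos5 K
  set c : ℝ := 16 * (∫ t, K.ρ t) / (∫ t, K.w t) with hc
  have hc0 : 0 < c := by positivity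
  refine ⟨max (2 * C1) c, lt_max_of_lt_right hc0, ?_⟩
  intro N R h L ε hR hh hh1 hL hε0 μ ν hμ hν hε A B hA hB hAL hAB
  set τ : ℝ := C1 / (R * h) ^ 10 with hτ
  have hτ0 : 0 < τ := by positivity
  have ht := htail R h hR hh
  have hN := kapN_tail K hR ht N
  set E : Set (Fin N → ℝ) := Metric.thickening h A with hE
  have hEo : IsOpen E := Metric.isOpen_thickening
  have hEm : MeasurableSet E := hEo.measurableSet
  have hmem : ∀ y : Fin N → ℝ, y ∈ E ↔ ∃ a ∈ A, ∀ k, |y k - a k| < h := by
    intro y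
    rw [hE, Metric.mem_thickening_iff]
    constructor
    · rintro ⟨a, ha, hd⟩
      exact ⟨a, ha, fun k => by
        have := (dist_pi_lt_iff hh).1 hd k
        rwa [Real.dist_eq] at this⟩
    · rintro ⟨a, ha, hd⟩
      exact ⟨a, ha, (dist_pi_lt_iff hh).2 fun k => by rw [Real.dist_eq]; exact hd k⟩
  -- the size of E
  have hEsub : E ⊆ Set.pi Set.univ fun _ : Fin N => Set.Icc (-(2 * L)) (2 * L) := by
    intro y hy
    obtain ⟨a, ha, hd⟩ := (hmem y).1 hy
    intro k _
    have h1 := hAL a ha k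
    have h2 := hd k
    rw [abs_le] at h1
    rw [abs_lt] at h2
    constructor <;> linarith [h1.1, h1.2, h2.1, h2.2]
  have hEvol : volume E ≤ ENNReal.ofReal (4 * L) ^ N := by
    refine (measure_mono hEsub).trans ?_
    rw [volume_pi_pi]
    simp only [Real.volume_Icc, Finset.prod_const, Finset.card_univ, Fintype.card_fin]
    rw [show 2 * L - -(2 * L) = 4 * L by ring]
  have hEfin : volume E ≠ ⊤ := ne_top_of_le_ne_top (ENNReal.pow_ne_top ENNReal.ofReal_ne_top) hEvol
  have hEreal : (volume E).toReal ≤ (4 * L) ^ N := by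
    refine ENNReal.toReal_le_of_le_ofReal (by positivity) ?_
    rw [ENNReal.ofReal_pow (by positivity)]
    exact hEvol
  -- the smoothed indicator
  set G : (Fin N → ℝ) → ℝ := fun z => ∫ y in E, kapN K R (y - z) with hG
  have hint : ∀ z : Fin N → ℝ, Integrable fun y => kapN K R (y - z) := fun z => (kapN_int K hR N).comp_sub_right z
  have hone : ∀ z : Fin N → ℝ, ∫ y, kapN K R (y - z) = 1 := fun z => by
    rw [integral_sub_right_eq_self (fun y => kapN K R y) z, kapN_one K hR N]
  have hfar : ∀ z : Fin N → ℝ, ∫ y, Set.indicator {y | ∃ k, h ≤ |y k - z k|} (fun y => kapN K R (y - z)) y ≤ N * τ := by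
    intro z
    have : (fun y => Set.indicator {y | ∃ k, h ≤ |y k - z k|} (fun y => kapN K R (y - z)) y) =
        fun y => Set.indicator {y : Fin N → ℝ | ∃ k, h ≤ |y k|} (kapN K R) (y - z) := by
      funext y
      by_cases hy : ∃ k, h ≤ |y k - z k|
      · rw [Set.indicator_of_mem (show y ∈ {y : Fin N → ℝ | ∃ k, h ≤ |y k - z k|} from hy),
          Set.indicator_of_mem (show y - z ∈ {y : Fin N → ℝ | ∃ k, h ≤ |y k|} from hy)]
      · rw [Set.indicator_of_notMem (show y ∉ {y : Fin N → ℝ | ∃ k, h ≤ |y k - z k|} from hy),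
          Set.indicator_of_notMem (show y - z ∉ {y : Fin N → ℝ | ∃ k, h ≤ |y k|} from hy)]
    rw [this, integral_sub_right_eq_self (fun y => Set.indicator {y : Fin N → ℝ | ∃ k, h ≤ |y k|} (kapN K R) y) z]
    exact hN
  have hfm : ∀ z : Fin N → ℝ, MeasurableSet {y : Fin N → ℝ | ∃ k, h ≤ |y k - z k|} := by
    intro z
    have : {y : Fin N → ℝ | ∃ k, h ≤ |y k - z k|} = ⋃ k, {y : Fin N → ℝ | h ≤ |y k - z k|} :=
      Set.ext fun y => ⟨fun hy => Set.mem_iUnion.2 hy, fun hy => Set.mem_iUnion.1 hy⟩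
    rw [this]
    exact MeasurableSet.iUnion fun k => measurableSet_le measurable_const (by fun_prop)
  have hG0 : ∀ z, 0 ≤ G z := fun z => integral_nonneg fun y => kapN_nonneg K hR _
  have hG1 : ∀ z, G z ≤ 1 := by
    intro z
    rw [← hone z]
    exact setIntegral_le_integral (hint z) (ae_of_all _ fun y => kapN_nonneg K hR _)
  have hGA : ∀ z ∈ A, 1 - N * τ ≤ G z := by
    intro z hz
    have h1 : (∫ y in E, kapN K R (y - z)) + ∫ y in Eᶜ, kapN K R (y - z) = 1 := by
      rw [integral_add_compl hEm (hint z), hone z]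
    have h2 : ∫ y in Eᶜ, kapN K R (y - z) ≤ N * τ := by
      refine le_trans ?_ (hfar z)
      rw [← integral_indicator hEm.compl]
      refine integral_mono ((hint z).indicator hEm.compl) ((hint z).indicator (hfm z)) fun y => ?_
      refine Set.indicator_le_indicator_of_subset ?_ (fun y => kapN_nonneg K hR _) y
      intro y hy
      by_contra hcon
      simp only [Set.mem_ofPred_eq, not_exists, not_le] at hcon
      exact hy ((hmem y).2 ⟨z, hz, hcon⟩)
    simp only [hG]
    linarith
  have hGB : ∀ z, z ∉ B → G z ≤ N * τ := by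
    intro z hz
    refine le_trans ?_ (hfar z)
    simp only [hG]
    rw [← integral_indicator hEm]
    refine integral_mono ((hint z).indicator hEm) ((hint z).indicator (hfm z)) fun y => ?_
    refine Set.indicator_le_indicator_of_subset ?_ (fun y => kapN_nonneg K hR _) y
    intro y hy
    obtain ⟨a, ha, hd⟩ := (hmem y).1 hy
    by_contra hcon
    simp only [Set.mem_ofPred_eq, not_exists, not_le] at hcon
    apply hz
    refine hAB a ha z fun k => ?_
    have h1 := hd k
    have h2 := hcon k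
    rw [abs_lt] at h1 h2
    rw [abs_le]
    constructor <;> linarith [h1.1, h1.2, h2.1, h2.2]
  -- measurability of G
  have hjoint : Continuous fun p : (Fin N → ℝ) × (Fin N → ℝ) => kapN K R (p.2 - p.1) :=
    (kapN_cont K R N).comp (by fun_prop)
  have hGm : Measurable G := by
    have h1 : StronglyMeasurable (Function.uncurry fun (z y : Fin N → ℝ) => kapN K R (y - z)) := hjoint.stronglyMeasurable
    exact (h1.integral_prod_right' (ν := volume.restrict E)).measurable
  have hGint : ∀ (m : Measure (Fin N → ℝ)) [IsProbabilityMeasure m], Integrable G m := fun m _ =>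
    Integrable.of_bound hGm.aestronglyMeasurable 1 (ae_of_all _ fun z => by
      rw [Real.norm_eq_abs, abs_of_nonneg (hG0 z)]
      exact hG1 z)
  -- Fubini
  have hMb : ∃ M : ℝ, ∀ y : Fin N → ℝ, kapN K R y ≤ M := by
    have hw0 : ∀ x, K.w x ≤ ∫ t, K.ρ t := by
      intro x
      have h1 : |K.w x| ≤ ∫ t, K.ρ t := by
        have h2 : |K.w x| = ‖(K.w x : ℂ)‖ := (Complex.norm_real _).symm
        rw [h2, K.w_eq x]
        refine norm_integral_le_of_norm_le (rho_int5 K) (ae_of_all _ fun t => ?_)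
        rw [norm_mul, show Complex.I * ((t : ℂ) * (x : ℂ)) = Complex.I * ((t * x : ℝ) : ℂ) by push_cast; ring,
          mul_comm Complex.I, Complex.norm_exp_ofReal_mul_I, mul_one, Complex.norm_real, Real.norm_eq_abs, abs_of_nonneg (K.ρ_nonneg _)]
      exact (le_abs_self _).trans h1
    refine ⟨(4 * R / (∫ y, K.w y) * ∫ t, K.ρ t) ^ N, fun y => ?_⟩
    unfold kapN
    calc ∏ k, kap K R (y k) ≤ ∏ _k : Fin N, (4 * R / (∫ y, K.w y) * ∫ t, K.ρ t) :=
          Finset.prod_le_prod (fun k _ => kap_nonneg K hR _) fun k _ => mul_le_mul_of_nonneg_left (hw0 _) (by positivity)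
      _ = _ := by simp
  obtain ⟨M, hM⟩ := hMb
  have hfub : ∀ (m : Measure (Fin N → ℝ)) [IsProbabilityMeasure m], ∫ z, G z ∂m = ∫ y in E, ∫ z, kapN K R (y - z) ∂m := by
    intro m _
    simp only [hG]
    rw [integral_integral_swap]
    have : IsFiniteMeasure (volume.restrict E) := ⟨by rw [Measure.restrict_apply_univ]; exact lt_top_iff_ne_top.2 hEfin⟩
    refine Integrable.of_bound (hjoint.aestronglyMeasurable) M (ae_of_all _ fun p => ?_)
    simp only [Function.uncurry]
    rw [Real.norm_eq_abs, abs_of_nonneg (kapN_nonneg K hR _)]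
    exact hM _
  have hdiff : (∫ z, G z ∂μ) - ∫ z, G z ∂ν ≤ (4 * L) ^ N * ((4 * R * (∫ t, K.ρ t) / (∫ t, K.w t)) ^ N * ε) := by
    rw [hfub μ, hfub ν]
    have hmi : ∀ (m : Measure (Fin N → ℝ)) [IsProbabilityMeasure m], IntegrableOn (fun y => ∫ z, kapN K R (y - z) ∂m) E := by
      intro m _
      have : IsFiniteMeasure (volume.restrict E) := ⟨by rw [Measure.restrict_apply_univ]; exact lt_top_iff_ne_top.2 hEfin⟩
      have h1 : StronglyMeasurable (Function.uncurry fun (y z : Fin N → ℝ) => kapN K R (y - z)) :=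
        ((kapN_cont K R N).comp (by fun_prop : Continuous fun p : (Fin N → ℝ) × (Fin N → ℝ) => p.1 - p.2)).stronglyMeasurable
      refine Integrable.of_bound ((h1.integral_prod_right' (ν := m)).aestronglyMeasurable) M (ae_of_all _ fun y => ?_)
      rw [Real.norm_eq_abs, abs_of_nonneg (integral_nonneg fun z => kapN_nonneg K hR _)]
      have h2 : ∫ z, kapN K R (y - z) ∂m ≤ ∫ _z, M ∂m := by
        refine integral_mono_of_nonneg (ae_of_all _ fun z => kapN_nonneg K hR _) (integrable_const _) (ae_of_all _ fun z => hM _)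
      rwa [integral_const, smul_eq_mul, probReal_univ, one_mul] at h2
    rw [← integral_sub (hmi μ) (hmi ν)]
    refine (le_abs_self _).trans ?_
    rw [← Real.norm_eq_abs]
    refine (norm_setIntegral_le_of_norm_le_const (C := (4 * R * (∫ t, K.ρ t) / (∫ t, K.w t)) ^ N * ε)
      (lt_top_iff_ne_top.2 hEfin) (fun y _ => ?_)).trans ?_
    · rw [Real.norm_eq_abs]
      exact kapN_close K hR hε y
    · rw [mul_comm]
      exact mul_le_mul_of_nonneg_right hEreal (by positivity)
  -- conclusion
  have hA1 : μ.real A * (1 - N * τ) ≤ ∫ z, G z ∂μ := by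
    have h1 : ∫ z, Set.indicator A (fun _ => (1 - N * τ : ℝ)) z ∂μ ≤ ∫ z, G z ∂μ := by
      by_cases hs : 0 ≤ 1 - N * τ
      · refine integral_mono ((integrable_const _).indicator hA) (hGint μ) fun z => ?_
        by_cases hz : z ∈ A
        · rw [Set.indicator_of_mem hz]
          exact hGA z hz
        · rw [Set.indicator_of_notMem hz]
          exact hG0 z
      · push Not at hs
        refine integral_mono ((integrable_const _).indicator hA) (hGint μ) fun z => ?_
        by_cases hz : z ∈ A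
        · rw [Set.indicator_of_mem hz]
          exact hGA z hz
        · rw [Set.indicator_of_notMem hz]
          exact hG0 z
    rw [integral_indicator hA, setIntegral_const, smul_eq_mul] at h1
    exact h1
  have hB1 : ∫ z, G z ∂ν ≤ ν.real B + N * τ := by
    have h1 : ∫ z, G z ∂ν ≤ ∫ z, (Set.indicator B (fun _ => (1 : ℝ)) z + N * τ) ∂ν := by
      refine integral_mono (hGint ν) (((integrable_const _).indicator hB).add (integrable_const _)) fun z => ?_
      have h0 : (0 : ℝ) ≤ N * τ := by positivity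
      by_cases hz : z ∈ B
      · simp only [Set.indicator_of_mem hz]
        linarith [hG1 z]
      · simp only [Set.indicator_of_notMem hz]
        linarith [hGB z hz]
    rw [integral_add ((integrable_const _).indicator hB) (integrable_const _), integral_indicator hB, setIntegral_const, smul_eq_mul,
      mul_one, integral_const, smul_eq_mul, probReal_univ, one_mul] at h1
    exact h1
  have hmass : μ.real A ≤ 1 := measureReal_le_one
  have hNτ : 0 ≤ (N : ℝ) * τ := by positivity
  have h1 : μ.real A ≤ (∫ z, G z ∂μ) + N * τ := by nlinarith [hA1]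
  have h2 : (4 * L) ^ N * ((4 * R * (∫ t, K.ρ t) / (∫ t, K.w t)) ^ N * ε) = (c * R * L) ^ N * ε := by
    rw [← mul_assoc, ← mul_pow]
    congr 2
    rw [hc]
    ring
  have h3 : (c * R * L) ^ N * ε ≤ (max (2 * C1) c * R * L) ^ N * ε := by
    apply mul_le_mul_of_nonneg_right _ hε0
    apply pow_le_pow_left₀ (by positivity)
    gcongr
    exact le_max_right _ _
  have h4 : 2 * (N * τ) ≤ max (2 * C1) c * N / (R * h) ^ 10 := by
    rw [hτ]
    calc 2 * (N * (C1 / (R * h) ^ 10)) = 2 * C1 * N / (R * h) ^ 10 := by ring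
      _ ≤ _ := by
          gcongr
          exact le_max_left _ _
  linarith

end Pool.Agent.DR
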