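import Pool.Agent.Helper5.DR.SUB
import Pool.Agent.Helper11.Q3.Stmts

/-!
# Project DR (MP_a499ba_nt): moments under biased signs, two-family versions of SUB
-/

set_option autoImplicit false

namespace Pool.Agent.DR

open Finset MeasureTheory Filter Topology Pool.Agent.Helper5.RM Pool.Agent.Helper96.AF Pool.Agent.Helper66.LW Pool.Agent.IT
open Pool.Agent.Helper11.Q3 (bp)

variable {a α : ℕ → ℂ}

theorem bp_nonneg5 (p : ℕ) : 0 ≤ bp p := by
  unfold bp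
  split_ifs
  · exact le_rfl
  · positivity

theorem bp_le_one5 (p : ℕ) : bp p ≤ 1 := by
  unfold bp
  split_ifs
  · norm_num
  · rw [div_le_one (by positivity)]
    have : (0 : ℝ) ≤ p := Nat.cast_nonneg _
    linarith

theorem bp_le_inv5 {p : ℕ} (hp : 1 ≤ p) : bp p ≤ 1 / p := by
  have hp0 : (0 : ℝ) < p := by exact_mod_cast hp
  unfold bp
  split_ifs
  · positivity
  · exact one_div_le_one_div_of_le hp0 (by linarith)

/-- averages over the biased signs -/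
noncomputable def avb (S : Finset ℕ) (F : Finset ℕ → ℝ) : ℝ := av S fun T => F T * ∏ p ∈ S, (1 + sg T p * bp p)

theorem wt_nonneg5 (S T : Finset ℕ) : 0 ≤ ∏ p ∈ S, (1 + sg T p * bp p) := by
  refine prod_nonneg fun p _ => ?_
  have h1 := bp_nonneg5 p
  have h2 := bp_le_one5 p
  have h3 : |sg T p * bp p| ≤ 1 := by
    rw [abs_mul, abs_sg, one_mul, abs_of_nonneg h1]
    exact h2
  have := (abs_le.1 h3).1
  linarith

theorem avb_mono {S : Finset ℕ} {F G : Finset ℕ → ℝ} (h : ∀ T ⊆ S, F T ≤ G T) : avb S F ≤ avb S G :=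
  av_mono fun T hT => mul_le_mul_of_nonneg_right (h T hT) (wt_nonneg5 S T)

theorem avb_nonneg {S : Finset ℕ} {F : Finset ℕ → ℝ} (h : ∀ T ⊆ S, 0 ≤ F T) : 0 ≤ avb S F :=
  av_nonneg fun T hT => mul_nonneg (h T hT) (wt_nonneg5 S T)

theorem avb_mul_left (S : Finset ℕ) (c : ℝ) (F : Finset ℕ → ℝ) : avb S (fun T => c * F T) = c * avb S F := by
  unfold avb
  rw [← av_mul_left]
  exact av_congr fun T _ => by ring

theorem avb_add (S : Finset ℕ) (F G : Finset ℕ → ℝ) : avb S (fun T => F T + G T) = avb S F + avb S G := by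
  unfold avb
  rw [← av_add]
  exact av_congr fun T _ => by ring

theorem sinh_le5 {x : ℝ} (hx : 0 ≤ x) : Real.sinh x ≤ x * Real.cosh x := by
  rcases hx.eq_or_lt with h | h
  · rw [← h]; simp
  · obtain ⟨c, hc, he⟩ := exists_hasDerivAt_eq_slope Real.sinh Real.cosh h Real.continuous_sinh.continuousOn
      (fun t _ => Real.hasDerivAt_sinh t)
    rw [Real.sinh_zero, sub_zero, sub_zero] at he
    have h1 : Real.sinh x = x * Real.cosh c := by
      rw [he]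
      field_simp
    rw [h1]
    refine mul_le_mul_of_nonneg_left ?_ hx
    rw [Real.cosh_le_cosh, abs_of_pos hc.1, abs_of_pos h]
    exact hc.2.le

theorem cosh_bias5 {b : ℝ} (hb : 0 ≤ b) (c : ℝ) : Real.cosh c + b * Real.sinh c ≤ Real.exp (c ^ 2 / 2 + b * |c|) := by
  have h1 : Real.sinh c ≤ |c| * Real.cosh c := by
    rcases abs_cases c with ⟨h, h0⟩ | ⟨h, h0⟩
    · rw [h]
      exact sinh_le5 h0
    · have h2 : Real.sinh c ≤ 0 := by
        have := Real.sinh_nonpos_iff.2 h0.le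
        exact this
      refine h2.trans ?_
      have := Real.cosh_pos c
      positivity
  have h2 := Real.cosh_pos c
  have h3 := Real.cosh_le_exp_half_sq c
  have h4 : 1 + b * |c| ≤ Real.exp (b * |c|) := by
    have := Real.add_one_le_exp (b * |c|)
    linarith
  have h5 : 0 ≤ b * |c| := by positivity
  calc Real.cosh c + b * Real.sinh c ≤ Real.cosh c + b * (|c| * Real.cosh c) := by
        have := mul_le_mul_of_nonneg_left h1 hb
        linarith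
    _ = Real.cosh c * (1 + b * |c|) := by ring
    _ ≤ Real.exp (c ^ 2 / 2) * Real.exp (b * |c|) := mul_le_mul h3 h4 (by linarith) (Real.exp_pos _).le
    _ = _ := by rw [← Real.exp_add]

theorem avb_exp (S : Finset ℕ) (c : ℕ → ℝ) :
    avb S (fun T => Real.exp (∑ p ∈ S, sg T p * c p)) ≤ Real.exp ((∑ p ∈ S, c p ^ 2) / 2 + ∑ p ∈ S, bp p * |c p|) := by
  unfold avb
  induction S using Finset.induction_on with
  | empty => simp [av_empty]
  | insert q S hq ih =>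
    have hT : ∀ T ⊆ S, Real.exp (∑ p ∈ insert q S, sg T p * c p) * ∏ p ∈ insert q S, (1 + sg T p * bp p) =
        (Real.exp (c q) * (1 + bp q)) * (Real.exp (∑ p ∈ S, sg T p * c p) * ∏ p ∈ S, (1 + sg T p * bp p)) := by
      intro T hT
      rw [Finset.sum_insert hq, Finset.prod_insert hq, sg_not_mem (fun h => hq (hT h)), one_mul, one_mul, Real.exp_add]
      ring
    have hT' : ∀ T ⊆ S, Real.exp (∑ p ∈ insert q S, sg (insert q T) p * c p) * ∏ p ∈ insert q S, (1 + sg (insert q T) p * bp p) =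
        (Real.exp (-c q) * (1 - bp q)) * (Real.exp (∑ p ∈ S, sg T p * c p) * ∏ p ∈ S, (1 + sg T p * bp p)) := by
      intro T hT
      have h0 : ∀ p ∈ S, sg (insert q T) p = sg T p := fun p hp => sg_insert_of_ne fun h => hq (h ▸ hp)
      have h1 : ∑ p ∈ S, sg (insert q T) p * c p = ∑ p ∈ S, sg T p * c p := Finset.sum_congr rfl fun p hp => by rw [h0 p hp]
      have h2 : ∏ p ∈ S, (1 + sg (insert q T) p * bp p) = ∏ p ∈ S, (1 + sg T p * bp p) := Finset.prod_congr rfl fun p hp => by rw [h0 p hp]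
      rw [Finset.sum_insert hq, Finset.prod_insert hq, sg_mem (Finset.mem_insert_self q T), h1, h2, neg_one_mul, Real.exp_add]
      ring
    rw [av_insert hq, av_congr hT, av_congr hT', av_mul_left, av_mul_left]
    have h2 : (Real.exp (c q) * (1 + bp q) * av S (fun T => Real.exp (∑ p ∈ S, sg T p * c p) * ∏ p ∈ S, (1 + sg T p * bp p)) +
        Real.exp (-c q) * (1 - bp q) * av S (fun T => Real.exp (∑ p ∈ S, sg T p * c p) * ∏ p ∈ S, (1 + sg T p * bp p))) / 2 =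
        (Real.cosh (c q) + bp q * Real.sinh (c q)) * av S (fun T => Real.exp (∑ p ∈ S, sg T p * c p) * ∏ p ∈ S, (1 + sg T p * bp p)) := by
      rw [Real.cosh_eq, Real.sinh_eq]
      ring
    rw [h2, Finset.sum_insert hq, Finset.sum_insert hq]
    have h3 : (c q ^ 2 + ∑ p ∈ S, c p ^ 2) / 2 + (bp q * |c q| + ∑ p ∈ S, bp p * |c p|) =
        (c q ^ 2 / 2 + bp q * |c q|) + ((∑ p ∈ S, c p ^ 2) / 2 + ∑ p ∈ S, bp p * |c p|) := by ring
    rw [h3, Real.exp_add]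
    exact mul_le_mul (cosh_bias5 (bp_nonneg5 q) _) ih
      (av_nonneg fun T _ => mul_nonneg (Real.exp_pos _).le (wt_nonneg5 S T)) (Real.exp_pos _).le

/-- moments under the biased signs -/
theorem khG {r : ℕ} {S : Finset ℕ} (hS : PP (Y (r + 1)) ⊆ S) {A g0 : ℕ → ℂ} {lam B1 V W : ℝ} (hlam : 0 < lam)
    (hg : ∀ m, 1 ≤ m → m ≤ Y (r + 1) → ‖g0 m‖ ≤ 1)
    (hB : ∑ m ∈ (Icc 1 (Y (r + 1))).filter (fun m => ¬ m.Prime), ‖A m‖ ≤ B1)
    (hV : ∑ p ∈ PP (Y (r + 1)), ‖A p‖ ^ 2 ≤ V) (hW : ∑ p ∈ PP (Y (r + 1)), bp p * ‖A p‖ ≤ W) (k : ℕ) :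
    avb S (fun T1 => (∑ m ∈ Icc 1 (Y (r + 1)), A m * (g0 m * gt T1 ∅ m)).re ^ (2 * k)) ≤
      ((2 * k).factorial : ℝ) * (lam ^ (2 * k))⁻¹ * (2 * Real.exp (lam * B1 + lam ^ 2 * V / 2 + lam * W)) := by
  classical
  set x : ℕ → ℝ := fun p => if p ∈ PP (Y (r + 1)) then (A p * g0 p).re else 0 with hx
  have hxle : ∀ p ∈ PP (Y (r + 1)), |x p| ≤ ‖A p‖ := by
    intro p hp
    obtain ⟨hp1, hp2⟩ := mem_PP.1 hp
    rw [hx]
    beta_reduce
    rw [if_pos hp]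
    refine (Complex.abs_re_le_norm _).trans ?_
    rw [norm_mul]
    calc ‖A p‖ * ‖g0 p‖ ≤ ‖A p‖ * 1 := mul_le_mul_of_nonneg_left (hg p hp1.one_le hp2) (norm_nonneg _)
      _ = ‖A p‖ := mul_one _
  have hx0 : ∀ p ∈ S, p ∉ PP (Y (r + 1)) → x p = 0 := by
    intro p _ hp
    rw [hx]
    beta_reduce
    rw [if_neg hp]
  have hVx : ∑ p ∈ S, x p ^ 2 ≤ V := by
    rw [← sum_subset hS fun p hp hp2 => by rw [hx0 p hp hp2]; norm_num]
    refine le_trans (sum_le_sum fun p hp => ?_) hV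
    rw [← sq_abs]
    exact pow_le_pow_left₀ (abs_nonneg _) (hxle p hp) 2
  have hWx : ∑ p ∈ S, bp p * |x p| ≤ W := by
    rw [← sum_subset hS fun p hp hp2 => by rw [hx0 p hp hp2]; simp]
    exact le_trans (sum_le_sum fun p hp => mul_le_mul_of_nonneg_left (hxle p hp) (bp_nonneg5 p)) hW
  have hdec : ∀ T1 : Finset ℕ, ∃ y : ℝ, |y| ≤ B1 ∧ (∑ m ∈ Icc 1 (Y (r + 1)), A m * (g0 m * gt T1 ∅ m)).re = ∑ p ∈ S, sg T1 p * x p + y := by
    intro T1
    refine ⟨(∑ m ∈ (Icc 1 (Y (r + 1))).filter (fun m => ¬ m.Prime), A m * (g0 m * gt T1 ∅ m)).re, ?_, ?_⟩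
    · refine (Complex.abs_re_le_norm _).trans ((norm_sum_le _ _).trans (le_trans (sum_le_sum fun m hm => ?_) hB))
      rw [mem_filter, mem_Icc] at hm
      rw [norm_mul, norm_mul, gt_norm _ _ hm.1.1, mul_one]
      calc ‖A m‖ * ‖g0 m‖ ≤ ‖A m‖ * 1 := mul_le_mul_of_nonneg_left (hg m hm.1.1 hm.1.2) (norm_nonneg _)
        _ = ‖A m‖ := mul_one _
    · rw [← sum_subset hS fun p hp hp2 => by rw [hx0 p hp hp2, mul_zero], ← sum_filter_add_sum_filter_not (Icc 1 (Y (r + 1))) Nat.Prime,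
        Complex.add_re]
      congr 1
      rw [Complex.re_sum]
      refine sum_congr rfl fun p hp => ?_
      have hp1 : p.Prime := (mem_filter.1 hp).2
      have hp2 : p ∈ PP (Y (r + 1)) := hp
      rw [gt_prime T1 hp1, hx]
      beta_reduce
      rw [if_pos hp2, ← mul_assoc, mul_comm (A p * g0 p) (sg T1 p : ℂ), Complex.re_ofReal_mul]
  have hf0 : (0 : ℝ) < ((2 * k).factorial : ℝ) := by exact_mod_cast Nat.factorial_pos _
  have hlk : 0 < lam ^ (2 * k) := by positivity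
  have hpt : ∀ T1 : Finset ℕ, (∑ m ∈ Icc 1 (Y (r + 1)), A m * (g0 m * gt T1 ∅ m)).re ^ (2 * k) ≤
      ((2 * k).factorial : ℝ) * (lam ^ (2 * k))⁻¹ * Real.exp (lam * B1) *
      (Real.exp (∑ p ∈ S, sg T1 p * (lam * x p)) + Real.exp (∑ p ∈ S, sg T1 p * (-lam * x p))) := by
    intro T1
    obtain ⟨y, hy, he⟩ := hdec T1
    set X := (∑ m ∈ Icc 1 (Y (r + 1)), A m * (g0 m * gt T1 ∅ m)).re with hX
    have h1 := Real.pow_div_factorial_le_exp (x := lam * |X|) (by positivity) (2 * k)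
    rw [div_le_iff₀ hf0] at h1
    have h2 : (lam * |X|) ^ (2 * k) = lam ^ (2 * k) * X ^ (2 * k) := by
      rw [mul_pow, (even_two_mul k).pow_abs]
    rw [h2] at h1
    have h3 : Real.exp (lam * |X|) ≤ Real.exp (lam * X) + Real.exp (-lam * X) := by
      rcases abs_cases X with ⟨h, _⟩ | ⟨h, _⟩
      · rw [h]
        have := Real.exp_pos (-lam * X)
        linarith
      · rw [h, show lam * -X = -lam * X by ring]
        have := Real.exp_pos (lam * X)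
        linarith
    rw [abs_le] at hy
    have h4 : Real.exp (lam * X) ≤ Real.exp (lam * B1) * Real.exp (∑ p ∈ S, sg T1 p * (lam * x p)) := by
      rw [← Real.exp_add]
      apply Real.exp_le_exp.2
      have h5 : ∑ p ∈ S, sg T1 p * (lam * x p) = lam * ∑ p ∈ S, sg T1 p * x p := by
        rw [mul_sum]
        exact sum_congr rfl fun p _ => by ring
      rw [h5, he]
      nlinarith [hy.2]
    have h5 : Real.exp (-lam * X) ≤ Real.exp (lam * B1) * Real.exp (∑ p ∈ S, sg T1 p * (-lam * x p)) := by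
      rw [← Real.exp_add]
      apply Real.exp_le_exp.2
      have h5 : ∑ p ∈ S, sg T1 p * (-lam * x p) = -lam * ∑ p ∈ S, sg T1 p * x p := by
        rw [mul_sum]
        exact sum_congr rfl fun p _ => by ring
      rw [h5, he]
      nlinarith [hy.1]
    have h6 : X ^ (2 * k) ≤ (lam ^ (2 * k))⁻¹ * (Real.exp (lam * |X|) * ((2 * k).factorial : ℝ)) := by
      rw [inv_mul_eq_div, le_div_iff₀ hlk]
      linarith
    refine h6.trans ?_
    have h7 : Real.exp (lam * |X|) ≤ Real.exp (lam * B1) * (Real.exp (∑ p ∈ S, sg T1 p * (lam * x p)) +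
        Real.exp (∑ p ∈ S, sg T1 p * (-lam * x p))) := by
      rw [mul_add]
      linarith
    calc (lam ^ (2 * k))⁻¹ * (Real.exp (lam * |X|) * ((2 * k).factorial : ℝ)) ≤ (lam ^ (2 * k))⁻¹ * ((Real.exp (lam * B1) *
          (Real.exp (∑ p ∈ S, sg T1 p * (lam * x p)) + Real.exp (∑ p ∈ S, sg T1 p * (-lam * x p)))) * ((2 * k).factorial : ℝ)) := by
          gcongr
      _ = _ := by ring
  refine (avb_mono fun T1 _ => hpt T1).trans ?_
  rw [avb_mul_left, avb_add]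
  have e1 := avb_exp S (fun p => lam * x p)
  have e2 := avb_exp S (fun p => -lam * x p)
  have e3 : (∑ p ∈ S, (lam * x p) ^ 2) / 2 + ∑ p ∈ S, bp p * |lam * x p| ≤ lam ^ 2 * V / 2 + lam * W := by
    have h1 : ∑ p ∈ S, (lam * x p) ^ 2 = lam ^ 2 * ∑ p ∈ S, x p ^ 2 := by
      rw [mul_sum]
      exact sum_congr rfl fun p _ => by ring
    have h2 : ∑ p ∈ S, bp p * |lam * x p| = lam * ∑ p ∈ S, bp p * |x p| := by
      rw [mul_sum]
      exact sum_congr rfl fun p _ => by rw [abs_mul, abs_of_pos hlam]; ring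
    rw [h1, h2]
    have h3 := mul_le_mul_of_nonneg_left hVx (by positivity : 0 ≤ lam ^ 2)
    have h4 := mul_le_mul_of_nonneg_left hWx hlam.le
    linarith
  have e4 : (∑ p ∈ S, (-lam * x p) ^ 2) / 2 + ∑ p ∈ S, bp p * |-lam * x p| ≤ lam ^ 2 * V / 2 + lam * W := by
    refine le_trans (le_of_eq ?_) e3
    congr 1
    · congr 1
      exact sum_congr rfl fun p _ => by ring
    · exact sum_congr rfl fun p _ => by rw [neg_mul, abs_neg]
  have e5 := Real.exp_le_exp.2 e3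
  have e6 := Real.exp_le_exp.2 e4
  have hc0 : 0 ≤ ((2 * k).factorial : ℝ) * (lam ^ (2 * k))⁻¹ * Real.exp (lam * B1) := by positivity
  calc ((2 * k).factorial : ℝ) * (lam ^ (2 * k))⁻¹ * Real.exp (lam * B1) *
        (avb S (fun T1 => Real.exp (∑ p ∈ S, sg T1 p * (lam * x p))) + avb S (fun T1 => Real.exp (∑ p ∈ S, sg T1 p * (-lam * x p)))) ≤
        ((2 * k).factorial : ℝ) * (lam ^ (2 * k))⁻¹ * Real.exp (lam * B1) *
        (Real.exp (lam ^ 2 * V / 2 + lam * W) + Real.exp (lam ^ 2 * V / 2 + lam * W)) :=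
        mul_le_mul_of_nonneg_left (add_le_add (e1.trans e5) (e2.trans e6)) hc0
    _ = _ := by
        rw [show lam * B1 + lam ^ 2 * V / 2 + lam * W = lam * B1 + (lam ^ 2 * V / 2 + lam * W) by ring, Real.exp_add (lam * B1)]
        ring

/-- the moments of order `2 k` used for SUB -/
theorem khS (hL : LogC a α) {r : ℕ} {S : Finset ℕ} (hS : PP (Y (r + 1)) ⊆ S) {A g0 : ℕ → ℂ} (hA : ∀ m, 1 ≤ m → ‖A m‖ ≤ ‖α m‖ / Real.sqrt m)
    (hg : ∀ m, 1 ≤ m → m ≤ Y (r + 1) → ‖g0 m‖ ≤ 1) (k : ℕ) :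
    avb S (fun T1 => (∑ m ∈ Icc 1 (Y (r + 1)), A m * (g0 m * gt T1 ∅ m)).re ^ (2 * k)) ≤
      ((2 * k).factorial : ℝ) * ((36 : ℝ) ^ k)⁻¹ * (2 * Real.exp (35 * ∑ p ∈ PP (Y (r + 1)), (1 : ℝ) / p)) := by
  set V := ∑ p ∈ PP (Y (r + 1)), (1 : ℝ) / p with hVd
  have hV0 : 0 ≤ V := sum_nonneg fun p _ => by positivity
  have hsq : ∀ p ∈ PP (Y (r + 1)), ‖A p‖ ≤ 1 / Real.sqrt p := fun p hp =>
    (hA p (mem_PP.1 hp).1.one_le).trans (div_le_div_of_nonneg_right (al_le_one hL p) (Real.sqrt_nonneg _))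
  have hB : ∑ m ∈ (Icc 1 (Y (r + 1))).filter (fun m => ¬ m.Prime), ‖A m‖ ≤ 7 / 4 * V := by
    refine le_trans (sum_le_sum fun m hm => hA m ?_) (np6 hL r)
    rw [mem_filter, mem_Icc] at hm
    exact hm.1.1
  have hV : ∑ p ∈ PP (Y (r + 1)), ‖A p‖ ^ 2 ≤ V := by
    refine sum_le_sum fun p hp => ?_
    have hp0 : (0 : ℝ) < p := by exact_mod_cast (mem_PP.1 hp).1.pos
    calc ‖A p‖ ^ 2 ≤ (1 / Real.sqrt p) ^ 2 := pow_le_pow_left₀ (norm_nonneg _) (hsq p hp) 2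
      _ = 1 / (p : ℝ) := by rw [div_pow, Real.sq_sqrt hp0.le, one_pow]
  have hW : ∑ p ∈ PP (Y (r + 1)), bp p * ‖A p‖ ≤ V := by
    refine sum_le_sum fun p hp => ?_
    have hp1 := (mem_PP.1 hp).1
    have h1 : ‖A p‖ ≤ 1 := by
      refine (hsq p hp).trans ?_
      rw [div_le_one (Real.sqrt_pos.2 (by exact_mod_cast hp1.pos)), Real.one_le_sqrt]
      exact_mod_cast hp1.one_le
    calc bp p * ‖A p‖ ≤ 1 / (p : ℝ) * 1 := mul_le_mul (bp_le_inv5 hp1.one_le) h1 (norm_nonneg _) (by positivity)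
      _ = 1 / (p : ℝ) := mul_one _
  refine (khG hS (lam := 6) (by norm_num) hg hB hV hW k).trans ?_
  have e1 : (6 : ℝ) ^ (2 * k) = 36 ^ k := by rw [pow_mul]; norm_num
  rw [e1]
  have e2 : Real.exp (6 * (7 / 4 * V) + 6 ^ 2 * V / 2 + 6 * V) ≤ Real.exp (35 * V) := Real.exp_le_exp.2 (by linarith)
  gcongr

/-- the moment bound for the linear forms under the biased signs -/
theorem khL (hL : LogC a α) {r : ℕ} (hr : 8 ≤ r) {S : Finset ℕ} (hS : PP (Y (r + 1)) ⊆ S) {ξ : ℕ → ℂ} (hξ : ∀ j, ‖ξ j‖ ≤ 2 ^ (40 * r))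
    {g0 : ℕ → ℂ} (hg : ∀ m, 1 ≤ m → m ≤ Y (r + 1) → ‖g0 m‖ ≤ 1) :
    avb S (fun T1 => LF r α ξ (fun n => g0 n * gt T1 ∅ n) ^ (2 * 2 ^ (122 * r))) ≤
      ((2 * 2 ^ (122 * r)).factorial : ℝ) * Real.exp (-(2 : ℝ) ^ (122 * r)) := by
  set M : ℕ := 2 ^ (122 * r) with hM
  have hsq : ∀ p ∈ PP (Y (r + 1)), ‖AA r α ξ p‖ ≤ 2 ^ (60 * r) * (1 / Real.sqrt p) := fun p hp =>
    (AA_le hL (by omega) hξ (mem_PP.1 hp).1.one_le).trans (mul_le_mul_of_nonneg_left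
      (div_le_div_of_nonneg_right (al_le_one hL p) (Real.sqrt_nonneg _)) (by positivity))
  have hH : ∑ p ∈ PP (Y (r + 1)), 1 / (p : ℝ) ≤ 2 * 2 ^ (r + 1) := by
    calc ∑ p ∈ PP (Y (r + 1)), 1 / (p : ℝ) ≤ ∑ n ∈ Icc 1 (Y (r + 1)), (1 : ℝ) / n := by
          apply sum_le_sum_of_subset_of_nonneg
          · unfold PP
            exact filter_subset _ _
          · intro n _ _
            positivity
      _ ≤ 1 + 2 ^ (r + 1) := harm5 r
      _ ≤ 2 * 2 ^ (r + 1) := by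
          have h1 : (1 : ℝ) ≤ 2 ^ (r + 1) := one_le_pow₀ (by norm_num)
          linarith
  have hB : ∑ m ∈ (Icc 1 (Y (r + 1))).filter (fun m => ¬ m.Prime), ‖AA r α ξ m‖ ≤ 2 ^ (62 * r + 3) := by
    calc _ ≤ ∑ m ∈ (Icc 1 (Y (r + 1))).filter (fun m => ¬ m.Prime), 2 ^ (60 * r) * (‖α m‖ / Real.sqrt m) := by
          refine sum_le_sum fun m hm => AA_le hL (by omega) hξ ?_
          rw [mem_filter, mem_Icc] at hm
          exact hm.1.1
      _ = 2 ^ (60 * r) * ∑ m ∈ (Icc 1 (Y (r + 1))).filter (fun m => ¬ m.Prime), ‖α m‖ / Real.sqrt m := by rw [mul_sum]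
      _ ≤ 2 ^ (60 * r) * 2 ^ (2 * r + 3) := mul_le_mul_of_nonneg_left (np5 hL r) (by positivity)
      _ = 2 ^ (62 * r + 3) := by rw [← pow_add]; congr 1; ring
  have hV : ∑ p ∈ PP (Y (r + 1)), ‖AA r α ξ p‖ ^ 2 ≤ 2 ^ (121 * r + 2) := by
    calc ∑ p ∈ PP (Y (r + 1)), ‖AA r α ξ p‖ ^ 2 ≤ ∑ p ∈ PP (Y (r + 1)), 2 ^ (120 * r) * (1 / (p : ℝ)) := by
          refine sum_le_sum fun p hp => ?_
          have hp0 : (0 : ℝ) < p := by exact_mod_cast (mem_PP.1 hp).1.pos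
          calc ‖AA r α ξ p‖ ^ 2 ≤ (2 ^ (60 * r) * (1 / Real.sqrt p)) ^ 2 := pow_le_pow_left₀ (norm_nonneg _) (hsq p hp) 2
            _ = 2 ^ (120 * r) * (1 / (p : ℝ)) := by
                rw [mul_pow, div_pow, Real.sq_sqrt hp0.le, ← pow_mul]
                congr 2
                ring
                norm_num
      _ = 2 ^ (120 * r) * ∑ p ∈ PP (Y (r + 1)), 1 / (p : ℝ) := by rw [mul_sum]
      _ ≤ 2 ^ (120 * r) * (2 * 2 ^ (r + 1)) := mul_le_mul_of_nonneg_left hH (by positivity)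
      _ = 2 ^ (121 * r + 2) := by ring
  have hW : ∑ p ∈ PP (Y (r + 1)), bp p * ‖AA r α ξ p‖ ≤ 2 ^ (61 * r + 2) := by
    calc ∑ p ∈ PP (Y (r + 1)), bp p * ‖AA r α ξ p‖ ≤ ∑ p ∈ PP (Y (r + 1)), 2 ^ (60 * r) * (1 / (p : ℝ)) := by
          refine sum_le_sum fun p hp => ?_
          have hp1 := (mem_PP.1 hp).1
          have h1 : ‖AA r α ξ p‖ ≤ 2 ^ (60 * r) := by
            refine (hsq p hp).trans ?_
            have h2 : 1 / Real.sqrt p ≤ 1 := by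
              rw [div_le_one (Real.sqrt_pos.2 (by exact_mod_cast hp1.pos)), Real.one_le_sqrt]
              exact_mod_cast hp1.one_le
            calc (2 : ℝ) ^ (60 * r) * (1 / Real.sqrt p) ≤ 2 ^ (60 * r) * 1 := mul_le_mul_of_nonneg_left h2 (by positivity)
              _ = _ := mul_one _
          calc bp p * ‖AA r α ξ p‖ ≤ 1 / (p : ℝ) * 2 ^ (60 * r) := mul_le_mul (bp_le_inv5 hp1.one_le) h1 (norm_nonneg _) (by positivity)
            _ = _ := mul_comm _ _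
      _ = 2 ^ (60 * r) * ∑ p ∈ PP (Y (r + 1)), 1 / (p : ℝ) := by rw [mul_sum]
      _ ≤ 2 ^ (60 * r) * (2 * 2 ^ (r + 1)) := mul_le_mul_of_nonneg_left hH (by positivity)
      _ = 2 ^ (61 * r + 2) := by ring
  have h1 := khG hS (lam := 8) (by norm_num) hg hB hV hW M
  have e0 : ∀ g : ℕ → ℂ, (∑ m ∈ Icc 1 (Y (r + 1)), AA r α ξ m * g m).re = LF r α ξ g := fun g => (LF_eq r α ξ g).symm
  simp only [e0] at h1
  refine h1.trans ?_
  rw [mul_assoc]
  refine mul_le_mul_of_nonneg_left ?_ (Nat.cast_nonneg _)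
  have hMr : ((M : ℕ) : ℝ) = 2 ^ (122 * r) := by rw [hM]; push_cast; rfl
  have hbig : (256 : ℝ) ≤ 2 ^ r := by
    calc (256 : ℝ) = 2 ^ 8 := by norm_num
      _ ≤ 2 ^ r := pow_le_pow_right₀ (by norm_num) hr
  have e7 : (2 : ℝ) ^ (121 * r + 7) ≤ 1 / 2 * 2 ^ (122 * r) := by
    calc (2 : ℝ) ^ (121 * r + 7) = 1 / 2 * (2 ^ (121 * r) * 256) := by ring
      _ ≤ 1 / 2 * (2 ^ (121 * r) * 2 ^ r) := by gcongr
      _ = 1 / 2 * 2 ^ (122 * r) := by rw [← pow_add]; congr 2; ring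
  have f1 : 8 * (2 : ℝ) ^ (62 * r + 3) ≤ 1 / 2 * 2 ^ (122 * r) := by
    calc 8 * (2 : ℝ) ^ (62 * r + 3) = (2 : ℝ) ^ (62 * r + 6) := by ring
      _ ≤ 2 ^ (121 * r + 7) := pow_le_pow_right₀ (by norm_num) (by omega)
      _ ≤ _ := e7
  have f2 : 8 ^ 2 * (2 : ℝ) ^ (121 * r + 2) / 2 ≤ 1 / 2 * 2 ^ (122 * r) := by
    calc 8 ^ 2 * (2 : ℝ) ^ (121 * r + 2) / 2 = (2 : ℝ) ^ (121 * r + 7) := by ring
      _ ≤ _ := e7
  have f3 : 8 * (2 : ℝ) ^ (61 * r + 2) ≤ 1 / 2 * 2 ^ (122 * r) := by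
    calc 8 * (2 : ℝ) ^ (61 * r + 2) = (2 : ℝ) ^ (61 * r + 5) := by ring
      _ ≤ 2 ^ (121 * r + 7) := pow_le_pow_right₀ (by norm_num) (by omega)
      _ ≤ _ := e7
  have e9 : ((8 : ℝ) ^ (2 * M))⁻¹ ≤ Real.exp (-(4 * 2 ^ (122 * r))) := by
    rw [← hMr, ← Real.rpow_natCast, Real.rpow_def_of_pos (by norm_num), ← Real.exp_neg]
    apply Real.exp_le_exp.2
    have h1 : Real.log 8 = 3 * Real.log 2 := by
      rw [show (8 : ℝ) = 2 ^ 3 by norm_num, Real.log_pow]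
      push_cast
      ring
    have h2 := Real.log_two_gt_d9
    have h3 : (0 : ℝ) ≤ M := Nat.cast_nonneg _
    rw [h1]
    push_cast
    nlinarith
  have hM4 : (4 : ℝ) ≤ 2 ^ (122 * r) := by
    calc (4 : ℝ) = 2 ^ 2 := by norm_num
      _ ≤ 2 ^ (122 * r) := pow_le_pow_right₀ (by norm_num) (by omega)
  calc ((8 : ℝ) ^ (2 * M))⁻¹ * (2 * Real.exp (8 * 2 ^ (62 * r + 3) + 8 ^ 2 * 2 ^ (121 * r + 2) / 2 + 8 * 2 ^ (61 * r + 2))) ≤
        Real.exp (-(4 * 2 ^ (122 * r))) * (2 * Real.exp (3 / 2 * 2 ^ (122 * r))) := by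
        refine mul_le_mul e9 ?_ (by positivity) (Real.exp_pos _).le
        refine mul_le_mul_of_nonneg_left ?_ (by norm_num)
        apply Real.exp_le_exp.2
        linarith
    _ = 2 * Real.exp (-(5 / 2 * 2 ^ (122 * r))) := by
        rw [mul_left_comm, ← Real.exp_add]
        congr 2
        ring
    _ ≤ Real.exp (-(2 : ℝ) ^ (122 * r)) := by
        have h1 : Real.exp (-(5 / 2 * 2 ^ (122 * r))) = Real.exp (-(3 / 2 * 2 ^ (122 * r))) * Real.exp (-(2 : ℝ) ^ (122 * r)) := by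
          rw [← Real.exp_add]
          congr 1
          ring
        have h2 : Real.exp (-(3 / 2 * 2 ^ (122 * r))) ≤ 1 / 4 := by
          rw [Real.exp_neg, ← one_div]
          apply one_div_le_one_div_of_le (by norm_num)
          have := Real.add_one_le_exp (3 / 2 * (2 : ℝ) ^ (122 * r))
          linarith
        rw [h1]
        have h3 := Real.exp_pos (-(2 : ℝ) ^ (122 * r))
        nlinarith

/-- the tail of the real part of a Dirichlet polynomial, two families -/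
theorem tail2 {Ω : Type} [MeasurableSpace Ω] {P : Measure Ω} {χ : Ω → ℕ → ℂ} {Ω' : Type} [MeasurableSpace Ω'] {P' : Measure Ω'}
    {χ' : Ω' → ℕ → ℂ} (hL : LogC a α) {C : ℝ}
    (hC : ∀ r : ℕ, 1 ≤ r → ∑ p ∈ PP (Y (r + 1)), (1 : ℝ) / p ≤ (r + 1) * Real.log 2 + C) {r : ℕ} (hr : 8 ≤ r)
    (h : CF P χ (Y (150 * r))) (h' : CF P' χ' (Y (150 * r)))
    (hc : ∀ m n : ℕ, 1 ≤ m → m ≤ Y (150 * r) → 1 ≤ n → n ≤ Y (150 * r) → ‖(∫ ω, χ ω m * (starRingEnd ℂ) (χ ω n) ∂P) -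
      ∫ ω, χ' ω m * (starRingEnd ℂ) (χ' ω n) ∂P'‖ ≤ 2 / (Y (150 * r) : ℝ))
    {A : ℕ → ℂ} (hA : ∀ m, 1 ≤ m → ‖A m‖ ≤ ‖α m‖ / Real.sqrt m)
    (hm : ∫ ω, (∑ m ∈ Icc 1 (Y (r + 1)), A m * χ' ω m).re ^ (2 * (20 * r)) ∂P' ≤
      ((2 * (20 * r)).factorial : ℝ) * ((36 : ℝ) ^ (20 * r))⁻¹ * (2 * Real.exp (35 * ∑ p ∈ PP (Y (r + 1)), (1 : ℝ) / p))) :
    P.real {ω | 14 * (r : ℝ) < |(∑ m ∈ Icc 1 (Y (r + 1)), A m * χ ω m).re|} ≤ (2 ^ 36 * Real.exp (35 * C) + 1) / 2 ^ (25 * r) := by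
  have hp := h.prob
  set k : ℕ := 20 * r with hk
  have hr1 : (1 : ℝ) ≤ r := by exact_mod_cast (by omega : 1 ≤ r)
  have hr0 : (0 : ℝ) < r := by linarith
  have hY1 : 1 ≤ Y (r + 1) := by unfold Y; exact Nat.one_le_two_pow
  have hYZ : Y (r + 1) ≤ Y (150 * r) := Y_mono (by omega)
  have hkY : Y (r + 1) ^ (2 * k) ≤ Y (150 * r) := by
    unfold Y
    rw [← pow_mul]
    apply Nat.pow_le_pow_right (by norm_num)
    have := nuk (r := r) (by omega)
    rw [hk]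
    omega
  set V : ℝ := (r + 1) * Real.log 2 + C with hVd
  have hV := hC r (by omega)
  have hal := al_le_one hL
  have hSA : ∑ m ∈ Icc 1 (Y (r + 1)), ‖A m‖ ≤ (Y (r + 1) : ℝ) := by
    calc ∑ m ∈ Icc 1 (Y (r + 1)), ‖A m‖ ≤ ∑ _m ∈ Icc 1 (Y (r + 1)), (1 : ℝ) := by
          refine sum_le_sum fun m hm => ?_
          rw [mem_Icc] at hm
          refine (hA m hm.1).trans ?_
          rw [div_le_one (Real.sqrt_pos.2 (by exact_mod_cast hm.1))]
          refine (hal m).trans ?_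
          rw [Real.one_le_sqrt]
          exact_mod_cast hm.1
      _ = (Y (r + 1) : ℝ) := by simp
  set E1 : ℝ := 2 / (Y (150 * r) : ℝ) * (Y (r + 1) : ℝ) ^ (2 * k) with hE1
  set E2 : ℝ := ((2 * k).factorial : ℝ) * ((36 : ℝ) ^ k)⁻¹ * (2 * Real.exp (35 * V)) with hE2
  have hmom : ∫ ω, (∑ m ∈ Icc 1 (Y (r + 1)), A m * χ ω m).re ^ (2 * k) ∂P ≤ E2 + E1 := by
    have h1 := mom_diff h h' (e := 2 / (Y (150 * r) : ℝ)) (by positivity) hc A hY1 (2 * k) hkY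
    have h2 := (abs_le.1 h1).2
    have h3 : 2 / (Y (150 * r) : ℝ) * (∑ m ∈ Icc 1 (Y (r + 1)), ‖A m‖) ^ (2 * k) ≤ E1 := by
      rw [hE1]
      refine mul_le_mul_of_nonneg_left ?_ (by positivity)
      exact pow_le_pow_left₀ (sum_nonneg fun _ _ => norm_nonneg _) hSA _
    have h4 : ((2 * k).factorial : ℝ) * ((36 : ℝ) ^ k)⁻¹ * (2 * Real.exp (35 * ∑ p ∈ PP (Y (r + 1)), (1 : ℝ) / p)) ≤ E2 := by
      rw [hE2]
      gcongr
    linarith
  -- Markov
  set D : ℝ := (14 * (r : ℝ)) ^ (2 * k) with hD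
  have hD0 : 0 < D := by positivity
  have hD1 : 1 ≤ D := one_le_pow₀ (by linarith)
  have hmk := mul_meas_ge_le_integral_of_nonneg (μ := P) (f := fun ω => (∑ m ∈ Icc 1 (Y (r + 1)), A m * χ ω m).re ^ (2 * k))
    (ae_of_all _ fun ω => by beta_reduce; rw [pow_mul]; positivity) (h.int_pow A hYZ (2 * k)) D
  have hsub : P.real {ω | 14 * (r : ℝ) < |(∑ m ∈ Icc 1 (Y (r + 1)), A m * χ ω m).re|} ≤
      P.real {ω | D ≤ (∑ m ∈ Icc 1 (Y (r + 1)), A m * χ ω m).re ^ (2 * k)} := by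
    refine measureReal_mono (fun ω hω => ?_) (measure_ne_top _ _)
    rw [Set.mem_ofPred_eq] at hω ⊢
    have h1 : (∑ m ∈ Icc 1 (Y (r + 1)), A m * χ ω m).re ^ (2 * k) = |(∑ m ∈ Icc 1 (Y (r + 1)), A m * χ ω m).re| ^ (2 * k) :=
      ((even_two_mul k).pow_abs _).symm
    rw [h1, hD]
    exact pow_le_pow_left₀ (by positivity) hω.le _
  have hfin : D * P.real {ω | 14 * (r : ℝ) < |(∑ m ∈ Icc 1 (Y (r + 1)), A m * χ ω m).re|} ≤ E2 + E1 :=
    (mul_le_mul_of_nonneg_left hsub hD0.le).trans (hmk.trans hmom)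
  -- numbers
  have n1 : ((2 * k).factorial : ℝ) * ((36 : ℝ) ^ k)⁻¹ ≤ D / 2 ^ (60 * r) := by
    have h1 : ((2 * k).factorial : ℝ) ≤ (2 * k : ℝ) ^ k * (k : ℝ) ^ k := by
      have := (Nat.factorial_two_mul_le k).trans (Nat.mul_le_mul_left _ (Nat.factorial_le_pow k))
      exact_mod_cast this
    rw [← div_eq_mul_inv, div_le_div_iff₀ (by positivity) (by positivity)]
    have h2 : (2 : ℝ) ^ (60 * r) = 8 ^ k := by
      rw [hk, show 60 * r = 3 * (20 * r) by ring, pow_mul]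
      norm_num
    have h3 : D = (196 * (r : ℝ) ^ 2) ^ k := by
      rw [hD, pow_mul]
      congr 1
      ring
    have h4 : (k : ℝ) = 20 * r := by rw [hk]; push_cast; rfl
    rw [h2, h3]
    calc ((2 * k).factorial : ℝ) * 8 ^ k ≤ (2 * k : ℝ) ^ k * (k : ℝ) ^ k * 8 ^ k := mul_le_mul_of_nonneg_right h1 (by positivity)
      _ = (2 * (20 * r) * (20 * r) * 8 : ℝ) ^ k := by rw [← mul_pow, ← mul_pow, h4]
      _ ≤ (196 * (r : ℝ) ^ 2 * 36) ^ k := by
          apply pow_le_pow_left₀ (by positivity)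
          nlinarith [sq_nonneg (r : ℝ)]
      _ = (196 * (r : ℝ) ^ 2) ^ k * 36 ^ k := by rw [mul_pow]
  have n2 : Real.exp (35 * V) = 2 ^ (35 * r) * (2 ^ 35 * Real.exp (35 * C)) := by
    have h1 : Real.exp (35 * V) = Real.exp ((35 * r + 35 : ℕ) * Real.log 2) * Real.exp (35 * C) := by
      rw [← Real.exp_add, hVd]
      congr 1
      push_cast
      ring
    rw [h1, mul_comm ((35 * r + 35 : ℕ) : ℝ), Real.exp_mul, Real.exp_log (by norm_num), Real.rpow_natCast, pow_add]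
    ring
  have n3 : E1 ≤ 1 / 2 ^ (60 * r) := by
    have hY : (Y (150 * r) : ℝ) = 2 ^ (2 ^ (150 * r)) := by unfold Y; push_cast; rfl
    have hY2 : (Y (r + 1) : ℝ) = 2 ^ (2 ^ (r + 1)) := by unfold Y; push_cast; rfl
    rw [hE1, hY, hY2, ← pow_mul, div_mul_eq_mul_div, div_le_div_iff₀ (by positivity) (by positivity), one_mul]
    calc 2 * (2 : ℝ) ^ (2 ^ (r + 1) * (2 * k)) * 2 ^ (60 * r) = 2 ^ (60 * r + 1 + 2 ^ (r + 1) * (2 * k)) := by
          rw [pow_add _ (60 * r + 1), pow_succ]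
          ring
      _ ≤ 2 ^ (2 ^ (150 * r)) := pow_le_pow_right₀ (by norm_num) (nuk (by omega))
  have n4 : E2 + E1 ≤ D * ((2 ^ 36 * Real.exp (35 * C) + 1) / 2 ^ (25 * r)) := by
    have h1 : E2 ≤ D * (2 ^ 36 * Real.exp (35 * C) / 2 ^ (25 * r)) := by
      calc E2 ≤ D / 2 ^ (60 * r) * (2 * Real.exp (35 * V)) := mul_le_mul_of_nonneg_right n1 (by positivity)
        _ = D * (2 ^ 36 * Real.exp (35 * C) / 2 ^ (25 * r)) := by
            rw [n2, show 60 * r = 35 * r + 25 * r by ring, pow_add]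
            field_simp
    have h2 : E1 ≤ D * (1 / 2 ^ (25 * r)) := by
      calc E1 ≤ 1 / 2 ^ (60 * r) := n3
        _ ≤ 1 / 2 ^ (25 * r) := by
            apply one_div_le_one_div_of_le (by positivity)
            exact pow_le_pow_right₀ (by norm_num) (by omega)
        _ ≤ D * (1 / 2 ^ (25 * r)) := le_mul_of_one_le_left (by positivity) hD1
    calc E2 + E1 ≤ D * (2 ^ 36 * Real.exp (35 * C) / 2 ^ (25 * r)) + D * (1 / 2 ^ (25 * r)) := add_le_add h1 h2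
      _ = _ := by ring
  exact le_of_mul_le_mul_left (hfin.trans n4) hD0

/-- block SUB for two families -/
theorem sub2 (hL : LogC a α) (η : ℝ) (hη : 0 < η) : ∃ r0 : ℕ, ∀ r : ℕ, r0 ≤ r → ∀ (Ω Ω' : Type) [MeasurableSpace Ω] [MeasurableSpace Ω']
    (P : Measure Ω) (P' : Measure Ω') (χ : Ω → ℕ → ℂ) (χ' : Ω' → ℕ → ℂ), CF P χ (Y (150 * r)) → CF P' χ' (Y (150 * r)) →
    (∀ m n : ℕ, 1 ≤ m → m ≤ Y (150 * r) → 1 ≤ n → n ≤ Y (150 * r) → ‖(∫ ω, χ ω m * (starRingEnd ℂ) (χ ω n) ∂P) -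
      ∫ ω, χ' ω m * (starRingEnd ℂ) (χ' ω n) ∂P'‖ ≤ 2 / (Y (150 * r) : ℝ)) →
    (∀ A : ℕ → ℂ, (∀ m, 1 ≤ m → ‖A m‖ ≤ ‖α m‖ / Real.sqrt m) →
      ∫ ω, (∑ m ∈ Icc 1 (Y (r + 1)), A m * χ' ω m).re ^ (2 * (20 * r)) ∂P' ≤
      ((2 * (20 * r)).factorial : ℝ) * ((36 : ℝ) ^ (20 * r))⁻¹ * (2 * Real.exp (35 * ∑ p ∈ PP (Y (r + 1)), (1 : ℝ) / p))) →
    P.real {ω | ∃ j : ℕ, j < NG r ∧ 20 * (r : ℝ) < ‖PS r α (χ ω) (tj r j)‖} ≤ η := by
  obtain ⟨C, hC0, hC⟩ := mer5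
  set D : ℝ := 2 ^ 36 * Real.exp (35 * C) + 1 with hD
  have hD0 : 0 < D := by positivity
  obtain ⟨r1, hr1⟩ := exists_nat_gt (2 * D / η)
  refine ⟨max 8 r1, fun r hr Ω Ω' _ _ P P' χ χ' h h' hc hm => ?_⟩
  have hr8 : 8 ≤ r := (le_max_left _ _).trans hr
  have hrr1 : (r1 : ℝ) ≤ r := by exact_mod_cast (le_max_right _ _).trans hr
  have hp := h.prob
  have hs := sr_pos (r := r) (by omega)
  set B : ℕ → ℕ → ℂ := fun j m => α m * (m : ℂ) ^ (-(((1 / 2 + sr r : ℝ) : ℂ) + Complex.I * (tj r j : ℂ))) with hB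
  have hBn : ∀ j m, 1 ≤ m → ‖B j m‖ ≤ ‖α m‖ / Real.sqrt m := by
    intro j m hm
    have hm0 : (0 : ℝ) < m := by exact_mod_cast hm
    have hm1 : (1 : ℝ) ≤ m := by exact_mod_cast hm
    rw [hB]
    beta_reduce
    rw [norm_mul, Complex.norm_natCast_cpow_of_pos (by omega)]
    have h2 : (-(((1 / 2 + sr r : ℝ) : ℂ) + Complex.I * (tj r j : ℂ))).re = -(1 / 2 + sr r) := by
      simp
    rw [h2, div_eq_mul_inv]
    refine mul_le_mul_of_nonneg_left ?_ (norm_nonneg _)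
    rw [Real.rpow_neg hm0.le]
    apply inv_anti₀ (Real.sqrt_pos.2 hm0)
    rw [Real.sqrt_eq_rpow]
    exact Real.rpow_le_rpow_of_exponent_le hm1 (by linarith)
  have hPS : ∀ ω j, PS r α (χ ω) (tj r j) = ∑ m ∈ Icc 1 (Y (r + 1)), B j m * χ ω m := by
    intro ω j
    unfold PS
    exact sum_congr rfl fun m _ => by rw [hB]; ring
  have hone : ∀ j, P.real {ω | 20 * (r : ℝ) < ‖PS r α (χ ω) (tj r j)‖} ≤ 2 * (D / 2 ^ (25 * r)) := by
    intro j
    have hBn2 : ∀ m, 1 ≤ m → ‖-Complex.I * B j m‖ ≤ ‖α m‖ / Real.sqrt m := fun m hm => by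
      rw [norm_mul, norm_neg, Complex.norm_I, one_mul]
      exact hBn j m hm
    have t1 := tail2 hL hC hr8 h h' hc (A := B j) (hBn j) (hm _ (hBn j))
    have t2 := tail2 hL hC hr8 h h' hc (A := fun m => -Complex.I * B j m) hBn2 (hm _ hBn2)
    have hsub : {ω | 20 * (r : ℝ) < ‖PS r α (χ ω) (tj r j)‖} ⊆ {ω | 14 * (r : ℝ) < |(∑ m ∈ Icc 1 (Y (r + 1)), B j m * χ ω m).re|} ∪
        {ω | 14 * (r : ℝ) < |(∑ m ∈ Icc 1 (Y (r + 1)), -Complex.I * B j m * χ ω m).re|} := by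
      intro ω hω
      rw [Set.mem_ofPred_eq, hPS] at hω
      rw [Set.mem_union, Set.mem_ofPred_eq, Set.mem_ofPred_eq]
      set z := ∑ m ∈ Icc 1 (Y (r + 1)), B j m * χ ω m with hz
      have h1 : ∑ m ∈ Icc 1 (Y (r + 1)), -Complex.I * B j m * χ ω m = -Complex.I * z := by
        rw [hz, mul_sum]
        exact sum_congr rfl fun m _ => by ring
      have h2 : (-Complex.I * z).re = z.im := by simp
      rw [h1, h2]
      by_contra hc
      push Not at hc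
      have h3 : ‖z‖ ^ 2 = z.re ^ 2 + z.im ^ 2 := by
        rw [← Complex.normSq_eq_norm_sq, Complex.normSq_apply]
        ring
      have hr0 : (0 : ℝ) ≤ r := Nat.cast_nonneg _
      have h4 : z.re ^ 2 ≤ (14 * (r : ℝ)) ^ 2 := by
        rw [← sq_abs]
        exact pow_le_pow_left₀ (abs_nonneg _) hc.1 2
      have h5 : z.im ^ 2 ≤ (14 * (r : ℝ)) ^ 2 := by
        rw [← sq_abs]
        exact pow_le_pow_left₀ (abs_nonneg _) hc.2 2
      have h6 : (20 * (r : ℝ)) ^ 2 < ‖z‖ ^ 2 := pow_lt_pow_left₀ hω (by positivity) (by norm_num)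
      nlinarith [sq_nonneg (r : ℝ)]
    calc P.real {ω | 20 * (r : ℝ) < ‖PS r α (χ ω) (tj r j)‖} ≤ _ := measureReal_mono hsub (measure_ne_top _ _)
      _ ≤ _ := measureReal_union_le _ _
      _ ≤ D / 2 ^ (25 * r) + D / 2 ^ (25 * r) := add_le_add t1 t2
      _ = _ := by ring
  have hun : {ω | ∃ j : ℕ, j < NG r ∧ 20 * (r : ℝ) < ‖PS r α (χ ω) (tj r j)‖} ⊆
      ⋃ j ∈ range (NG r), {ω | 20 * (r : ℝ) < ‖PS r α (χ ω) (tj r j)‖} := by
    rintro ω ⟨j, hj, hω⟩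
    rw [Set.mem_iUnion₂]
    exact ⟨j, mem_range.2 hj, hω⟩
  calc P.real {ω | ∃ j : ℕ, j < NG r ∧ 20 * (r : ℝ) < ‖PS r α (χ ω) (tj r j)‖} ≤
        P.real (⋃ j ∈ range (NG r), {ω | 20 * (r : ℝ) < ‖PS r α (χ ω) (tj r j)‖}) := measureReal_mono hun (measure_ne_top _ _)
    _ ≤ ∑ j ∈ range (NG r), P.real {ω | 20 * (r : ℝ) < ‖PS r α (χ ω) (tj r j)‖} := measureReal_biUnion_finset_le _ _
    _ ≤ ∑ _j ∈ range (NG r), 2 * (D / 2 ^ (25 * r)) := sum_le_sum fun j _ => hone j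
    _ = 2 * D / 2 ^ (5 * r) := by
        rw [sum_const, card_range, nsmul_eq_mul]
        unfold NG
        push_cast
        rw [show 25 * r = 20 * r + 5 * r by ring, pow_add]
        field_simp
    _ ≤ η := by
        rw [div_le_iff₀ (by positivity)]
        rw [div_lt_iff₀ hη] at hr1
        have h1 : (r : ℝ) ≤ 2 ^ (5 * r) := by
          have : r < 2 ^ r := Nat.lt_two_pow_self
          have h2 : 2 ^ r ≤ 2 ^ (5 * r) := Nat.pow_le_pow_right (by norm_num) (by omega)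
          exact_mod_cast (this.le.trans h2)
        nlinarith

end Pool.Agent.DR
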